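import Pool.Agent.H77.BC.C

/-!
# Module B1: from bicliques to functionals
-/

set_option autoImplicit false

namespace Pool.Agent.H77.BC

open Finset

variable {E : Finset (ℕ × ℕ)}

/-- The two edges cross. -/
def CrP (e f : ℕ × ℕ) : Prop :=
  (e.1 < f.1 ∧ f.1 < e.2 ∧ e.2 < f.2) ∨ (f.1 < e.1 ∧ e.1 < f.2 ∧ f.2 < e.2)

instance (e f : ℕ × ℕ) : Decidable (CrP e f) := by unfold CrP; infer_instance

/-- The functional of a biclique with side `b`. -/
noncomputable def fnl (E : Finset (ℕ × ℕ)) (b : ℕ × ℕ → ℝ) : (ℕ × ℕ → ℝ) →ₗ[ℝ] ℝ :=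
  ∑ e ∈ ncE E, b e • LinearMap.proj e

theorem fnl_apply (b Y : ℕ × ℕ → ℝ) : fnl E b Y = ∑ e ∈ ncE E, b e * Y e := by
  simp [fnl, LinearMap.sum_apply]

theorem crossForm_eq {Y : ℕ × ℕ → ℝ} (hY : ∀ e, e ∉ ncE E → Y e = 0) :
    2 * crossForm E Y = ∑ e ∈ ncE E, ∑ f ∈ ncE E, if CrP e f then Y e * Y f else 0 := by
  have h1 : crossForm E Y = ∑ e ∈ ncE E, ∑ f ∈ ncE E,
      if e.1 < f.1 ∧ f.1 < e.2 ∧ e.2 < f.2 then Y e * Y f else 0 := by
    unfold crossForm
    symm
    refine (Finset.sum_congr rfl fun e _ => ?_).trans (Finset.sum_subset (filter_subset _ _) ?_)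
    · refine Finset.sum_subset (filter_subset _ _) fun f _ hf => ?_
      rw [hY f hf]
      simp
    · intro e _ he
      refine Finset.sum_eq_zero fun f _ => ?_
      rw [hY e he]
      simp
  have h2 : crossForm E Y = ∑ e ∈ ncE E, ∑ f ∈ ncE E,
      if f.1 < e.1 ∧ e.1 < f.2 ∧ f.2 < e.2 then Y e * Y f else 0 := by
    rw [h1, Finset.sum_comm]
    refine Finset.sum_congr rfl fun e _ => Finset.sum_congr rfl fun f _ => ?_
    rw [mul_comm (Y e)]
  rw [two_mul]
  nth_rw 1 [h1]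
  rw [h2, ← Finset.sum_add_distrib]
  refine Finset.sum_congr rfl fun e _ => ?_
  rw [← Finset.sum_add_distrib]
  refine Finset.sum_congr rfl fun f _ => ?_
  by_cases c1 : e.1 < f.1 ∧ f.1 < e.2 ∧ e.2 < f.2
  · have c2 : ¬ (f.1 < e.1 ∧ e.1 < f.2 ∧ f.2 < e.2) := by omega
    have c3 : CrP e f := Or.inl c1
    rw [if_pos c1, if_neg c2, if_pos c3, add_zero]
  · by_cases c2 : f.1 < e.1 ∧ e.1 < f.2 ∧ f.2 < e.2
    · have c3 : CrP e f := Or.inr c2
      rw [if_neg c1, if_pos c2, if_pos c3, zero_add]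
    · have c3 : ¬ CrP e f := fun h => Or.elim h c1 c2
      rw [if_neg c1, if_neg c2, if_neg c3, zero_add]

/-- A biclique partition of the crossing graph gives functionals as required by `lb_core`. -/
theorem hl_of_bicliques {ι : Type} [Fintype ι] (g : ι → ℕ → ℝ) (a b : ι → ℕ × ℕ → ℝ)
    (hg : ∀ v, ∀ f ∈ ncE E, ∑ i, g i v * b i f = if f.1 < v ∧ v < f.2 then 1 else 0)
    (hab : ∀ e ∈ ncE E, ∀ f ∈ ncE E, ∑ i, (a i e * b i f + a i f * b i e) =
      if CrP e f then 1 else 0)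
    (Y : ℕ × ℕ → ℝ) (hY : ∀ e, e ∉ ncE E → Y e = 0) (h0 : ∀ i, fnl E (b i) Y = 0) :
    (∀ v, ∑ e ∈ alive E v, Y e = 0) ∧ crossForm E Y = 0 := by
  simp only [fnl_apply] at h0
  constructor
  · intro v
    have h1 : ∑ e ∈ alive E v, Y e = ∑ f ∈ ncE E, (if f.1 < v ∧ v < f.2 then 1 else 0) * Y f := by
      have h2 : alive E v = (ncE E).filter fun f => f.1 < v ∧ v < f.2 := by
        ext e
        simp only [mem_alive, mem_filter, mem_ncE]
        constructor
        · rintro ⟨h3, h4, h5⟩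
          exact ⟨⟨h3, by omega⟩, h4, h5⟩
        · rintro ⟨⟨h3, -⟩, h4, h5⟩
          exact ⟨h3, h4, h5⟩
      rw [h2, Finset.sum_filter]
      refine Finset.sum_congr rfl fun f _ => ?_
      split_ifs <;> simp
    rw [h1, Finset.sum_congr rfl fun f hf => by rw [← hg v f hf]]
    have h2 : ∀ f ∈ ncE E, (∑ i, g i v * b i f) * Y f = ∑ i, g i v * (b i f * Y f) := by
      intro f _
      rw [Finset.sum_mul]
      exact Finset.sum_congr rfl fun i _ => by ring
    rw [Finset.sum_congr rfl h2, Finset.sum_comm]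
    refine Finset.sum_eq_zero fun i _ => ?_
    rw [← Finset.mul_sum, h0 i, mul_zero]
  · have h1 := crossForm_eq hY
    have h2 : ∑ e ∈ ncE E, ∑ f ∈ ncE E, (if CrP e f then Y e * Y f else 0) =
        ∑ i, 2 * ((∑ e ∈ ncE E, a i e * Y e) * ∑ f ∈ ncE E, b i f * Y f) := by
      have h3 : ∀ e ∈ ncE E, ∀ f ∈ ncE E, (if CrP e f then Y e * Y f else 0) =
          ∑ i, (a i e * Y e * (b i f * Y f) + a i f * Y f * (b i e * Y e)) := by
        intro e he f hf
        have h4 := hab e he f hf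
        have h5 : (if CrP e f then Y e * Y f else 0) = (if CrP e f then 1 else 0) * (Y e * Y f) := by
          split_ifs <;> simp
        rw [h5, ← h4, Finset.sum_mul]
        exact Finset.sum_congr rfl fun i _ => by ring
      rw [Finset.sum_congr rfl fun e he => Finset.sum_congr rfl fun f hf => h3 e he f hf]
      have h6 : ∀ e ∈ ncE E, (∑ f ∈ ncE E, ∑ i, (a i e * Y e * (b i f * Y f) +
          a i f * Y f * (b i e * Y e))) = ∑ i, ∑ f ∈ ncE E, (a i e * Y e * (b i f * Y f) +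
          a i f * Y f * (b i e * Y e)) := fun e _ => Finset.sum_comm
      rw [Finset.sum_congr rfl h6, Finset.sum_comm]
      refine Finset.sum_congr rfl fun i _ => ?_
      simp only [Finset.sum_add_distrib]
      rw [two_mul, Finset.sum_mul_sum]
      congr 1
      rw [Finset.sum_comm]
    rw [h2, Finset.sum_eq_zero (fun i _ => by rw [h0 i]; ring)] at h1
    linarith

end Pool.Agent.H77.BC
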