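import Pool.Agent.H77.BC.Def0

/-!
# Objects of the proof
-/

set_option autoImplicit false

namespace Pool.Agent.H77.BC

open Set

variable {V : Type}

/-- The number of neighbours of `v` that are next to `v` in the order `π`. -/
noncomputable def nextCount {W : Type} (H : SimpleGraph W) (π : W → ℕ) (v : W) : ℕ :=
  {w | H.Adj v w ∧ (π w = π v + 1 ∨ π v = π w + 1)}.ncard

/-- Every vertex of degree at least `2` is between two of its neighbours, and every vertex of
degree `1` is next to its neighbour. -/
def GoodOrder {W : Type} (H : SimpleGraph W) (π : W → ℕ) : Prop :=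
  ∀ v, min 2 (H.neighborSet v).ncard ≤ nextCount H π v

/-- The cone over `H`: the apex is `none`. -/
def cone {W : Type} (H : SimpleGraph W) : SimpleGraph (Option W) where
  Adj
    | none, none => False
    | none, some _ => True
    | some _, none => True
    | some u, some v => H.Adj u v
  symm := ⟨by
    intro u v h
    cases u <;> cases v <;> simp_all [H.adj_comm]⟩
  loopless := ⟨by
    intro u
    cases u <;> simp⟩

/-- The edges that are crossed by an edge with an earlier start. -/
def laterEdges (G : SimpleGraph V) (π : V → ℕ) : Set (Sym2 V) :=
  {f | ∃ a b c d, G.Adj a b ∧ G.Adj c d ∧ π a < π c ∧ π c < π b ∧ π b < π d ∧ f = s(c, d)}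

end Pool.Agent.H77.BC
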