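import Pool.Agent.H77.BC.B1
import Pool.Agent.H77.BC.Defs

/-!
# Module B2: the sides of the bundled crossings
-/

set_option autoImplicit false

namespace Pool.Agent.H77.BC

open Set

section general

variable {V : Type} {G : SimpleGraph V} {x : V → ℂ} {K : Sym2 V → Set ℂ}

/-- The two edges meet inside the disk. -/
def Cr (K : Sym2 V → Set ℂ) (e f : Sym2 V) : Prop := ∃ z, z ∈ K e ∧ z ∈ K f ∧ ‖z‖ < 1

/-- `A` and `B` are the sides of the bundled crossing `X`. -/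
structure Sides (G : SimpleGraph V) (K : Sym2 V → Set ℂ) (X : Set ℂ) (A B : Set (Sym2 V)) :
    Prop where
  memA : ∀ e ∈ A, e ∈ G.edgeSet
  memB : ∀ e ∈ B, e ∈ G.edgeSet
  ne : ∀ e ∈ A, ∀ f ∈ B, e ≠ f
  cross : ∀ e ∈ A, ∀ f ∈ B, ∃ z ∈ X, z ∈ K e ∧ z ∈ K f ∧ ‖z‖ < 1
  cover : ∀ z ∈ X, ∃ e ∈ A, ∃ f ∈ B, ∀ g ∈ G.edgeSet, z ∈ K g → g = e ∨ g = f

theorem Sides.symm {X : Set ℂ} {A B : Set (Sym2 V)} (h : Sides G K X A B) :
    Sides G K X B A where
  memA := h.memB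
  memB := h.memA
  ne := fun e he f hf => (h.ne f hf e he).symm
  cross := fun e he f hf => by
    obtain ⟨z, h1, h2, h3, h4⟩ := h.cross f hf e he
    exact ⟨z, h1, h3, h2, h4⟩
  cover := fun z hz => by
    obtain ⟨e, he, f, hf, h1⟩ := h.cover z hz
    exact ⟨f, hf, e, he, fun g hg hzg => (h1 g hg hzg).symm⟩

theorem exists_sides {X : Set ℂ} (hX : IsBundledCrossing G K X) :
    ∃ A B : Set (Sym2 V), Sides G K X A B := by
  obtain ⟨p, q, a, b, φ, hp, hq, hg, rfl⟩ := hX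
  have hrect : ∀ (i : Fin p) (j : Fin q), ((i : ℝ) + 1, (j : ℝ) + 1) ∈ rect p q := by
    intro i j
    have hi : ((i : ℕ) : ℝ) + 1 ≤ p := by exact_mod_cast i.2
    have hj : ((j : ℕ) : ℝ) + 1 ≤ q := by exact_mod_cast j.2
    have hi0 : (0 : ℝ) ≤ ((i : ℕ) : ℝ) := Nat.cast_nonneg _
    have hj0 : (0 : ℝ) ≤ ((j : ℕ) : ℝ) := Nat.cast_nonneg _
    refine ⟨⟨?_, ?_⟩, ⟨?_, ?_⟩⟩ <;> dsimp only <;> linarith
  refine ⟨Set.range a, Set.range b, ?_, ?_, ?_, ?_, ?_⟩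
  · rintro _ ⟨i, rfl⟩
    exact hg.mem_a i
  · rintro _ ⟨j, rfl⟩
    exact hg.mem_b j
  · rintro _ ⟨i, rfl⟩ _ ⟨j, rfl⟩
    exact hg.ne i j
  · rintro _ ⟨i, rfl⟩ _ ⟨j, rfl⟩
    refine ⟨φ ((i : ℝ) + 1, (j : ℝ) + 1), ⟨i, j, rfl⟩, ?_, ?_, hg.inside _ (hrect i j)⟩
    · exact (hg.mem_iff _ (hrect i j) _ (hg.mem_a i)).2 (Or.inl ⟨i, rfl, rfl⟩)
    · exact (hg.mem_iff _ (hrect i j) _ (hg.mem_b j)).2 (Or.inr ⟨j, rfl, rfl⟩)
  · rintro z ⟨i, j, rfl⟩
    refine ⟨a i, ⟨i, rfl⟩, b j, ⟨j, rfl⟩, fun g hgG hz => ?_⟩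
    rcases (hg.mem_iff _ (hrect i j) g hgG).1 hz with ⟨i', h1, h2⟩ | ⟨j', h1, h2⟩
    · left
      have : (i : ℕ) = i' := by
        have h3 : ((i : ℕ) : ℝ) = ((i' : ℕ) : ℝ) := by dsimp only at h2; linarith
        exact_mod_cast h3
      rw [← h1, Fin.ext this]
    · right
      have : (j : ℕ) = j' := by
        have h3 : ((j : ℕ) : ℝ) = ((j' : ℕ) : ℝ) := by dsimp only at h2; linarith
        exact_mod_cast h3
      rw [← h1, Fin.ext this]

/-- Edges with a common end do not cross in a simple layout. -/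
theorem not_Cr_of_common (hL : IsLayout G x K) (hS : IsSimple G K) {e f : Sym2 V}
    (he : e ∈ G.edgeSet) (hf : f ∈ G.edgeSet) (hef : e ≠ f) {v : V} (hve : v ∈ e) (hvf : v ∈ f) :
    ¬ Cr K e f := by
  rintro ⟨z, h1, h2, h3⟩
  have key : ∀ e : Sym2 V, e ∈ G.edgeSet → v ∈ e → x v ∈ K e := by
    intro e he hve
    obtain ⟨w, rfl⟩ := hve
    obtain ⟨γ, -, -, h4, -, h5⟩ := hL.arc v w he
    rw [← h5]
    exact ⟨0, by norm_num, h4⟩
  have h4 := hS e he f hf hef ⟨h1, h2⟩ ⟨key e he hve, key f hf hvf⟩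
  rw [h4, hL.norm_eq] at h3
  exact lt_irrefl _ h3

open Classical in
/-- Every crossing pair is in exactly one bundled crossing, in exactly one way. -/
theorem sum_sides (hS : IsSimple G K) {P : Finset (Set ℂ)} (hP : IsBundling G K P)
    (A B : Set ℂ → Set (Sym2 V)) (hAB : ∀ X ∈ P, Sides G K X (A X) (B X)) {e f : Sym2 V}
    (he : e ∈ G.edgeSet) (hf : f ∈ G.edgeSet) (hef : e ≠ f) :
    ∑ X ∈ P, ((if e ∈ A X ∧ f ∈ B X then (1 : ℝ) else 0) +
      (if f ∈ A X ∧ e ∈ B X then (1 : ℝ) else 0)) = if Cr K e f then 1 else 0 := by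
  -- a bundled crossing containing the pair contains the crossing point
  have hin : ∀ X ∈ P, ((e ∈ A X ∧ f ∈ B X) ∨ (f ∈ A X ∧ e ∈ B X)) →
      ∃ z ∈ X, z ∈ K e ∧ z ∈ K f ∧ ‖z‖ < 1 := by
    rintro X hX (⟨h1, h2⟩ | ⟨h1, h2⟩)
    · exact (hAB X hX).cross e h1 f h2
    · obtain ⟨z, h3, h4, h5, h6⟩ := (hAB X hX).cross f h1 e h2
      exact ⟨z, h3, h5, h4, h6⟩
  by_cases hc : Cr K e f
  · rw [if_pos hc]
    obtain ⟨z, h1, h2, h3⟩ := hc
    have h4 : z ∈ ⋃₀ (P : Set (Set ℂ)) := by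
      rw [hP.2.2]
      exact ⟨h3, e, he, f, hf, hef, h1, h2⟩
    obtain ⟨X0, hX0, hz⟩ := h4
    rw [Finset.sum_eq_single_of_mem X0 hX0]
    · obtain ⟨e', he', f', hf', hcov⟩ := (hAB X0 hX0).cover z hz
      have hne := (hAB X0 hX0).ne
      rcases hcov e he h1 with h5 | h5 <;> rcases hcov f hf h2 with h6 | h6
      · exact absurd (h5.trans h6.symm) hef
      · subst h5 h6
        rw [if_pos ⟨he', hf'⟩, if_neg, add_zero]
        rintro ⟨-, h7⟩
        exact hne e he' e h7 rfl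
      · subst h5 h6
        rw [if_pos (⟨he', hf'⟩ : f ∈ A X0 ∧ e ∈ B X0), if_neg, zero_add]
        rintro ⟨h7, -⟩
        exact hne e h7 e hf' rfl
      · exact absurd (h5.trans h6.symm) hef
    · intro X hX hXX
      have hno : ¬ ((e ∈ A X ∧ f ∈ B X) ∨ (f ∈ A X ∧ e ∈ B X)) := by
        intro h5
        obtain ⟨z', h6, h7, h8, h9⟩ := hin X hX h5
        have h10 : z' = z := hS e he f hf hef ⟨h7, h8⟩ ⟨h1, h2⟩
        rw [h10] at h6
        have h11 := hP.2.1 hX hX0 hXX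
        exact (Set.disjoint_left.1 h11) h6 hz
      rw [if_neg (fun h => hno (Or.inl h)), if_neg (fun h => hno (Or.inr h)), add_zero]
  · rw [if_neg hc]
    refine Finset.sum_eq_zero fun X hX => ?_
    have hno : ¬ ((e ∈ A X ∧ f ∈ B X) ∨ (f ∈ A X ∧ e ∈ B X)) := by
      intro h5
      obtain ⟨z', h6, h7, h8, h9⟩ := hin X hX h5
      exact hc ⟨z', h7, h8, h9⟩
    rw [if_neg (fun h => hno (Or.inl h)), if_neg (fun h => hno (Or.inr h)), add_zero]

end general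

variable {W : Type} {H : SimpleGraph W} {x : Option W → ℂ} {K : Sym2 (Option W) → Set ℂ}

/-- One side of every bundled crossing of a layout of a cone contains no edge at the apex. -/
theorem exists_sides_cone (hL : IsLayout (cone H) x K) (hS : IsSimple (cone H) K) {X : Set ℂ}
    (hX : IsBundledCrossing (cone H) K X) :
    ∃ A B : Set (Sym2 (Option W)), Sides (cone H) K X A B ∧ ∀ f ∈ B, none ∉ f := by
  obtain ⟨A, B, h⟩ := exists_sides hX
  by_cases hB : ∀ f ∈ B, none ∉ f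
  · exact ⟨A, B, h, hB⟩
  · push Not at hB
    obtain ⟨f, hf, hn⟩ := hB
    refine ⟨B, A, h.symm, fun e he hne => ?_⟩
    refine not_Cr_of_common hL hS (h.memA e he) (h.memB f hf) (h.ne e he f hf) hne hn ?_
    obtain ⟨z, -, h1, h2, h3⟩ := h.cross e he f hf
    exact ⟨z, h1, h2, h3⟩

end Pool.Agent.H77.BC
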