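import Pool.Agent.H77.BC.T2

/-!
# Module T3: evaluation of `alt`, crossing structure of the layouts of cones
-/

set_option autoImplicit false

namespace Pool.Agent.H77.BC

open Set

namespace T3X

/-- `1 - exp (i δ)` in polar form. -/
theorem arg_one_sub_exp {δ : ℝ} (h1 : -(2 * Real.pi) < δ) (h2 : δ < 2 * Real.pi) :
    Complex.arg (1 - Complex.exp (δ * Complex.I)) = δ / 2 + Real.pi / 2 * Real.sign (-δ) := by
  have hpi := Real.pi_pos
  have key : (1 : ℂ) - Complex.exp (δ * Complex.I)
      = (-(2 * Real.sin (δ / 2)) : ℝ) * (Complex.I * Complex.exp ((δ / 2 : ℝ) * Complex.I)) := by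
    have e1 : Complex.exp (δ * Complex.I)
        = Complex.exp ((δ / 2 : ℝ) * Complex.I) * Complex.exp ((δ / 2 : ℝ) * Complex.I) := by
      rw [← Complex.exp_add]
      congr 1
      push_cast
      ring
    have e2 := Complex.exp_mul_I ((δ / 2 : ℝ) : ℂ)
    have e3 : Complex.cos ((δ / 2 : ℝ) : ℂ) ^ 2 + Complex.sin ((δ / 2 : ℝ) : ℂ) ^ 2 = 1 := by
      rw [add_comm]; exact Complex.sin_sq_add_cos_sq _
    rw [e1, e2]
    push_cast
    push_cast at e3
    linear_combination (-1 : ℂ) * e3 + ((Complex.sin ((δ : ℂ) / 2)) ^ 2) * Complex.I_sq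
  rcases lt_trichotomy δ 0 with h | h | h
  · have hs : Real.sin (δ / 2) < 0 := Real.sin_neg_of_neg_of_neg_pi_lt (by linarith) (by linarith)
    have hsgn : Real.sign (-δ) = 1 := Real.sign_of_pos (by linarith)
    rw [hsgn, key]
    have e4 : (-(2 * Real.sin (δ / 2)) : ℝ) * (Complex.I * Complex.exp ((δ / 2 : ℝ) * Complex.I))
        = ((-(2 * Real.sin (δ / 2)) : ℝ) : ℂ)
          * Complex.exp ((δ / 2 + Real.pi / 2 : ℝ) * Complex.I) := by
      congr 1
      have : Complex.exp ((δ / 2 + Real.pi / 2 : ℝ) * Complex.I)
          = Complex.exp ((δ / 2 : ℝ) * Complex.I) * Complex.exp (Real.pi / 2 * Complex.I) := by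
        rw [← Complex.exp_add]
        congr 1
        push_cast
        ring
      rw [this, Complex.exp_pi_div_two_mul_I]
      ring
    rw [e4, Complex.arg_real_mul _ (by linarith), Complex.arg_exp_mul_I,
      toIocMod_eq_self Real.two_pi_pos |>.2]
    · ring
    · constructor <;> linarith
  · subst h
    simp
  · have hs : 0 < Real.sin (δ / 2) := Real.sin_pos_of_pos_of_lt_pi (by linarith) (by linarith)
    have hsgn : Real.sign (-δ) = -1 := Real.sign_of_neg (by linarith)
    rw [hsgn, key]
    have e4 : (-(2 * Real.sin (δ / 2)) : ℝ) * (Complex.I * Complex.exp ((δ / 2 : ℝ) * Complex.I))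
        = (((2 * Real.sin (δ / 2)) : ℝ) : ℂ)
          * Complex.exp ((δ / 2 - Real.pi / 2 : ℝ) * Complex.I) := by
      have : Complex.exp ((δ / 2 - Real.pi / 2 : ℝ) * Complex.I)
          = Complex.exp ((δ / 2 : ℝ) * Complex.I) * Complex.exp (-(Real.pi / 2) * Complex.I) := by
        rw [← Complex.exp_add]
        congr 1
        push_cast
        ring
      have e5 : Complex.exp (-(Real.pi / 2) * Complex.I) = -Complex.I := by
        rw [neg_mul, Complex.exp_neg, Complex.exp_pi_div_two_mul_I, Complex.inv_I]
      rw [this, e5]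
      push_cast
      ring
    rw [e4, Complex.arg_real_mul _ (by linarith), Complex.arg_exp_mul_I,
      toIocMod_eq_self Real.two_pi_pos |>.2]
    · ring
    · constructor <;> linarith

/-- `ang` in terms of angles. -/
theorem ang_exp {c : ℂ} (hc : ‖c‖ = 1) {a b : ℝ} (ha : -Real.pi ≤ a) (ha' : a < Real.pi)
    (hb : -Real.pi ≤ b) (hb' : b < Real.pi) :
    ang (c * Complex.exp (a * Complex.I)) (c * Complex.exp (b * Complex.I))
      = (b - a) / 2 + Real.pi / 2 * Real.sign (a - b) := by
  unfold ang
  have e1 : c * Complex.exp (b * Complex.I) * (starRingEnd ℂ) (c * Complex.exp (a * Complex.I))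
      = Complex.exp ((b - a : ℝ) * Complex.I) := by
    rw [map_mul, ← Complex.exp_conj, map_mul, Complex.conj_ofReal, Complex.conj_I]
    have e2 : c * (starRingEnd ℂ) c = 1 := by
      rw [Complex.mul_conj, Complex.normSq_eq_norm_sq, hc]; simp
    calc c * Complex.exp (b * Complex.I) * ((starRingEnd ℂ) c * Complex.exp (a * -Complex.I))
        = (c * (starRingEnd ℂ) c)
          * (Complex.exp (b * Complex.I) * Complex.exp (a * -Complex.I)) := by ring
      _ = Complex.exp ((b - a : ℝ) * Complex.I) := by
        rw [e2, one_mul, ← Complex.exp_add]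
        congr 1
        push_cast
        ring
  rw [e1, arg_one_sub_exp (by linarith) (by linarith)]
  congr 3
  ring

theorem alt_exp {c : ℂ} (hc : ‖c‖ = 1) {a b d e : ℝ} (ha : -Real.pi ≤ a) (ha' : a < Real.pi)
    (hb : -Real.pi ≤ b) (hb' : b < Real.pi) (hd : -Real.pi ≤ d) (hd' : d < Real.pi)
    (he : -Real.pi ≤ e) (he' : e < Real.pi) :
    alt (c * Complex.exp (a * Complex.I)) (c * Complex.exp (b * Complex.I))
      (c * Complex.exp (d * Complex.I)) (c * Complex.exp (e * Complex.I))
      = Real.pi / 2 * (Real.sign (a - b) + Real.sign (b - d) + Real.sign (d - e)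
          + Real.sign (e - a)) := by
  unfold alt
  rw [ang_exp hc ha ha' hb hb', ang_exp hc hb hb' hd hd', ang_exp hc hd hd' he he',
    ang_exp hc he he' ha ha']
  ring

theorem sign_sum_of_alt {c : ℂ} (hc : ‖c‖ = 1) {a b d e : ℝ} (ha : -Real.pi ≤ a)
    (ha' : a < Real.pi) (hb : -Real.pi ≤ b) (hb' : b < Real.pi) (hd : -Real.pi ≤ d)
    (hd' : d < Real.pi) (he : -Real.pi ≤ e) (he' : e < Real.pi)
    (h : alt (c * Complex.exp (a * Complex.I)) (c * Complex.exp (b * Complex.I))
      (c * Complex.exp (d * Complex.I)) (c * Complex.exp (e * Complex.I)) = 0) :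
    Real.sign (a - b) + Real.sign (b - d) + Real.sign (d - e) + Real.sign (e - a) = 0 := by
  rw [alt_exp hc ha ha' hb hb' hd hd' he he'] at h
  have hpi : Real.pi / 2 ≠ 0 := by have := Real.pi_pos; positivity
  exact (mul_eq_zero.1 h).resolve_left hpi

end T3X

open T3X in
theorem crossing_structure {W : Type} {H : SimpleGraph W} {x : Option W → ℂ}
    {K : Sym2 (Option W) → Set ℂ} (hL : IsLayout (cone H) x K) (hS : IsSimple (cone H) K) :
    ∃ s : W → ℝ, Function.Injective s ∧
      (∀ v u w, H.Adj u w → s u < s w → v ≠ u → v ≠ w →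
        ((K s(none, some v) ∩ K s(some u, some w)).Nonempty ↔ s u < s v ∧ s v < s w)) ∧
      (∀ u w u' w', H.Adj u w → H.Adj u' w' → s u < s w → s u' < s w' → s u < s u' → w ≠ u' →
        w ≠ w' → ((K s(some u, some w) ∩ K s(some u', some w')).Nonempty ↔
          s u' < s w ∧ s w < s w')) := by
  have hpi := Real.pi_pos
  set c : ℂ := -x none with hcdef
  have hc : ‖c‖ = 1 := by rw [hcdef, norm_neg]; exact hL.norm_eq none
  have hc0 : c ≠ 0 := by rw [← norm_ne_zero_iff, hc]; norm_num
  set σ : Option W → ℝ := fun u => match u with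
    | none => -Real.pi
    | some v => Complex.arg (x (some v) / c) with hσ
  have hz : ∀ v : W, ‖x (some v) / c‖ = 1 := by
    intro v; rw [norm_div, hL.norm_eq, hc]; norm_num
  have hσx : ∀ u, x u = c * Complex.exp (σ u * Complex.I) := by
    intro u
    cases u with
    | none =>
      have h1 : Complex.exp (((-Real.pi : ℝ) : ℂ) * Complex.I) = -1 := by
        rw [Complex.ofReal_neg, neg_mul, Complex.exp_neg, Complex.exp_pi_mul_I]
        norm_num
      simp only [hσ]
      rw [h1, hcdef]
      ring
    | some v =>
      simp only [hσ]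
      have h1 := Complex.norm_mul_exp_arg_mul_I (x (some v) / c)
      rw [hz v] at h1
      rw [Complex.ofReal_one, one_mul] at h1
      rw [h1]
      field_simp
  have hne : ∀ v : W, σ (some v) ≠ Real.pi := by
    intro v h
    have h1 := hσx (some v)
    rw [h, Complex.exp_pi_mul_I, hcdef] at h1
    have h2 : x (some v) = x none := by rw [h1]; ring
    exact absurd (hL.inj h2) (by simp)
  have hlo : ∀ u, -Real.pi ≤ σ u := by
    intro u
    cases u with
    | none => exact le_rfl
    | some v => exact (Complex.neg_pi_lt_arg _).le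
  have hlo' : ∀ v : W, -Real.pi < σ (some v) := fun v => Complex.neg_pi_lt_arg _
  have hhi : ∀ u, σ u < Real.pi := by
    intro u
    cases u with
    | none => simp only [hσ]; linarith
    | some v => exact lt_of_le_of_ne (Complex.arg_le_pi _) (hne v)
  have hinj : Function.Injective σ := by
    intro u w h
    apply hL.inj
    rw [hσx u, hσx w, h]
  have hdis : ∀ {u w u' w' : Option W}, (cone H).Adj u w → (cone H).Adj u' w' →
      K s(u, w) ∩ K s(u', w') = ∅ →
      Real.sign (σ u - σ u') + Real.sign (σ u' - σ w) + Real.sign (σ w - σ w')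
        + Real.sign (σ w' - σ u) = 0 := by
    intro u w u' w' h h' hd
    have h1 := alt_of_disjoint hL h h' hd
    rw [hσx u, hσx u', hσx w, hσx w'] at h1
    exact sign_sum_of_alt hc (hlo _) (hhi _) (hlo _) (hhi _) (hlo _) (hhi _) (hlo _) (hhi _) h1
  have hcr : ∀ {u w u' w' : Option W}, (cone H).Adj u w → (cone H).Adj u' w' →
      u ≠ u' → u ≠ w' → w ≠ u' → w ≠ w' → (K s(u, w) ∩ K s(u', w')).Nonempty →
      Real.sign (σ u - σ w) + Real.sign (σ w - σ u') + Real.sign (σ u' - σ w')
        + Real.sign (σ w' - σ u) = 0 ∧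
      Real.sign (σ u - σ w) + Real.sign (σ w - σ w') + Real.sign (σ w' - σ u')
        + Real.sign (σ u' - σ u) = 0 := by
    intro u w u' w' h h' n1 n2 n3 n4 hd
    have h1 := alt_of_cross hL hS h h' n1 n2 n3 n4 hd
    rw [hσx u, hσx u', hσx w, hσx w'] at h1
    exact ⟨sign_sum_of_alt hc (hlo _) (hhi _) (hlo _) (hhi _) (hlo _) (hhi _) (hlo _) (hhi _) h1.1,
      sign_sum_of_alt hc (hlo _) (hhi _) (hlo _) (hhi _) (hlo _) (hhi _) (hlo _) (hhi _) h1.2⟩
  refine ⟨fun v => σ (some v), fun u w h => ?_, ?_, ?_⟩
  · have h' : σ (some u) = σ (some w) := h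
    exact Option.some_injective _ (hinj h')
  · intro v u w huw hlt hvu hvw
    simp only at hlt ⊢
    have a1 : (cone H).Adj none (some v) := trivial
    have a2 : (cone H).Adj (some u) (some w) := huw
    have hu := hlo' u
    have hv := hlo' v
    have hw := hlo' w
    have hnone : σ none = -Real.pi := rfl
    have s1 : Real.sign (σ none - σ (some v)) = -1 := Real.sign_of_neg (by rw [hnone]; linarith)
    have s2 : Real.sign (σ (some u) - σ (some w)) = -1 := Real.sign_of_neg (by linarith)
    have s2' : Real.sign (σ (some w) - σ (some u)) = 1 := Real.sign_of_pos (by linarith)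
    have s3 : Real.sign (σ (some w) - σ none) = 1 := Real.sign_of_pos (by rw [hnone]; linarith)
    have s4 : Real.sign (σ (some u) - σ none) = 1 := Real.sign_of_pos (by rw [hnone]; linarith)
    have s5 : Real.sign (σ none - σ (some u)) = -1 := Real.sign_of_neg (by rw [hnone]; linarith)
    constructor
    · intro hne
      obtain ⟨h1, h2⟩ := hcr a1 a2 (by simp) (by simp) (by simpa using hvu) (by simpa using hvw) hne
      rw [s1, s2, s3] at h1
      rw [s1, s2', s4] at h2
      have h3 : Real.sign (σ (some v) - σ (some u)) = 1 := by linarith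
      have h4 : Real.sign (σ (some v) - σ (some w)) = -1 := by linarith
      constructor
      · by_contra hcon
        push Not at hcon
        rcases hcon.lt_or_eq with h5 | h5
        · rw [Real.sign_of_neg (by linarith)] at h3; norm_num at h3
        · rw [h5, sub_self, Real.sign_zero] at h3; norm_num at h3
      · by_contra hcon
        push Not at hcon
        rcases hcon.lt_or_eq with h5 | h5
        · rw [Real.sign_of_pos (by linarith)] at h4; norm_num at h4
        · rw [h5, sub_self, Real.sign_zero] at h4; norm_num at h4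
    · rintro ⟨h1, h2⟩
      by_contra hcon
      rw [Set.not_nonempty_iff_eq_empty] at hcon
      have h3 := hdis a1 a2 hcon
      rw [s5, s3, Real.sign_of_neg (by linarith : σ (some u) - σ (some v) < 0),
        Real.sign_of_neg (by linarith : σ (some v) - σ (some w) < 0)] at h3
      norm_num at h3
  · intro u w u' w' huw huw' hlt hlt' hlt'' hwu hww
    simp only at hlt hlt' hlt'' ⊢
    have a1 : (cone H).Adj (some u) (some w) := huw
    have a2 : (cone H).Adj (some u') (some w') := huw'
    have n1 : u ≠ u' := by rintro rfl; exact lt_irrefl _ hlt''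
    have n2 : u ≠ w' := by rintro rfl; linarith
    constructor
    · intro hne
      obtain ⟨h1, h2⟩ := hcr a1 a2 (by simpa using n1) (by simpa using n2) (by simpa using hwu)
        (by simpa using hww) hne
      rw [Real.sign_of_neg (by linarith : σ (some u) - σ (some w) < 0),
        Real.sign_of_neg (by linarith : σ (some u') - σ (some w') < 0),
        Real.sign_of_pos (by linarith : 0 < σ (some w') - σ (some u))] at h1
      rw [Real.sign_of_neg (by linarith : σ (some u) - σ (some w) < 0),
        Real.sign_of_pos (by linarith : 0 < σ (some w') - σ (some u')),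
        Real.sign_of_pos (by linarith : 0 < σ (some u') - σ (some u))] at h2
      have h3 : Real.sign (σ (some w) - σ (some u')) = 1 := by linarith
      have h4 : Real.sign (σ (some w) - σ (some w')) = -1 := by linarith
      constructor
      · by_contra hcon
        push Not at hcon
        rcases hcon.lt_or_eq with h5 | h5
        · rw [Real.sign_of_neg (by linarith)] at h3; norm_num at h3
        · rw [h5, sub_self, Real.sign_zero] at h3; norm_num at h3
      · by_contra hcon
        push Not at hcon
        rcases hcon.lt_or_eq with h5 | h5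
        · rw [Real.sign_of_pos (by linarith)] at h4; norm_num at h4
        · rw [h5, sub_self, Real.sign_zero] at h4; norm_num at h4
    · rintro ⟨h1, h2⟩
      by_contra hcon
      rw [Set.not_nonempty_iff_eq_empty] at hcon
      have h3 := hdis a1 a2 hcon
      rw [Real.sign_of_neg (by linarith : σ (some u) - σ (some u') < 0),
        Real.sign_of_neg (by linarith : σ (some u') - σ (some w) < 0),
        Real.sign_of_neg (by linarith : σ (some w) - σ (some w') < 0),
        Real.sign_of_pos (by linarith : 0 < σ (some w') - σ (some u))] at h3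
      norm_num at h3

end Pool.Agent.H77.BC
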