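import Pool.Agent.H77.BC.B2
import Pool.Agent.H77.BC.T3

/-!
# Module B3: the lower bound for cones
-/

set_option autoImplicit false

namespace Pool.Agent.H77.BC

open Finset

section order

variable {W : Type} [Fintype W] [DecidableEq W] (H : SimpleGraph W) [DecidableRel H.Adj]
  (s : W → ℝ)

/-- The rank of a vertex in the order given by `s`. -/
noncomputable def rk (w : W) : ℕ := (univ.filter fun u => s u < s w).card

/-- The edges as pairs of ranks. -/
noncomputable def rkE : Finset (ℕ × ℕ) :=
  ((univ : Finset (W × W)).filter fun p => H.Adj p.1 p.2 ∧ s p.1 < s p.2).image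
    fun p => (rk s p.1, rk s p.2)

variable {H s}

omit [DecidableEq W] in
theorem rk_lt_iff {u w : W} : rk s u < rk s w ↔ s u < s w := by
  have key : ∀ u w : W, s u < s w → rk s u < rk s w := by
    intro u w h
    refine card_lt_card ?_
    rw [ssubset_iff_of_subset (fun v hv => ?_)]
    · exact ⟨u, by simpa using h, by simp⟩
    · rw [mem_filter] at hv ⊢
      exact ⟨hv.1, hv.2.trans h⟩
  constructor
  · intro h
    by_contra hc
    push Not at hc
    rcases hc.lt_or_eq with h1 | h1
    · exact absurd (key _ _ h1) (by omega)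
    · unfold rk at h
      rw [h1] at h
      exact lt_irrefl _ h
  · exact key u w

omit [DecidableEq W] in
theorem rk_inj (hs : Function.Injective s) : Function.Injective (rk s) := by
  intro u w h
  by_contra hne
  have : s u ≠ s w := fun h1 => hne (hs h1)
  rcases lt_or_gt_of_ne this with h1 | h1
  · exact absurd (rk_lt_iff.2 h1) (by omega)
  · exact absurd (rk_lt_iff.2 h1) (by omega)

omit [DecidableEq W] in
theorem rk_lt_card (w : W) : rk s w < Fintype.card W := by
  have : (univ.filter fun u => s u < s w).card < (univ : Finset W).card := by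
    refine card_lt_card ?_
    rw [ssubset_iff_of_subset (filter_subset _ _)]
    exact ⟨w, mem_univ w, by simp⟩
  simpa [rk] using this

omit [DecidableEq W] in
theorem exists_rk (hs : Function.Injective s) {v : ℕ} (hv : v < Fintype.card W) :
    ∃ w, rk s w = v := by
  have h1 : Function.Injective fun w : W => (⟨rk s w, rk_lt_card w⟩ : Fin (Fintype.card W)) := by
    intro u w h
    exact rk_inj hs (congrArg Fin.val h)
  have h2 := (Fintype.bijective_iff_injective_and_card _).2 ⟨h1, by simp⟩
  obtain ⟨w, hw⟩ := h2.2 ⟨v, hv⟩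
  exact ⟨w, congrArg Fin.val hw⟩

theorem mem_rkE {e : ℕ × ℕ} : e ∈ rkE H s ↔
    ∃ u w, H.Adj u w ∧ s u < s w ∧ e = (rk s u, rk s w) := by
  unfold rkE
  simp only [mem_image, mem_filter, mem_univ, true_and, Prod.exists]
  constructor
  · rintro ⟨u, w, ⟨h1, h2⟩, h3⟩
    exact ⟨u, w, h1, h2, h3.symm⟩
  · rintro ⟨u, w, h1, h2, h3⟩
    exact ⟨u, w, ⟨h1, h2⟩, h3.symm⟩

theorem card_rkE_fst (hs : Function.Injective s) (w : W) :
    ((rkE H s).filter fun e => e.1 = rk s w).card =
      (univ.filter fun u => H.Adj w u ∧ s w < s u).card := by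
  symm
  refine card_bij (fun u _ => (rk s w, rk s u)) ?_ ?_ ?_
  · intro u hu
    rw [mem_filter] at hu
    rw [mem_filter, mem_rkE]
    exact ⟨⟨w, u, hu.2.1, hu.2.2, rfl⟩, rfl⟩
  · intro u _ u' _ h
    exact rk_inj hs (congrArg Prod.snd h)
  · intro e he
    rw [mem_filter, mem_rkE] at he
    obtain ⟨⟨u, u', h1, h2, rfl⟩, h3⟩ := he
    have h4 := rk_inj hs h3
    subst h4
    exact ⟨u', by rw [mem_filter]; exact ⟨mem_univ _, h1, h2⟩, rfl⟩

theorem card_rkE_snd (hs : Function.Injective s) (w : W) :
    ((rkE H s).filter fun e => e.2 = rk s w).card =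
      (univ.filter fun u => H.Adj w u ∧ s u < s w).card := by
  symm
  refine card_bij (fun u _ => (rk s u, rk s w)) ?_ ?_ ?_
  · intro u hu
    rw [mem_filter] at hu
    rw [mem_filter, mem_rkE]
    exact ⟨⟨u, w, hu.2.1.symm, hu.2.2, rfl⟩, rfl⟩
  · intro u _ u' _ h
    exact rk_inj hs (congrArg Prod.fst h)
  · intro e he
    rw [mem_filter, mem_rkE] at he
    obtain ⟨⟨u, u', h1, h2, rfl⟩, h3⟩ := he
    have h4 := rk_inj hs h3
    subst h4
    exact ⟨u, by rw [mem_filter]; exact ⟨mem_univ _, h1.symm, h2⟩, rfl⟩

theorem degE_rk (hs : Function.Injective s) (w : W) :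
    degE (rkE H s) (rk s w) = (H.neighborSet w).ncard := by
  unfold degE
  rw [card_rkE_fst hs, card_rkE_snd hs, ← card_union_of_disjoint]
  · rw [← Set.ncard_coe_finset]
    congr 1
    ext u
    simp only [coe_union, coe_filter, mem_univ, true_and, Set.mem_union, Set.mem_setOf_eq,
      SimpleGraph.mem_neighborSet]
    constructor
    · rintro (h | h) <;> exact h.1
    · intro h
      have : s w ≠ s u := fun h1 => h.ne (hs h1)
      rcases lt_or_gt_of_ne this with h1 | h1
      · exact Or.inl ⟨h, h1⟩
      · exact Or.inr ⟨h, h1⟩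
  · rw [disjoint_left]
    intro u hu hu'
    rw [mem_filter] at hu hu'
    exact absurd hu.2.2 (not_lt.2 hu'.2.2.le)

theorem consE_rk_le (hs : Function.Injective s) (w : W) :
    consE (rkE H s) (rk s w) ≤ nextCount H (rk s) w := by
  classical
  unfold consE nextCount
  set S : Set W := {u | H.Adj w u ∧ (rk s u = rk s w + 1 ∨ rk s w = rk s u + 1)} with hS
  have h1 : (if (rk s w, rk s w + 1) ∈ rkE H s then 1 else 0) ≤
      ((univ : Finset W).filter fun u => H.Adj w u ∧ rk s u = rk s w + 1).card := by
    split_ifs with h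
    · obtain ⟨u, u', h2, -, h3⟩ := mem_rkE.1 h
      rw [Prod.mk.injEq] at h3
      have h4 := rk_inj hs h3.1
      subst h4
      refine card_pos.2 ⟨u', ?_⟩
      rw [mem_filter]
      exact ⟨mem_univ _, h2, h3.2.symm⟩
    · exact Nat.zero_le _
  have h2 : (if 1 ≤ rk s w ∧ (rk s w - 1, rk s w) ∈ rkE H s then 1 else 0) ≤
      ((univ : Finset W).filter fun u => H.Adj w u ∧ rk s w = rk s u + 1).card := by
    split_ifs with h
    · obtain ⟨u, u', h2, -, h3⟩ := mem_rkE.1 h.2
      rw [Prod.mk.injEq] at h3
      have h4 := rk_inj hs h3.2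
      subst h4
      refine card_pos.2 ⟨u, ?_⟩
      rw [mem_filter]
      exact ⟨mem_univ _, h2.symm, by omega⟩
    · exact Nat.zero_le _
  refine (Nat.add_le_add h1 h2).trans ?_
  rw [← card_union_of_disjoint, ← Set.ncard_coe_finset]
  · refine (Set.ncard_le_ncard ?_ (Set.toFinite _))
    intro u hu
    simp only [coe_union, coe_filter, mem_univ, true_and, Set.mem_union, Set.mem_setOf_eq] at hu
    rcases hu with hu | hu
    · exact ⟨hu.1, Or.inl hu.2⟩
    · exact ⟨hu.1, Or.inr hu.2⟩
  · rw [disjoint_left]
    intro u hu hu'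
    rw [mem_filter] at hu hu'
    omega

omit [DecidableEq W] in
theorem sum_range_rk (hs : Function.Injective s) (F : ℕ → ℕ) :
    ∑ v ∈ range (Fintype.card W), F v = ∑ w, F (rk s w) := by
  symm
  refine sum_bij (fun w _ => rk s w) (fun w _ => mem_range.2 (rk_lt_card w))
    (fun u _ w _ h => rk_inj hs h) (fun v hv => ?_) (fun _ _ => rfl)
  obtain ⟨w, hw⟩ := exists_rk hs (mem_range.1 hv)
  exact ⟨w, mem_univ w, hw⟩

end order

/-- Two edges without common ends meet if and only if they cross. -/
theorem Cr_iff {V : Type} {G : SimpleGraph V} {x : V → ℂ} {K : Sym2 V → Set ℂ}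
    (hL : IsLayout G x K) {u w u' w' : V} (h : G.Adj u w) (h' : G.Adj u' w') (h1 : u ≠ u')
    (h2 : u ≠ w') (h3 : w ≠ u') (h4 : w ≠ w') :
    Cr K s(u, w) s(u', w') ↔ (K s(u, w) ∩ K s(u', w')).Nonempty := by
  constructor
  · rintro ⟨z, h5, h6, -⟩
    exact ⟨z, h5, h6⟩
  · rintro ⟨z, h5, h6⟩
    rcases hL.inside u w h z h5 with h7 | h7
    · exact ⟨z, h5, h6, h7⟩
    · rcases hL.inside u' w' h' z h6 with h8 | h8
      · exact ⟨z, h5, h6, h8⟩
      · exfalso
        rcases h7 with h7 | h7 <;> rcases h8 with h8 | h8
        · exact h1 (hL.inj (h7.symm.trans h8))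
        · exact h2 (hL.inj (h7.symm.trans h8))
        · exact h3 (hL.inj (h7.symm.trans h8))
        · exact h4 (hL.inj (h7.symm.trans h8))

open Classical in
/-- **The lower bound for cones.** -/
theorem goodOrder_of_bundling {W : Type} [Fintype W] (H : SimpleGraph W) (k : ℕ)
    (h3 : ∀ v, (H.neighborSet v).ncard ≤ 3) (h1 : ∀ v, 1 ≤ (H.neighborSet v).ncard)
    (hk : 2 * k + ∑ v, min 2 (H.neighborSet v).ncard ≤ ∑ v, (H.neighborSet v).ncard)
    (h : HasBundling (cone H) k) : ∃ π : W → ℕ, Function.Injective π ∧ GoodOrder H π := by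
  obtain ⟨x, K, hL, hS, P, hP, hcard⟩ := h
  obtain ⟨s, hs, hub, hcr⟩ := crossing_structure hL hS
  refine ⟨rk s, rk_inj hs, ?_⟩
  rcases isEmpty_or_nonempty W with hW | hW
  · intro v
    exact (hW.false v).elim
  -- sides
  have hsides : ∀ X ∈ P, ∃ A B : Set (Sym2 (Option W)),
      Sides (cone H) K X A B ∧ ∀ f ∈ B, none ∉ f := fun X hX =>
    exists_sides_cone hL hS (hP.1 X hX)
  choose! A B hAB hBn using hsides
  -- positions and edges
  set E := rkE H s with hE
  set τ : ℕ → W := Function.invFun (rk s) with hτ
  have hτr : ∀ w, τ (rk s w) = w := Function.leftInverse_invFun (rk_inj hs)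
  set ed : ℕ × ℕ → Sym2 (Option W) := fun e => s(some (τ e.1), some (τ e.2)) with hed
  set hb : ℕ → Sym2 (Option W) := fun v => s(none, some (τ v)) with hhb
  have hedr : ∀ u w, ed (rk s u, rk s w) = s(some u, some w) := by
    intro u w
    simp only [hed, hτr]
  have hhbr : ∀ w, hb (rk s w) = s(none, some w) := by
    intro w
    simp only [hhb, hτr]
  have hadj : ∀ {u w : W}, H.Adj u w → (cone H).Adj (some u) (some w) := fun h => h
  have hadj0 : ∀ w : W, (cone H).Adj none (some w) := fun w => trivial
  set n := Fintype.card W with hn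
  -- the weights
  set g : P → ℕ → ℝ := fun X v => if v < n ∧ hb v ∈ A X then 1 else 0 with hg
  set a : P → ℕ × ℕ → ℝ := fun X e => if ed e ∈ A X then 1 else 0 with ha
  set b : P → ℕ × ℕ → ℝ := fun X e => if ed e ∈ B X then 1 else 0 with hb'
  have hmemE : ∀ e ∈ ncE E, ∃ u w, H.Adj u w ∧ s u < s w ∧ e = (rk s u, rk s w) := fun e he =>
    mem_rkE.1 (mem_ncE.1 he).1
  have hhg : ∀ v, ∀ f ∈ ncE E, ∑ i, g i v * b i f = if f.1 < v ∧ v < f.2 then 1 else 0 := by
    intro v f hf
    obtain ⟨u, w, huw, hlt, rfl⟩ := hmemE f hf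
    rcases Nat.lt_or_ge v n with hv | hv
    · obtain ⟨w0, rfl⟩ := exists_rk hs hv
      have hne : hb (rk s w0) ≠ ed (rk s u, rk s w) := by
        rw [hhbr, hedr]
        intro h5
        have : (none : Option W) ∈ s(some u, some w) := by
          rw [← h5]
          simp
        simp at this
      have hsum := sum_sides hS hP A B hAB (e := hb (rk s w0)) (f := ed (rk s u, rk s w))
        (by rw [hhbr]; exact hadj0 w0) (by rw [hedr]; exact hadj huw) hne
      have hL1 : ∑ i, g i (rk s w0) * b i (rk s u, rk s w) =
          if Cr K (hb (rk s w0)) (ed (rk s u, rk s w)) then 1 else 0 := by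
        rw [← hsum, ← Finset.sum_coe_sort P]
        refine Finset.sum_congr rfl fun X _ => ?_
        have h6 : ¬ (ed (rk s u, rk s w) ∈ A X ∧ hb (rk s w0) ∈ B X) := by
          rintro ⟨-, h7⟩
          refine hBn X X.2 _ h7 ?_
          rw [hhbr]
          simp
        rw [if_neg h6, add_zero]
        simp only [hg, hb']
        by_cases h7 : hb (rk s w0) ∈ A X
        · by_cases h8 : ed (rk s u, rk s w) ∈ B X
          · simp [h7, h8, hv]
          · simp [h8]
        · simp [h7]
      rw [hL1, hhbr, hedr]
      have hiff : Cr K s(none, some w0) s(some u, some w) ↔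
          rk s u < rk s w0 ∧ rk s w0 < rk s w := by
        by_cases hwu : w0 = u
        · subst hwu
          refine iff_of_false ?_ (by omega)
          exact not_Cr_of_common hL hS (hadj0 w0) (hadj huw) (by
            rw [← hhbr, ← hedr]; exact hne) (v := some w0) (by simp) (by simp)
        · by_cases hww : w0 = w
          · subst hww
            refine iff_of_false ?_ (by omega)
            exact not_Cr_of_common hL hS (hadj0 w0) (hadj huw) (by
              rw [← hhbr, ← hedr]; exact hne) (v := some w0) (by simp) (by simp)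
          · rw [Cr_iff hL (hadj0 w0) (hadj huw) (by simp) (by simp) (by simpa using hwu)
              (by simpa using hww), hub w0 u w huw hlt hwu hww, rk_lt_iff, rk_lt_iff]
      by_cases h9 : rk s u < rk s w0 ∧ rk s w0 < rk s w
      · rw [if_pos (hiff.2 h9), if_pos h9]
      · rw [if_neg (fun h10 => h9 (hiff.1 h10)), if_neg h9]
    · have h5 := rk_lt_card (s := s) w
      rw [if_neg (by dsimp only; omega)]
      refine Finset.sum_eq_zero fun X _ => ?_
      have h6 : ¬ (v < n ∧ hb v ∈ A X) := fun h7 => absurd h7.1 (by omega)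
      simp only [hg]
      rw [if_neg h6, zero_mul]
  have hhab : ∀ e ∈ ncE E, ∀ f ∈ ncE E, ∑ i, (a i e * b i f + a i f * b i e) =
      if CrP e f then 1 else 0 := by
    intro e he f hf
    have hmul : ∀ (X : P) (e f : ℕ × ℕ), a X e * b X f =
        if ed e ∈ A X ∧ ed f ∈ B X then (1 : ℝ) else 0 := by
      intro X e f
      simp only [ha, hb']
      by_cases h7 : ed e ∈ A X
      · by_cases h8 : ed f ∈ B X
        · simp [h7, h8]
        · simp [h8]
      · simp [h7]
    by_cases hef : e = f
    · subst hef
      have h6 : ¬ CrP e e := by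
        unfold CrP
        omega
      rw [if_neg h6]
      refine Finset.sum_eq_zero fun X _ => ?_
      have h7 : ¬ (ed e ∈ A X ∧ ed e ∈ B X) := fun h8 =>
        (hAB X X.2).ne _ h8.1 _ h8.2 rfl
      rw [hmul, if_neg h7, add_zero]
    · obtain ⟨u, w, huw, hlt, rfl⟩ := hmemE e he
      obtain ⟨u', w', huw', hlt', rfl⟩ := hmemE f hf
      have hne : ed (rk s u, rk s w) ≠ ed (rk s u', rk s w') := by
        rw [hedr, hedr]
        intro h5
        rw [Sym2.eq_iff] at h5
        simp only [Option.some.injEq] at h5
        rcases h5 with ⟨rfl, rfl⟩ | ⟨rfl, rfl⟩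
        · exact hef rfl
        · linarith
      have hsum := sum_sides hS hP A B hAB (e := ed (rk s u, rk s w))
        (f := ed (rk s u', rk s w')) (by rw [hedr]; exact hadj huw)
        (by rw [hedr]; exact hadj huw') hne
      have hL1 : ∑ i, (a i (rk s u, rk s w) * b i (rk s u', rk s w') +
          a i (rk s u', rk s w') * b i (rk s u, rk s w)) =
          if Cr K (ed (rk s u, rk s w)) (ed (rk s u', rk s w')) then 1 else 0 := by
        rw [← hsum, ← Finset.sum_coe_sort P]
        refine Finset.sum_congr rfl fun X _ => ?_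
        rw [hmul, hmul]
      rw [hL1, hedr, hedr]
      have hne' : s(some u, some w) ≠ s(some u', some w') := by
        rw [← hedr, ← hedr]; exact hne
      have hiff : Cr K s(some u, some w) s(some u', some w') ↔
          CrP (rk s u, rk s w) (rk s u', rk s w') := by
        have r1 := rk_lt_iff.2 hlt
        have r2 := rk_lt_iff.2 hlt'
        by_cases c1 : u = u'
        · subst c1
          refine iff_of_false (not_Cr_of_common hL hS (hadj huw) (hadj huw') hne'
            (v := some u) (by simp) (by simp)) ?_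
          unfold CrP
          dsimp only
          omega
        by_cases c2 : u = w'
        · subst c2
          refine iff_of_false (not_Cr_of_common hL hS (hadj huw) (hadj huw') hne'
            (v := some u) (by simp) (by simp)) ?_
          unfold CrP
          dsimp only
          omega
        by_cases c3 : w = u'
        · subst c3
          refine iff_of_false (not_Cr_of_common hL hS (hadj huw) (hadj huw') hne'
            (v := some w) (by simp) (by simp)) ?_
          unfold CrP
          dsimp only
          omega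
        by_cases c4 : w = w'
        · subst c4
          refine iff_of_false (not_Cr_of_common hL hS (hadj huw) (hadj huw') hne'
            (v := some w) (by simp) (by simp)) ?_
          unfold CrP
          dsimp only
          omega
        rw [Cr_iff hL (hadj huw) (hadj huw') (by simpa using c1) (by simpa using c2)
          (by simpa using c3) (by simpa using c4)]
        have hsne : s u ≠ s u' := fun h5 => c1 (hs h5)
        rcases lt_or_gt_of_ne hsne with h5 | h5
        · rw [hcr u w u' w' huw huw' hlt hlt' h5 c3 c4, ← rk_lt_iff (s := s),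
            ← rk_lt_iff (s := s)]
          have r3 := rk_lt_iff.2 h5
          unfold CrP
          dsimp only
          omega
        · rw [Set.inter_comm, hcr u' w' u w huw' huw hlt' hlt h5 (fun h6 => c2 h6.symm)
            (fun h6 => c4 h6.symm), ← rk_lt_iff (s := s), ← rk_lt_iff (s := s)]
          have r3 := rk_lt_iff.2 h5
          unfold CrP
          dsimp only
          omega
      by_cases h9 : CrP (rk s u, rk s w) (rk s u', rk s w')
      · rw [if_pos (hiff.2 h9), if_pos h9]
      · rw [if_neg (fun h10 => h9 (hiff.1 h10)), if_neg h9]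
  -- apply the linear algebra
  have key := lb_core (E := E) (ι := P) n
    (fun e he => by
      obtain ⟨u, w, -, hlt, rfl⟩ := mem_rkE.1 he
      exact ⟨rk_lt_iff.2 hlt, rk_lt_card w⟩)
    (fun v hv => by
      obtain ⟨w, rfl⟩ := exists_rk hs hv
      rw [degE_rk hs]
      exact h1 w)
    (fun v hv => by
      obtain ⟨w, rfl⟩ := exists_rk hs hv
      rw [degE_rk hs]
      exact h3 w)
    (fun X => fnl E (b X))
    (fun Y hY h0 => hl_of_bicliques g a b hhg hhab Y hY h0)
    (by
      rw [sum_range_rk hs, sum_range_rk hs, Fintype.card_coe, hcard]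
      simp only [hE, degE_rk hs]
      exact hk)
  intro w
  have h5 := key (rk s w) (rk_lt_card w)
  rw [degE_rk hs] at h5
  exact h5.trans (consE_rk_le hs w)

end Pool.Agent.H77.BC
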