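import Pool.Agent.H77.BC.Defs

/-!
# Upper bound for cones
-/

set_option autoImplicit false

namespace Pool.Agent.H77.BC

open scoped Classical in
private theorem bu_card_pairs {W : Type} [Fintype W] (R : W → W → Prop) :
    {p : W × W | R p.1 p.2}.ncard = ∑ v, {w | R v w}.ncard := by
  have h1 : ∀ v, {w | R v w}.ncard = ∑ w, if R v w then 1 else 0 := by
    intro v
    rw [Set.ncard_eq_toFinset_card', Set.toFinset_ofPred, Finset.card_filter]
  rw [Set.ncard_eq_toFinset_card', Set.toFinset_ofPred, Finset.card_filter,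
    Fintype.sum_prod_type]
  exact Finset.sum_congr rfl fun v _ => (h1 v).symm

open scoped Classical in
private theorem bu_card_pairs' {W : Type} [Fintype W] (R : W → W → Prop) :
    {p : W × W | R p.1 p.2}.ncard = ∑ v, {w | R w v}.ncard := by
  have h1 : ∀ v, {w | R w v}.ncard = ∑ w, if R w v then 1 else 0 := by
    intro v
    rw [Set.ncard_eq_toFinset_card', Set.toFinset_ofPred, Finset.card_filter]
  rw [Set.ncard_eq_toFinset_card', Set.toFinset_ofPred, Finset.card_filter,
    Fintype.sum_prod_type, Finset.sum_comm]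
  exact Finset.sum_congr rfl fun v _ => (h1 v).symm

/-- The pairs of adjacent vertices whose distance in the order is at least `2`. -/
private def farPairs {W : Type} (H : SimpleGraph W) (π : W → ℕ) : Set (W × W) :=
  {p | H.Adj p.1 p.2 ∧ π p.1 + 2 ≤ π p.2}

private theorem bu_degree {W : Type} [Fintype W] (H : SimpleGraph W) (π : W → ℕ) (v : W) :
    {w | H.Adj v w ∧ π v + 2 ≤ π w}.ncard + {w | H.Adj w v ∧ π w + 2 ≤ π v}.ncard +
      nextCount H π v ≤ (H.neighborSet v).ncard := by
  have hd1 : Disjoint {w | H.Adj v w ∧ π v + 2 ≤ π w} {w | H.Adj w v ∧ π w + 2 ≤ π v} := by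
    rw [Set.disjoint_left]
    rintro w ⟨_, h1⟩ ⟨_, h2⟩
    omega
  have hd2 : Disjoint ({w | H.Adj v w ∧ π v + 2 ≤ π w} ∪ {w | H.Adj w v ∧ π w + 2 ≤ π v})
      {w | H.Adj v w ∧ (π w = π v + 1 ∨ π v = π w + 1)} := by
    rw [Set.disjoint_left]
    rintro w hw ⟨_, h2⟩
    rcases hw with ⟨_, h1⟩ | ⟨_, h1⟩ <;> omega
  unfold nextCount
  rw [← Set.ncard_union_eq hd1 (Set.toFinite _) (Set.toFinite _),
    ← Set.ncard_union_eq hd2 (Set.toFinite _) (Set.toFinite _)]
  apply Set.ncard_le_ncard _ (Set.toFinite _)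
  rintro w ((⟨h1, _⟩ | ⟨h1, _⟩) | ⟨h1, _⟩)
  · exact h1
  · exact h1.symm
  · exact h1

private theorem bu_count {W : Type} [Fintype W] (H : SimpleGraph W) (π : W → ℕ) :
    2 * (farPairs H π).ncard + ∑ v, nextCount H π v ≤ ∑ v, (H.neighborSet v).ncard := by
  have h1 : (farPairs H π).ncard = ∑ v, {w | H.Adj v w ∧ π v + 2 ≤ π w}.ncard :=
    bu_card_pairs fun v w => H.Adj v w ∧ π v + 2 ≤ π w
  have h2 : (farPairs H π).ncard = ∑ v, {w | H.Adj w v ∧ π w + 2 ≤ π v}.ncard :=
    bu_card_pairs' fun v w => H.Adj v w ∧ π v + 2 ≤ π w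
  have h3 : 2 * (farPairs H π).ncard = ∑ v, {w | H.Adj v w ∧ π v + 2 ≤ π w}.ncard +
      ∑ v, {w | H.Adj w v ∧ π w + 2 ≤ π v}.ncard := by
    rw [← h1, ← h2, two_mul]
  rw [h3, ← Finset.sum_add_distrib, ← Finset.sum_add_distrib]
  exact Finset.sum_le_sum fun v _ => bu_degree H π v

/-- The order of the vertices of the cone. -/
private def bu_order {W : Type} (π : W → ℕ) : Option W → ℕ
  | none => 0
  | some w => π w + 1

private theorem bu_order_injective {W : Type} (π : W → ℕ) (hπ : Function.Injective π) :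
    Function.Injective (bu_order π) := by
  intro a b hab
  cases a with
  | none =>
    cases b with
    | none => rfl
    | some b =>
      simp only [bu_order] at hab
      omega
  | some a =>
    cases b with
    | none =>
      simp only [bu_order] at hab
      omega
    | some b =>
      simp only [bu_order] at hab
      rw [hπ (by omega : π a = π b)]

private theorem bu_later_subset {W : Type} (H : SimpleGraph W) (π : W → ℕ) :
    laterEdges (cone H) (bu_order π) ⊆
      (fun p : W × W => s(some p.1, some p.2)) '' farPairs H π := by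
  rintro f ⟨a, b, c, d, hab, hcd, h1, h2, h3, rfl⟩
  cases c with
  | none =>
    simp only [bu_order] at h1
    omega
  | some c =>
    cases d with
    | none =>
      simp only [bu_order] at h3
      omega
    | some d =>
      refine ⟨(c, d), ⟨hcd, ?_⟩, rfl⟩
      simp only [bu_order] at h2 h3 ⊢
      omega

/-- The upper bound for cones, with the statement on straight-line layouts as a hypothesis. -/
theorem bundling_of_goodOrder_of
    (hU : ∀ (V : Type) [Fintype V] (G : SimpleGraph V) (π : V → ℕ), Function.Injective π →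
      ∃ k ≤ (laterEdges G π).ncard, HasBundling G k)
    {W : Type} [Fintype W] (H : SimpleGraph W) (π : W → ℕ) (hπ : Function.Injective π)
    (h : GoodOrder H π) :
    ∃ k, HasBundling (cone H) k ∧
      2 * k + ∑ v, min 2 (H.neighborSet v).ncard ≤ ∑ v, (H.neighborSet v).ncard := by
  obtain ⟨k, hk, hB⟩ := hU (Option W) (cone H) (bu_order π) (bu_order_injective π hπ)
  refine ⟨k, hB, ?_⟩
  have h1 : (laterEdges (cone H) (bu_order π)).ncard ≤ (farPairs H π).ncard :=
    le_trans (Set.ncard_le_ncard (bu_later_subset H π) (Set.toFinite _))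
      (Set.ncard_image_le (Set.toFinite _))
  have h2 := bu_count H π
  have h3 : ∑ v, min 2 (H.neighborSet v).ncard ≤ ∑ v, nextCount H π v :=
    Finset.sum_le_sum fun v _ => h v
  omega

end Pool.Agent.H77.BC
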