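import Mathlib

/-!
# Module C: the lower bound, linear algebra

`E` is the set of the edges of `H`, as pairs of positions in a linear order; only the edges that
do not join consecutive positions matter.
-/

set_option autoImplicit false

namespace Pool.Agent.H77.BC

open Finset

/-- The edges joining non-consecutive positions. -/
def ncE (E : Finset (ℕ × ℕ)) : Finset (ℕ × ℕ) := E.filter fun e => e.1 + 2 ≤ e.2

/-- The edges over position `v`. -/
def alive (E : Finset (ℕ × ℕ)) (v : ℕ) : Finset (ℕ × ℕ) := E.filter fun e => e.1 < v ∧ v < e.2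

/-- All edges to the right except the longest one. -/
def extR (E : Finset (ℕ × ℕ)) : Finset (ℕ × ℕ) :=
  (ncE E).filter fun e => ∃ e' ∈ ncE E, e'.1 = e.1 ∧ e.2 < e'.2

/-- All edges to the left except the longest one. -/
def extL (E : Finset (ℕ × ℕ)) : Finset (ℕ × ℕ) :=
  (ncE E).filter fun e => ∃ e' ∈ ncE E, e'.2 = e.2 ∧ e'.1 < e.1

variable {E : Finset (ℕ × ℕ)}

theorem mem_ncE {e : ℕ × ℕ} : e ∈ ncE E ↔ e ∈ E ∧ e.1 + 2 ≤ e.2 := by simp [ncE]

theorem mem_alive {e : ℕ × ℕ} {v : ℕ} : e ∈ alive E v ↔ e ∈ E ∧ e.1 < v ∧ v < e.2 := by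
  simp [alive]

theorem mem_extR {e : ℕ × ℕ} :
    e ∈ extR E ↔ e ∈ ncE E ∧ ∃ e' ∈ ncE E, e'.1 = e.1 ∧ e.2 < e'.2 := by
  simp [extR]

theorem mem_extL {e : ℕ × ℕ} :
    e ∈ extL E ↔ e ∈ ncE E ∧ ∃ e' ∈ ncE E, e'.2 = e.2 ∧ e'.1 < e.1 := by
  simp [extL]

/-- The conditions on the vector `X`. -/
structure Flow (E : Finset (ℕ × ℕ)) (X : ℕ × ℕ → ℝ) : Prop where
  supp : ∀ e, e ∉ ncE E → X e = 0
  row : ∀ v, ∑ e ∈ alive E v, X e = 0

/-- A flow that vanishes on `extR E` is zero. -/
theorem Flow.eq_zero_of_extR {X : ℕ × ℕ → ℝ} (h : Flow E X) (hX : ∀ e ∈ extR E, X e = 0) :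
    ∀ e, X e = 0 := by
  have key : ∀ u : ℕ, ∀ e, e.1 = u → X e = 0 := by
    intro u
    induction u using Nat.strong_induction_on with
    | _ u ih =>
      intro e he
      by_cases hn : e ∈ ncE E
      · by_cases hr : e ∈ extR E
        · exact hX e hr
        · have hrow := h.row (u + 1)
          have hmem : e ∈ alive E (u + 1) := by
            rw [mem_ncE] at hn
            rw [mem_alive]
            exact ⟨hn.1, by omega, by omega⟩
          rw [Finset.sum_eq_single_of_mem e hmem] at hrow
          · exact hrow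
          · intro f hf hfe
            rw [mem_alive] at hf
            rcases Nat.lt_or_ge f.1 u with hlt | hge
            · exact ih f.1 hlt f rfl
            · have hf1 : f.1 = u := by omega
              have hfn : f ∈ ncE E := mem_ncE.2 ⟨hf.1, by omega⟩
              refine hX f (mem_extR.2 ⟨hfn, e, hn, by omega, ?_⟩)
              have hne : f.2 ≠ e.2 := fun h2 => hfe (Prod.ext (by omega) h2)
              rcases lt_or_gt_of_ne hne with h1 | h1
              · exact h1
              · exact absurd (mem_extR.2 ⟨hn, f, hfn, by omega, h1⟩) hr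
      · exact h.supp e hn
  intro e
  exact key e.1 e rfl

/-- A flow that vanishes on `extL E` is zero. -/
theorem Flow.eq_zero_of_extL {n : ℕ} (hE : ∀ e ∈ E, e.2 < n) {X : ℕ × ℕ → ℝ} (h : Flow E X)
    (hX : ∀ e ∈ extL E, X e = 0) : ∀ e, X e = 0 := by
  have key : ∀ u : ℕ, ∀ e, n - e.2 = u → X e = 0 := by
    intro u
    induction u using Nat.strong_induction_on with
    | _ u ih =>
      intro e he
      by_cases hn : e ∈ ncE E
      · by_cases hr : e ∈ extL E
        · exact hX e hr
        · have hn' := mem_ncE.1 hn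
          have hen := hE e hn'.1
          have hrow := h.row (e.2 - 1)
          have hmem : e ∈ alive E (e.2 - 1) := by
            rw [mem_alive]
            exact ⟨hn'.1, by omega, by omega⟩
          rw [Finset.sum_eq_single_of_mem e hmem] at hrow
          · exact hrow
          · intro f hf hfe
            rw [mem_alive] at hf
            have hfn2 := hE f hf.1
            rcases Nat.lt_or_ge e.2 f.2 with hlt | hge
            · exact ih (n - f.2) (by omega) f rfl
            · have hf2 : f.2 = e.2 := by omega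
              have hfn : f ∈ ncE E := mem_ncE.2 ⟨hf.1, by omega⟩
              refine hX f (mem_extL.2 ⟨hfn, e, hn, by omega, ?_⟩)
              have hne : f.1 ≠ e.1 := fun h2 => hfe (Prod.ext h2 (by omega))
              rcases lt_or_gt_of_ne hne with h1 | h1
              · exact absurd (mem_extL.2 ⟨hn, f, hfn, by omega, h1⟩) hr
              · exact h1
      · exact h.supp e hn
  intro e
  exact key _ e rfl

/-- The crossing form. -/
noncomputable def crossForm (E : Finset (ℕ × ℕ)) (X : ℕ × ℕ → ℝ) : ℝ :=
  ∑ e ∈ E, ∑ f ∈ E, if e.1 < f.1 ∧ f.1 < e.2 ∧ e.2 < f.2 then X e * X f else 0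

/-- The nesting form. -/
noncomputable def nestForm (E : Finset (ℕ × ℕ)) (X : ℕ × ℕ → ℝ) : ℝ :=
  ∑ e ∈ E, ∑ f ∈ E, if e.1 < f.1 ∧ f.1 < e.2 ∧ f.2 ≤ e.2 then X e * X f else 0

theorem cross_add_nest {X : ℕ × ℕ → ℝ} (h : Flow E X) : crossForm E X + nestForm E X = 0 := by
  unfold crossForm nestForm
  rw [← Finset.sum_add_distrib]
  have h1 : ∀ e ∈ E, (∑ f ∈ E, if e.1 < f.1 ∧ f.1 < e.2 ∧ e.2 < f.2 then X e * X f else 0) +
      (∑ f ∈ E, if e.1 < f.1 ∧ f.1 < e.2 ∧ f.2 ≤ e.2 then X e * X f else 0) =
      ∑ f ∈ E, if e.1 < f.1 ∧ f.1 < e.2 then X e * X f else 0 := by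
    intro e _
    rw [← Finset.sum_add_distrib]
    refine Finset.sum_congr rfl fun f _ => ?_
    rcases lt_or_ge e.2 f.2 with h2 | h2
    · have h3 : ¬ f.2 ≤ e.2 := by omega
      simp [h2, h3]
    · have h3 : ¬ e.2 < f.2 := by omega
      simp [h2, h3]
  rw [Finset.sum_congr rfl h1, Finset.sum_comm]
  refine Finset.sum_eq_zero fun f _ => ?_
  have h2 : (∑ e ∈ E, if e.1 < f.1 ∧ f.1 < e.2 then X e * X f else 0) =
      (∑ e ∈ alive E f.1, X e) * X f := by
    unfold alive
    rw [Finset.sum_filter, Finset.sum_mul]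
    refine Finset.sum_congr rfl fun e _ => ?_
    split_ifs <;> simp
  rw [h2, h.row, zero_mul]

/-- Main positivity statement: a flow that is `1` on a rightmost extra edge and `0` on the other
extra edges has negative nesting form. -/
theorem nestForm_neg {X : ℕ × ℕ → ℝ} (h : Flow E X) {e0 : ℕ × ℕ} (he0 : e0 ∈ extR E)
    (hmax : ∀ e ∈ extR E, e.1 ≤ e0.1) (h0 : X e0 = 1) (hother : ∀ e ∈ extR E, e ≠ e0 → X e = 0) :
    nestForm E X < 0 := by
  classical
  -- the edges starting before `e0` have value zero
  have hbefore : ∀ u : ℕ, ∀ e, e.1 = u → u < e0.1 → X e = 0 := by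
    intro u
    induction u using Nat.strong_induction_on with
    | _ u ih =>
      intro e he hu
      by_cases hn : e ∈ ncE E
      · by_cases hr : e ∈ extR E
        · exact hother e hr (fun h2 => by rw [h2] at he; omega)
        · have hrow := h.row (u + 1)
          have hmem : e ∈ alive E (u + 1) := by
            rw [mem_ncE] at hn
            rw [mem_alive]
            exact ⟨hn.1, by omega, by omega⟩
          rw [Finset.sum_eq_single_of_mem e hmem] at hrow
          · exact hrow
          · intro f hf hfe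
            rw [mem_alive] at hf
            rcases Nat.lt_or_ge f.1 u with hlt | hge
            · exact ih f.1 hlt f rfl (by omega)
            · have hf1 : f.1 = u := by omega
              have hfn : f ∈ ncE E := mem_ncE.2 ⟨hf.1, by omega⟩
              refine hother f (mem_extR.2 ⟨hfn, e, hn, by omega, ?_⟩)
                (fun h2 => by rw [h2] at hf1; omega)
              have hne : f.2 ≠ e.2 := fun h2 => hfe (Prod.ext (by omega) h2)
              rcases lt_or_gt_of_ne hne with h1 | h1
              · exact h1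
              · exact absurd (mem_extR.2 ⟨hn, f, hfn, by omega, h1⟩) hr
      · exact h.supp e hn
  -- integrality
  have hint : ∀ u : ℕ, ∀ e, e.1 = u → ∃ z : ℤ, X e = z := by
    intro u
    induction u using Nat.strong_induction_on with
    | _ u ih =>
      intro e he
      by_cases hn : e ∈ ncE E
      · by_cases hr : e ∈ extR E
        · by_cases hee : e = e0
          · exact ⟨1, by rw [hee, h0]; simp⟩
          · exact ⟨0, by rw [hother e hr hee]; simp⟩
        · have hrow := h.row (u + 1)
          have hmem : e ∈ alive E (u + 1) := by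
            rw [mem_ncE] at hn
            rw [mem_alive]
            exact ⟨hn.1, by omega, by omega⟩
          rw [← Finset.add_sum_erase _ _ hmem] at hrow
          have h2 : ∀ f ∈ (alive E (u + 1)).erase e, ∃ z : ℤ, X f = z := by
            intro f hf
            rw [Finset.mem_erase, mem_alive] at hf
            rcases Nat.lt_or_ge f.1 u with hlt | hge
            · exact ih f.1 hlt f rfl
            · have hf1 : f.1 = u := by omega
              have hfn : f ∈ ncE E := mem_ncE.2 ⟨hf.2.1, by omega⟩
              have hfx : f ∈ extR E := by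
                refine mem_extR.2 ⟨hfn, e, hn, by omega, ?_⟩
                have hne : f.2 ≠ e.2 := fun h2 => hf.1 (Prod.ext (by omega) h2)
                rcases lt_or_gt_of_ne hne with h1 | h1
                · exact h1
                · exact absurd (mem_extR.2 ⟨hn, f, hfn, by omega, h1⟩) hr
              by_cases hee : f = e0
              · exact ⟨1, by rw [hee, h0]; simp⟩
              · exact ⟨0, by rw [hother f hfx hee]; simp⟩
          choose! z hz using h2
          refine ⟨-∑ f ∈ (alive E (u + 1)).erase e, z f, ?_⟩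
          push_cast
          rw [← Finset.sum_congr rfl hz]
          linarith
      · exact ⟨0, by rw [h.supp e hn]; simp⟩
  -- the total absolute value over a position is at most two
  have hQ : ∀ v, ∑ e ∈ alive E v, |X e| ≤ 2 := by
    intro v
    induction v with
    | zero =>
      rw [Finset.sum_eq_zero]
      · norm_num
      · intro e he
        rw [mem_alive] at he
        omega
    | succ v ih =>
      -- surviving and ending edges
      set surv := E.filter fun e => e.1 < v ∧ v + 1 < e.2 with hsurv
      set dying := E.filter fun e => e.1 < v ∧ e.2 = v + 1 with hdying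
      set new := E.filter fun e => e.1 = v ∧ v + 1 < e.2 with hnew
      have a1 : alive E v = surv ∪ dying := by
        ext e
        simp only [hsurv, hdying, mem_alive, Finset.mem_union, Finset.mem_filter]
        constructor
        · rintro ⟨h1, h2, h3⟩
          rcases Nat.lt_or_ge (v + 1) e.2 with h4 | h4
          · exact Or.inl ⟨h1, h2, h4⟩
          · exact Or.inr ⟨h1, h2, by omega⟩
        · rintro (⟨h1, h2, h3⟩ | ⟨h1, h2, h3⟩)
          · exact ⟨h1, h2, by omega⟩
          · exact ⟨h1, h2, by omega⟩
      have d1 : Disjoint surv dying := by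
        rw [Finset.disjoint_left]
        intro e he he'
        simp only [hsurv, hdying, Finset.mem_filter] at he he'
        omega
      have a2 : alive E (v + 1) = surv ∪ new := by
        ext e
        simp only [hsurv, hnew, mem_alive, Finset.mem_union, Finset.mem_filter]
        constructor
        · rintro ⟨h1, h2, h3⟩
          rcases Nat.lt_or_ge e.1 v with h4 | h4
          · exact Or.inl ⟨h1, h4, h3⟩
          · exact Or.inr ⟨h1, by omega, h3⟩
        · rintro (⟨h1, h2, h3⟩ | ⟨h1, h2, h3⟩)
          · exact ⟨h1, by omega, h3⟩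
          · exact ⟨h1, by omega, h3⟩
      have d2 : Disjoint surv new := by
        rw [Finset.disjoint_left]
        intro e he he'
        simp only [hsurv, hnew, Finset.mem_filter] at he he'
        omega
      have r1 := h.row v
      have r2 := h.row (v + 1)
      rw [a1, Finset.sum_union d1] at r1
      rw [a2, Finset.sum_union d2] at r2
      rw [a1, Finset.sum_union d1] at ih
      rw [a2, Finset.sum_union d2]
      rcases lt_trichotomy v e0.1 with hv | hv | hv
      · -- everything is zero
        have z1 : ∑ e ∈ surv, |X e| = 0 := Finset.sum_eq_zero fun e he => by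
          simp only [hsurv, Finset.mem_filter] at he
          rw [hbefore e.1 e rfl (by omega), abs_zero]
        have z2 : ∑ e ∈ new, |X e| = 0 := Finset.sum_eq_zero fun e he => by
          simp only [hnew, Finset.mem_filter] at he
          rw [hbefore e.1 e rfl (by omega), abs_zero]
        rw [z1, z2]
        norm_num
      · -- the branching vertex
        have z1 : ∀ e ∈ surv, X e = 0 := fun e he => by
          simp only [hsurv, Finset.mem_filter] at he
          exact hbefore e.1 e rfl (by omega)
        have s1 : ∑ e ∈ surv, |X e| = 0 := Finset.sum_eq_zero fun e he => by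
          rw [z1 e he, abs_zero]
        rw [Finset.sum_eq_zero z1, zero_add] at r2
        rw [s1, zero_add]
        have hmem : e0 ∈ new := by
          have := mem_ncE.1 (mem_extR.1 he0).1
          simp only [hnew, Finset.mem_filter]
          exact ⟨this.1, by omega, by omega⟩
        -- the edges in `new` except one longest edge are in `extR`
        obtain ⟨m, hm, hmm⟩ := Finset.exists_max_image new (fun e => e.2) ⟨e0, hmem⟩
        have hext : ∀ e ∈ new, e ≠ m → e ∈ extR E := by
          intro e he hem
          have h1 := hmm e he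
          simp only [hnew, Finset.mem_filter] at he hm
          refine mem_extR.2 ⟨mem_ncE.2 ⟨he.1, by omega⟩, m, mem_ncE.2 ⟨hm.1, by omega⟩, by omega, ?_⟩
          have hne : e.2 ≠ m.2 := fun h2 => hem (Prod.ext (by omega) h2)
          omega
        have hm0 : m ≠ e0 := by
          rintro rfl
          obtain ⟨e', he', h1, h2⟩ := (mem_extR.1 he0).2
          have h3 := mem_ncE.1 he'
          have h4 : e' ∈ new := by
            simp only [hnew, Finset.mem_filter]
            exact ⟨h3.1, by omega, by omega⟩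
          have := hmm e' h4
          omega
        have hz : ∀ e ∈ (new.erase m).erase e0, X e = 0 := by
          intro e he
          rw [Finset.mem_erase, Finset.mem_erase] at he
          exact hother e (hext e he.2.2 he.2.1) he.1
        have hmem' : e0 ∈ new.erase m := Finset.mem_erase.2 ⟨hm0.symm, hmem⟩
        rw [← Finset.add_sum_erase _ _ hm, ← Finset.add_sum_erase _ _ hmem',
          Finset.sum_eq_zero hz, h0] at r2
        rw [← Finset.add_sum_erase _ _ hm, ← Finset.add_sum_erase _ _ hmem',
          Finset.sum_eq_zero (fun e he => by rw [hz e he, abs_zero]), h0]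
        have hXm : X m = -1 := by linarith
        rw [hXm]
        norm_num
      · -- at most one new edge
        have hcard : new.card ≤ 1 := by
          rw [Finset.card_le_one]
          intro e he f hf
          by_contra hef
          simp only [hnew, Finset.mem_filter] at he hf
          have hne : e.2 ≠ f.2 := fun h2 => hef (Prod.ext (by omega) h2)
          have he' : e ∈ ncE E := mem_ncE.2 ⟨he.1, by omega⟩
          have hf' : f ∈ ncE E := mem_ncE.2 ⟨hf.1, by omega⟩
          rcases lt_or_gt_of_ne hne with h1 | h1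
          · have := hmax e (mem_extR.2 ⟨he', f, hf', by omega, h1⟩)
            omega
          · have := hmax f (mem_extR.2 ⟨hf', e, he', by omega, h1⟩)
            omega
        have habs : ∑ e ∈ new, |X e| = |∑ e ∈ new, X e| := by
          rcases Nat.le_one_iff_eq_zero_or_eq_one.1 hcard with h1 | h1
          · rw [Finset.card_eq_zero.1 h1]; simp
          · obtain ⟨a, ha⟩ := Finset.card_eq_one.1 h1
            rw [ha]; simp
        have hle : |∑ e ∈ new, X e| ≤ ∑ e ∈ dying, |X e| := by
          have : ∑ e ∈ new, X e = ∑ e ∈ dying, X e := by linarith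
          rw [this]
          exact Finset.abs_sum_le_sum_abs _ _
        rw [habs]
        linarith
  -- two edges over the same position have product at most zero
  have hprod : ∀ v, ∀ e ∈ alive E v, ∀ f ∈ alive E v, e ≠ f → X e * X f ≤ 0 := by
    intro v e he f hf hef
    by_contra hpos
    push Not at hpos
    obtain ⟨z, hz⟩ := hint e.1 e rfl
    obtain ⟨w, hw⟩ := hint f.1 f rfl
    have hq := hQ v
    have hr := h.row v
    have hf' : f ∈ (alive E v).erase e := Finset.mem_erase.2 ⟨hef.symm, hf⟩
    rw [← Finset.add_sum_erase _ _ he, ← Finset.add_sum_erase _ _ hf'] at hq hr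
    have hrest := Finset.abs_sum_le_sum_abs X (((alive E v).erase e).erase f)
    have hz0 : z ≠ 0 := by rintro rfl; simp [hz] at hpos
    have hw0 : w ≠ 0 := by rintro rfl; simp [hw] at hpos
    have h1 : (1 : ℝ) ≤ |X e| := by
      rw [hz]
      exact_mod_cast Int.one_le_abs hz0
    have h2 : (1 : ℝ) ≤ |X f| := by
      rw [hw]
      exact_mod_cast Int.one_le_abs hw0
    have h3 : |∑ g ∈ ((alive E v).erase e).erase f, X g| ≤ 0 := by linarith
    have h4 : ∑ g ∈ ((alive E v).erase e).erase f, X g = 0 := abs_nonpos_iff.1 h3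
    rw [h4] at hr
    have h5 : X e = -X f := by linarith
    rw [h5] at hpos
    nlinarith [sq_nonneg (X f)]
  -- all terms of the nesting form are at most zero
  have hterm : ∀ e ∈ E, ∀ f ∈ E,
      (if e.1 < f.1 ∧ f.1 < e.2 ∧ f.2 ≤ e.2 then X e * X f else 0) ≤ 0 := by
    intro e he f hf
    split_ifs with hc
    · by_cases hn : f ∈ ncE E
      · have hn' := (mem_ncE.1 hn).2
        refine hprod (f.1 + 1) e (mem_alive.2 ⟨he, by omega, by omega⟩) f
          (mem_alive.2 ⟨hf, by omega, by omega⟩) ?_
        rintro rfl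
        omega
      · rw [h.supp f hn, mul_zero]
    · exact le_refl _
  -- a pair with negative product
  have hex : ∃ e ∈ E, ∃ f ∈ E, (e.1 < f.1 ∧ f.1 < e.2 ∧ f.2 ≤ e.2) ∧ X e * X f < 0 := by
    have hne : ((ncE E).filter fun e => X e ≠ 0).Nonempty :=
      ⟨e0, Finset.mem_filter.2 ⟨(mem_extR.1 he0).1, by rw [h0]; norm_num⟩⟩
    obtain ⟨e, he, hem⟩ := Finset.exists_max_image _ (fun e : ℕ × ℕ => e.2) hne
    rw [Finset.mem_filter] at he
    have hn := mem_ncE.1 he.1
    have hal : e ∈ alive E (e.2 - 1) := mem_alive.2 ⟨hn.1, by omega, by omega⟩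
    obtain ⟨f, hf, hfe, hf0⟩ : ∃ f ∈ alive E (e.2 - 1), f ≠ e ∧ X f ≠ 0 := by
      by_contra hcon
      push Not at hcon
      have hr := h.row (e.2 - 1)
      rw [Finset.sum_eq_single_of_mem e hal fun f hf hfe => hcon f hf hfe] at hr
      exact he.2 hr
    have hf' := mem_alive.1 hf
    have hfn : f ∈ ncE E := mem_ncE.2 ⟨hf'.1, by omega⟩
    have h2 := hem f (Finset.mem_filter.2 ⟨hfn, hf0⟩)
    have hf2 : f.2 = e.2 := by omega
    have hneg : X e * X f < 0 :=
      lt_of_le_of_ne (hprod _ e hal f hf hfe.symm) (mul_ne_zero he.2 hf0)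
    have hne1 : e.1 ≠ f.1 := fun h3 => hfe (Prod.ext h3.symm hf2)
    rcases lt_or_gt_of_ne hne1 with h3 | h3
    · exact ⟨e, hn.1, f, hf'.1, ⟨h3, by omega, by omega⟩, hneg⟩
    · exact ⟨f, hf'.1, e, hn.1, ⟨h3, by omega, by omega⟩, by rw [mul_comm]; exact hneg⟩
  obtain ⟨e, he, f, hf, hc, hneg⟩ := hex
  unfold nestForm
  refine Finset.sum_neg' (fun e he => Finset.sum_nonpos fun f hf => hterm e he f hf)
    ⟨e, he, ?_⟩
  refine Finset.sum_neg' (fun f hf => hterm e he f hf) ⟨f, hf, ?_⟩
  rw [if_pos hc]
  exact hneg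

/-! ### Counting -/

/-- The degree of a position. -/
def degE (E : Finset (ℕ × ℕ)) (v : ℕ) : ℕ :=
  (E.filter fun e => e.1 = v).card + (E.filter fun e => e.2 = v).card

/-- The number of consecutive neighbours of a position. -/
def consE (E : Finset (ℕ × ℕ)) (v : ℕ) : ℕ :=
  (if (v, v + 1) ∈ E then 1 else 0) + (if 1 ≤ v ∧ (v - 1, v) ∈ E then 1 else 0)

theorem card_fst (hE : ∀ e ∈ E, e.1 < e.2) (v : ℕ) : (E.filter fun e => e.1 = v).card =
    ((ncE E).filter fun e => e.1 = v).card + (if (v, v + 1) ∈ E then 1 else 0) := by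
  have h : E.filter (fun e => e.1 = v) = (ncE E).filter (fun e => e.1 = v) ∪
      (if (v, v + 1) ∈ E then {(v, v + 1)} else ∅) := by
    ext e
    simp only [mem_filter, mem_union, mem_ncE]
    constructor
    · rintro ⟨h1, h2⟩
      have h3 := hE e h1
      rcases Nat.lt_or_ge (e.1 + 1) e.2 with h4 | h4
      · exact Or.inl ⟨⟨h1, by omega⟩, h2⟩
      · right
        have h5 : e = (v, v + 1) := Prod.ext h2 (by dsimp only; omega)
        rw [h5] at h1
        rw [if_pos h1, mem_singleton]
        exact h5
    · rintro (⟨⟨h1, -⟩, h2⟩ | h1)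
      · exact ⟨h1, h2⟩
      · split_ifs at h1 with h2
        · rw [mem_singleton] at h1
          rw [h1]
          exact ⟨h2, rfl⟩
        · simp at h1
  rw [h, card_union_of_disjoint]
  · congr 1
    split_ifs <;> simp
  · rw [disjoint_left]
    intro e he he'
    split_ifs at he' with h2
    · rw [mem_singleton] at he'
      rw [mem_filter, mem_ncE, he'] at he
      dsimp only at he
      omega
    · simp at he'

theorem card_snd (hE : ∀ e ∈ E, e.1 < e.2) (v : ℕ) : (E.filter fun e => e.2 = v).card =
    ((ncE E).filter fun e => e.2 = v).card + (if 1 ≤ v ∧ (v - 1, v) ∈ E then 1 else 0) := by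
  have h : E.filter (fun e => e.2 = v) = (ncE E).filter (fun e => e.2 = v) ∪
      (if 1 ≤ v ∧ (v - 1, v) ∈ E then {(v - 1, v)} else ∅) := by
    ext e
    simp only [mem_filter, mem_union, mem_ncE]
    constructor
    · rintro ⟨h1, h2⟩
      have h3 := hE e h1
      rcases Nat.lt_or_ge (e.1 + 1) e.2 with h4 | h4
      · exact Or.inl ⟨⟨h1, by omega⟩, h2⟩
      · right
        have h5 : e = (v - 1, v) := Prod.ext (by dsimp only; omega) h2
        rw [h5] at h1
        rw [if_pos ⟨by omega, h1⟩, mem_singleton]
        exact h5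
    · rintro (⟨⟨h1, -⟩, h2⟩ | h1)
      · exact ⟨h1, h2⟩
      · split_ifs at h1 with h2
        · rw [mem_singleton] at h1
          rw [h1]
          exact ⟨h2.2, rfl⟩
        · simp at h1
  rw [h, card_union_of_disjoint]
  · congr 1
    split_ifs <;> simp
  · rw [disjoint_left]
    intro e he he'
    split_ifs at he' with h2
    · rw [mem_singleton] at he'
      rw [mem_filter, mem_ncE, he'] at he
      dsimp only at he
      omega
    · simp at he'

theorem card_extR_le (n : ℕ) (hE : ∀ e ∈ E, e.1 < e.2 ∧ e.2 < n) :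
    (extR E).card ≤ ∑ v ∈ range n, (((ncE E).filter fun e => e.1 = v).card - 1) := by
  rw [card_eq_sum_card_fiberwise (f := fun e : ℕ × ℕ => e.1) (t := range n)]
  · refine sum_le_sum fun v _ => ?_
    rcases (filter (fun e => e.1 = v) (ncE E)).eq_empty_or_nonempty with h | h
    · rw [h]
      simp only [card_empty, Nat.zero_sub, nonpos_iff_eq_zero, card_eq_zero]
      rw [eq_empty_iff_forall_notMem] at h ⊢
      intro e he
      rw [mem_filter] at he
      exact h e (mem_filter.2 ⟨(mem_extR.1 he.1).1, he.2⟩)
    · obtain ⟨m, hm, hmm⟩ := exists_max_image _ (fun e : ℕ × ℕ => e.2) h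
      rw [← card_erase_of_mem hm]
      refine card_le_card fun e he => ?_
      rw [mem_filter] at he
      have h1 := mem_extR.1 he.1
      refine mem_erase.2 ⟨?_, mem_filter.2 ⟨h1.1, he.2⟩⟩
      rintro rfl
      obtain ⟨e', h2, h3, h4⟩ := h1.2
      have := hmm e' (mem_filter.2 ⟨h2, h3.trans he.2⟩)
      omega
  · intro e he
    have h1 := hE e (mem_ncE.1 (mem_extR.1 he).1).1
    rw [coe_range, Set.mem_Iio]
    change e.1 < n
    omega

theorem card_extL_le (n : ℕ) (hE : ∀ e ∈ E, e.1 < e.2 ∧ e.2 < n) :
    (extL E).card ≤ ∑ v ∈ range n, (((ncE E).filter fun e => e.2 = v).card - 1) := by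
  rw [card_eq_sum_card_fiberwise (f := fun e : ℕ × ℕ => e.2) (t := range n)]
  · refine sum_le_sum fun v _ => ?_
    rcases (filter (fun e => e.2 = v) (ncE E)).eq_empty_or_nonempty with h | h
    · rw [h]
      simp only [card_empty, Nat.zero_sub, nonpos_iff_eq_zero, card_eq_zero]
      rw [eq_empty_iff_forall_notMem] at h ⊢
      intro e he
      rw [mem_filter] at he
      exact h e (mem_filter.2 ⟨(mem_extL.1 he.1).1, he.2⟩)
    · obtain ⟨m, hm, hmm⟩ := exists_min_image _ (fun e : ℕ × ℕ => e.1) h
      rw [← card_erase_of_mem hm]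
      refine card_le_card fun e he => ?_
      rw [mem_filter] at he
      have h1 := mem_extL.1 he.1
      refine mem_erase.2 ⟨?_, mem_filter.2 ⟨h1.1, he.2⟩⟩
      rintro rfl
      obtain ⟨e', h2, h3, h4⟩ := h1.2
      have := hmm e' (mem_filter.2 ⟨h2, h3.trans he.2⟩)
      omega
  · intro e he
    have h1 := hE e (mem_ncE.1 (mem_extL.1 he).1).1
    rw [coe_range, Set.mem_Iio]
    change e.2 < n
    omega

theorem card_ncE_fst (n : ℕ) (hE : ∀ e ∈ E, e.1 < e.2 ∧ e.2 < n) :
    (ncE E).card = ∑ v ∈ range n, ((ncE E).filter fun e => e.1 = v).card := by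
  rw [card_eq_sum_card_fiberwise (f := fun e : ℕ × ℕ => e.1) (t := range n)]
  intro e he
  have h1 := hE e (mem_ncE.1 he).1
  rw [coe_range, Set.mem_Iio]
  change e.1 < n
  omega

theorem card_ncE_snd (n : ℕ) (hE : ∀ e ∈ E, e.1 < e.2 ∧ e.2 < n) :
    (ncE E).card = ∑ v ∈ range n, ((ncE E).filter fun e => e.2 = v).card := by
  rw [card_eq_sum_card_fiberwise (f := fun e : ℕ × ℕ => e.2) (t := range n)]
  intro e he
  have h1 := hE e (mem_ncE.1 he).1
  rw [coe_range, Set.mem_Iio]
  change e.2 < n
  omega

/-- Extension by zero. -/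
noncomputable def extZ (E : Finset (ℕ × ℕ)) : (↥(ncE E) → ℝ) →ₗ[ℝ] (ℕ × ℕ → ℝ) :=
  LinearMap.pi fun e => if h : e ∈ ncE E then LinearMap.proj (⟨e, h⟩ : ↥(ncE E)) else 0

theorem extZ_mem (x : ↥(ncE E) → ℝ) {e : ℕ × ℕ} (h : e ∈ ncE E) : extZ E x e = x ⟨e, h⟩ := by
  simp [extZ, h]

theorem extZ_notMem (x : ↥(ncE E) → ℝ) {e : ℕ × ℕ} (h : e ∉ ncE E) : extZ E x e = 0 := by
  simp [extZ, h]

/-- Restriction to a subset of the edges. -/
noncomputable def resZ (E F : Finset (ℕ × ℕ)) : (↥(ncE E) → ℝ) →ₗ[ℝ] (↥F → ℝ) :=
  LinearMap.pi fun e => (LinearMap.proj (e : ℕ × ℕ)).comp (extZ E)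

/-- **The lower bound.** If the common kernel of the functionals `ℓ i` consists of flows with
vanishing crossing form, and there are few functionals, then every position is next to two of its
neighbours (to one if it has degree one). -/
theorem lb_core {ι : Type} [Fintype ι] (n : ℕ) (hE : ∀ e ∈ E, e.1 < e.2 ∧ e.2 < n)
    (h1 : ∀ v < n, 1 ≤ degE E v) (h3 : ∀ v < n, degE E v ≤ 3)
    (ℓ : ι → ((ℕ × ℕ → ℝ) →ₗ[ℝ] ℝ))
    (hℓ : ∀ X : ℕ × ℕ → ℝ, (∀ e, e ∉ ncE E → X e = 0) → (∀ i, ℓ i X = 0) →
      (∀ v, ∑ e ∈ alive E v, X e = 0) ∧ crossForm E X = 0)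
    (hk : 2 * Fintype.card ι + ∑ v ∈ range n, min 2 (degE E v) ≤ ∑ v ∈ range n, degE E v) :
    ∀ v < n, min 2 (degE E v) ≤ consE E v := by
  classical
  set T : (↥(ncE E) → ℝ) →ₗ[ℝ] (ι → ℝ) := LinearMap.pi fun i => (ℓ i).comp (extZ E) with hT
  set S := LinearMap.ker T with hS
  have hflow : ∀ x ∈ S, Flow E (extZ E x) ∧ crossForm E (extZ E x) = 0 := by
    intro x hx
    have h2 : ∀ i, ℓ i (extZ E x) = 0 := by
      intro i
      have h4 : T x i = 0 := by rw [LinearMap.mem_ker.1 hx]; rfl
      exact h4
    obtain ⟨h4, h5⟩ := hℓ (extZ E x) (fun e he => extZ_notMem x he) h2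
    exact ⟨⟨fun e he => extZ_notMem x he, h4⟩, h5⟩
  -- dimension of `S`
  have hdim : (ncE E).card ≤ Module.finrank ℝ S + Fintype.card ι := by
    have h2 := LinearMap.finrank_range_add_finrank_ker T
    have h4 : Module.finrank ℝ (LinearMap.range T) ≤ Fintype.card ι := by
      have := Submodule.finrank_le (LinearMap.range T)
      rwa [Module.finrank_fintype_fun_eq_card] at this
    rw [Module.finrank_fintype_fun_eq_card, Fintype.card_coe] at h2
    rw [hS]
    omega
  have hinjR : Function.Injective ((resZ E (extR E)).domRestrict S) := by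
    rw [← LinearMap.ker_eq_bot, LinearMap.ker_eq_bot']
    intro x hx
    have h2 : ∀ e ∈ extR E, extZ E x e = 0 := fun e he => congrFun hx ⟨e, he⟩
    have h4 := (hflow x x.2).1.eq_zero_of_extR h2
    ext e
    have h5 := h4 e
    rw [extZ_mem _ e.2] at h5
    exact h5
  have hinjL : Function.Injective ((resZ E (extL E)).domRestrict S) := by
    rw [← LinearMap.ker_eq_bot, LinearMap.ker_eq_bot']
    intro x hx
    have h2 : ∀ e ∈ extL E, extZ E x e = 0 := fun e he => congrFun hx ⟨e, he⟩
    have h4 := (hflow x x.2).1.eq_zero_of_extL (fun e he => (hE e he).2) h2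
    ext e
    have h5 := h4 e
    rw [extZ_mem _ e.2] at h5
    exact h5
  have hR := LinearMap.finrank_le_finrank_of_injective hinjR
  have hL := LinearMap.finrank_le_finrank_of_injective hinjL
  rw [Module.finrank_fintype_fun_eq_card, Fintype.card_coe] at hR hL
  -- counting
  have hcR := card_extR_le n hE
  have hcL := card_extL_le n hE
  have hn1 := card_ncE_fst n hE
  have hn2 := card_ncE_snd n hE
  have hE' : ∀ e ∈ E, e.1 < e.2 := fun e he => (hE e he).1
  have hdeg : ∀ v, degE E v = ((ncE E).filter fun e => e.1 = v).card +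
      ((ncE E).filter fun e => e.2 = v).card + consE E v := by
    intro v
    unfold degE consE
    rw [card_fst hE', card_snd hE']
    ring
  have hcons : ∀ v, consE E v ≤ 2 := by
    intro v
    unfold consE
    split_ifs <;> omega
  have hle : ∀ v, consE E v ≤ min 2 (degE E v) := by
    intro v
    have h2 := hdeg v
    have h4 := hcons v
    omega
  have hsum : ∑ v ∈ range n, ((((ncE E).filter fun e => e.1 = v).card - 1) +
      (((ncE E).filter fun e => e.2 = v).card - 1)) + ∑ v ∈ range n, consE E v ≤
      ∑ v ∈ range n, min 2 (degE E v) := by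
    rw [← sum_add_distrib]
    refine sum_le_sum fun v hv => ?_
    have h2 := hdeg v
    have h4 := hcons v
    have h5 := h1 v (mem_range.1 hv)
    have h6 := h3 v (mem_range.1 hv)
    have h7 := hle v
    omega
  rw [sum_add_distrib] at hsum
  have hdsum : ∑ v ∈ range n, degE E v = (ncE E).card + (ncE E).card +
      ∑ v ∈ range n, consE E v := by
    rw [sum_congr rfl fun v _ => hdeg v, sum_add_distrib, sum_add_distrib, ← hn1, ← hn2]
  -- `extR` is empty
  have hempty : extR E = ∅ := by
    by_contra hne
    obtain ⟨e0, he0, hmax⟩ := exists_max_image (extR E) (fun e : ℕ × ℕ => e.1)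
      (nonempty_iff_ne_empty.2 hne)
    have hfin : Module.finrank ℝ S = Module.finrank ℝ (↥(extR E) → ℝ) := by
      rw [Module.finrank_fintype_fun_eq_card, Fintype.card_coe]
      omega
    have hsurj := (LinearMap.injective_iff_surjective_of_finrank_eq_finrank hfin).1 hinjR
    obtain ⟨x, hx⟩ := hsurj (Pi.single ⟨e0, he0⟩ 1)
    have hv : ∀ e (he : e ∈ extR E), extZ E x e = (Pi.single (⟨e0, he0⟩ : ↥(extR E)) (1 : ℝ) :
        ↥(extR E) → ℝ) ⟨e, he⟩ := by
      intro e he
      exact congrFun hx ⟨e, he⟩
    obtain ⟨hf1, hf2⟩ := hflow x x.2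
    have h2 := nestForm_neg hf1 he0 hmax (by rw [hv e0 he0]; simp) (by
      intro e he hee
      rw [hv e he, Pi.single_eq_of_ne]
      intro h4
      exact hee (congrArg Subtype.val h4))
    have h4 := cross_add_nest hf1
    linarith
  have hzero : (extR E).card = 0 := by rw [hempty]; rfl
  -- conclusion
  have hfinal : ∑ v ∈ range n, min 2 (degE E v) ≤ ∑ v ∈ range n, consE E v := by omega
  intro v hv
  by_contra hlt
  push Not at hlt
  have : ∑ v ∈ range n, consE E v < ∑ v ∈ range n, min 2 (degE E v) :=
    sum_lt_sum (fun i _ => hle i) ⟨v, mem_range.2 hv, hlt⟩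
  omega

end Pool.Agent.H77.BC
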