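import Mathlib

/-!
# Circular layouts, bundled crossings, the circular bundled crossing number

The circle is the unit circle of the complex plane.

A bundled crossing is described by a closed topological disk `φ '' rect p q` in which the drawing
looks like a grid of `p` vertical and `q` horizontal lines. The disk bounded by the frame arcs
`a 0`, `a (p - 1)`, `b 0`, `b (q - 1)` is the image of `[1, p] × [1, q]`; the margin around it
(which can always be added) gives the degenerate cases `p = 1` and `q = 1` their meaning: `p`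
consecutive crossings on one edge, or one crossing.
-/

set_option autoImplicit false

namespace Pool.Agent.H77.BC

open Set

/-- `K` is a Jordan arc joining `p` and `q`. -/
def IsArc (K : Set ℂ) (p q : ℂ) : Prop :=
  ∃ γ : ℝ → ℂ, ContinuousOn γ (Icc 0 1) ∧ InjOn γ (Icc 0 1) ∧ γ 0 = p ∧ γ 1 = q ∧
    γ '' Icc 0 1 = K

/-- The closed rectangle `[0, p + 1] × [0, q + 1]`. -/
def rect (p q : ℕ) : Set (ℝ × ℝ) := Icc 0 ((p : ℝ) + 1) ×ˢ Icc 0 ((q : ℝ) + 1)

variable {V : Type}

/-- The closed topological disk `φ '' rect p q` lies in the open unit disk and the part of the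
drawing in this disk is a grid: the images of the `p` vertical lines `x = 1, …, p` are sub-arcs of
the edges `a 0, …, a (p - 1)`, the images of the `q` horizontal lines `y = 1, …, q` are sub-arcs
of the edges `b 0, …, b (q - 1)`, and nothing else of the drawing is in the disk. -/
structure IsGrid (G : SimpleGraph V) (K : Sym2 V → Set ℂ) {p q : ℕ} (a : Fin p → Sym2 V)
    (b : Fin q → Sym2 V) (φ : ℝ × ℝ → ℂ) : Prop where
  cont : ContinuousOn φ (rect p q)
  inj : InjOn φ (rect p q)
  inside : ∀ z ∈ rect p q, ‖φ z‖ < 1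
  mem_a : ∀ i, a i ∈ G.edgeSet
  mem_b : ∀ j, b j ∈ G.edgeSet
  ne : ∀ i j, a i ≠ b j
  mem_iff : ∀ z ∈ rect p q, ∀ e ∈ G.edgeSet,
    φ z ∈ K e ↔ (∃ i : Fin p, a i = e ∧ z.1 = (i : ℝ) + 1) ∨
      (∃ j : Fin q, b j = e ∧ z.2 = (j : ℝ) + 1)

/-- A circular layout: the vertex `v` is at the point `x v` of the unit circle, the edge `e` is
drawn as the Jordan arc `K e` in the closed unit disk, which meets the circle only at its ends;
two edges meet in finitely many points, and every meeting point of two edges inside the disk is a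
proper crossing of exactly two edges. -/
structure IsLayout (G : SimpleGraph V) (x : V → ℂ) (K : Sym2 V → Set ℂ) : Prop where
  inj : Function.Injective x
  norm_eq : ∀ v, ‖x v‖ = 1
  arc : ∀ u v, G.Adj u v → IsArc (K s(u, v)) (x u) (x v)
  inside : ∀ u v, G.Adj u v → ∀ z ∈ K s(u, v), ‖z‖ < 1 ∨ z = x u ∨ z = x v
  finite : ∀ e ∈ G.edgeSet, ∀ f ∈ G.edgeSet, e ≠ f → (K e ∩ K f).Finite
  proper : ∀ e ∈ G.edgeSet, ∀ f ∈ G.edgeSet, e ≠ f → ∀ z ∈ K e ∩ K f, ‖z‖ < 1 →
    ∃ φ, IsGrid G K ![e] ![f] φ ∧ φ (1, 1) = z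

/-- A layout is simple if two different edges meet at most once (an edge never crosses itself,
being a Jordan arc). -/
def IsSimple (G : SimpleGraph V) (K : Sym2 V → Set ℂ) : Prop :=
  ∀ e ∈ G.edgeSet, ∀ f ∈ G.edgeSet, e ≠ f → (K e ∩ K f).Subsingleton

/-- The crossings of the drawing. -/
def crossings (G : SimpleGraph V) (K : Sym2 V → Set ℂ) : Set ℂ :=
  {z | ‖z‖ < 1 ∧ ∃ e ∈ G.edgeSet, ∃ f ∈ G.edgeSet, e ≠ f ∧ z ∈ K e ∧ z ∈ K f}

/-- Bundled crossings: the sets of the crossings in a grid. -/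
def IsBundledCrossing (G : SimpleGraph V) (K : Sym2 V → Set ℂ) (X : Set ℂ) : Prop :=
  ∃ (p q : ℕ) (a : Fin p → Sym2 V) (b : Fin q → Sym2 V) (φ : ℝ × ℝ → ℂ), 0 < p ∧ 0 < q ∧
    IsGrid G K a b φ ∧ X = {z | ∃ (i : Fin p) (j : Fin q), z = φ ((i : ℝ) + 1, (j : ℝ) + 1)}

/-- A bundling: a partition of the crossings into bundled crossings. -/
def IsBundling (G : SimpleGraph V) (K : Sym2 V → Set ℂ) (P : Finset (Set ℂ)) : Prop :=
  (∀ X ∈ P, IsBundledCrossing G K X) ∧ (P : Set (Set ℂ)).PairwiseDisjoint id ∧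
    ⋃₀ (P : Set (Set ℂ)) = crossings G K

/-- Some simple circular layout of `G` has a bundling with `k` parts. -/
def HasBundling (G : SimpleGraph V) (k : ℕ) : Prop :=
  ∃ (x : V → ℂ) (K : Sym2 V → Set ℂ), IsLayout G x K ∧ IsSimple G K ∧
    ∃ P : Finset (Set ℂ), IsBundling G K P ∧ P.card = k

/-- The circular bundled crossing number. -/
noncomputable def bc (G : SimpleGraph V) : ℕ := sInf {k | HasBundling G k}

end Pool.Agent.H77.BC
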