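import Pool.Agent.H77.BC.RedDefs
import Pool.Agent.H82.SN.C5

/-!
# Module P: instance lists, polynomial time, transport along isomorphisms
-/

set_option autoImplicit false

namespace Pool.Agent.H77.BC

open Set Pool.Agent.H78.NP Pool.Agent.H79.Cx

/-! ### The instance -/

/-- The pendant edges. -/
def pendL (NR : ℕ) : List (ℕ × ℕ) := (List.range NR).map fun w => (2 * w, 2 * w + 1)

/-- The cycle edges. -/
def cycL (N R : ℕ) : List (ℕ × ℕ) := (List.range N).flatMap fun x =>
  (List.range R).map fun i => (2 * (x * R + i), 2 * (x * R + (i + 1) % R))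

/-- The clause edges. -/
def clauseL (φ : List Cl) (R : ℕ) : List (ℕ × ℕ) := (List.range (3 * φ.length)).map fun q =>
  (2 * ((lit φ q).1 * R + (prt φ q + 1)) + 1, 2 * ((lit φ (nxt q)).1 * R + prt φ (nxt q)) + 1)

/-- The edges at the apex. -/
def apexL (NR : ℕ) : List (ℕ × ℕ) := (List.range (2 * NR)).map fun v => (2 * NR, v)

/-- The instance (vertices, edges, bound) of the reduction: `(x, i, b)` has the number
`2 * (x * R + i) + b` where `R = 12 * φ.length`, the apex has the number `2 * N * R`. -/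
def instOf (φ : List Cl) : List ℕ × List (ℕ × ℕ) × ℕ :=
  (List.range (2 * (nVar φ * (12 * φ.length)) + 1),
    pendL (nVar φ * (12 * φ.length)) ++ (cycL (nVar φ) (12 * φ.length) ++
      (clauseL φ (12 * φ.length) ++ apexL (nVar φ * (12 * φ.length)))),
    6 * φ.length * nVar φ)

theorem instOf_bound (φ : List Cl) : (instOf φ).2.2 = 6 * φ.length * nVar φ := rfl

/-! ### Arithmetic -/

theorem le_sum_of_mem {l : List ℕ} {a : ℕ} (h : a ∈ l) : a ≤ l.sum := List.le_sum_of_mem h

theorem lit_lt (φ : List Cl) : ∀ q < 3 * φ.length, (lit φ q).1 < nVar φ := by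
  intro q hq
  have hlt : q / 3 < φ.length := by omega
  have hmem : φ[q / 3].1.1 + φ[q / 3].2.1.1 + φ[q / 3].2.2.1 ≤
      (φ.map fun c => c.1.1 + c.2.1.1 + c.2.2.1).sum :=
    le_sum_of_mem (List.mem_map.mpr ⟨φ[q / 3], List.getElem_mem hlt, rfl⟩)
  unfold lit nVar
  simp only [List.getD_eq_getElem _ _ hlt]
  split_ifs <;> omega

theorem p_prt_le (φ : List Cl) (q : ℕ) : 4 * q ≤ prt φ q ∧ prt φ q ≤ 4 * q + 1 := by
  unfold prt
  split_ifs <;> omega

theorem p_nxt_lt {q M : ℕ} (h : q < 3 * M) : nxt q < 3 * M := by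
  unfold nxt
  split_ifs <;> omega

theorem p_nxt_ne (q : ℕ) : nxt q ≠ q := by
  unfold nxt
  split_ifs <;> omega

theorem mul_add_inj {R a b c d : ℕ} (hb : b < R) (hd : d < R) :
    a * R + b = c * R + d ↔ a = c ∧ b = d := by
  constructor
  · intro h
    have h1 : (a * R + b) / R = a := by
      rw [Nat.mul_comm, Nat.mul_add_div (by omega), Nat.div_eq_of_lt hb, Nat.add_zero]
    have h2 : (c * R + d) / R = c := by
      rw [Nat.mul_comm, Nat.mul_add_div (by omega), Nat.div_eq_of_lt hd, Nat.add_zero]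
    have h3 : a = c := by rw [← h1, ← h2, h]
    subst h3
    exact ⟨rfl, by omega⟩
  · rintro ⟨rfl, rfl⟩
    rfl

theorem mul_add_lt {N R x i : ℕ} (hx : x < N) (hi : i < R) : x * R + i < N * R := by
  have : (x + 1) * R ≤ N * R := Nat.mul_le_mul_right _ hx
  rw [Nat.succ_mul] at this
  omega

/-! ### The numbering -/

/-- The number of a vertex. -/
def idx {N M : ℕ} (u : RV N M) : ℕ :=
  2 * ((u.1 : ℕ) * (12 * M) + (u.2.1 : ℕ)) + if u.2.2 = true then 1 else 0

theorem idx_lt {N M : ℕ} (u : RV N M) : idx u < 2 * (N * (12 * M)) := by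
  have := mul_add_lt u.1.2 u.2.1.2
  unfold idx
  split_ifs <;> omega

theorem idx_inj {N M : ℕ} {u v : RV N M} (h : idx u = idx v) : u = v := by
  obtain ⟨x, i, b⟩ := u
  obtain ⟨y, j, c⟩ := v
  unfold idx at h
  dsimp only at h
  have h1 : (x : ℕ) * (12 * M) + (i : ℕ) = (y : ℕ) * (12 * M) + (j : ℕ) ∧ b = c := by
    cases b <;> cases c <;> simp only [if_true, Bool.false_eq_true, if_false] at h
    · exact ⟨by omega, rfl⟩
    · exfalso
      omega
    · exfalso
      omega
    · exact ⟨by omega, rfl⟩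
  obtain ⟨h1, rfl⟩ := h1
  obtain ⟨h2, h3⟩ := (mul_add_inj i.2 j.2).mp h1
  rw [Fin.ext h2, Fin.ext h3]

theorem exists_idx {N M v : ℕ} (h : v < 2 * (N * (12 * M))) : ∃ u : RV N M, idx u = v := by
  have hR : 0 < 12 * M := by
    rcases Nat.eq_zero_or_pos (12 * M) with h0 | h0
    · rw [h0] at h
      omega
    · exact h0
  have h1 : v / 2 / (12 * M) < N := by
    rw [Nat.div_lt_iff_lt_mul hR]
    omega
  refine ⟨(⟨v / 2 / (12 * M), h1⟩, ⟨v / 2 % (12 * M), Nat.mod_lt _ hR⟩, decide (v % 2 = 1)), ?_⟩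
  unfold idx
  dsimp only
  have h2 := Nat.div_add_mod' (v / 2) (12 * M)
  rw [h2]
  by_cases h3 : v % 2 = 1
  · simp only [h3, decide_true, if_true]
    omega
  · simp only [h3, decide_false, Bool.false_eq_true, if_false]
    omega

/-- The number of a vertex of the cone. -/
def oidx {N M : ℕ} (u : Option (RV N M)) : ℕ := u.elim (2 * (N * (12 * M))) idx

theorem oidx_inj {N M : ℕ} {u v : Option (RV N M)} (h : oidx u = oidx v) : u = v := by
  rcases u with _ | u <;> rcases v with _ | v
  · rfl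
  · have := idx_lt v
    simp only [oidx, Option.elim] at h
    omega
  · have := idx_lt u
    simp only [oidx, Option.elim] at h
    omega
  · exact congrArg some (idx_inj h)

theorem oidx_mem {N M : ℕ} (u : Option (RV N M)) :
    oidx u ∈ List.range (2 * (N * (12 * M)) + 1) := by
  rw [List.mem_range]
  rcases u with _ | u
  · simp [oidx]
  · have := idx_lt u
    simp only [oidx, Option.elim]
    omega

theorem exists_oidx {N M v : ℕ} (h : v ∈ List.range (2 * (N * (12 * M)) + 1)) :
    ∃ u : Option (RV N M), oidx u = v := by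
  rw [List.mem_range] at h
  rcases Nat.lt_or_ge v (2 * (N * (12 * M))) with h1 | h1
  · obtain ⟨u, hu⟩ := exists_idx h1
    exact ⟨some u, hu⟩
  · exact ⟨none, by simp only [oidx, Option.elim]; omega⟩

/-- The numbering as an equivalence. -/
noncomputable def idxEquiv (N M : ℕ) :
    Option (RV N M) ≃ {v : ℕ // v ∈ List.range (2 * (N * (12 * M)) + 1)} :=
  Equiv.ofBijective (fun u => ⟨oidx u, oidx_mem u⟩)
    ⟨fun _ _ h => oidx_inj (congrArg Subtype.val h), fun v => by
      obtain ⟨u, hu⟩ := exists_oidx v.2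
      exact ⟨u, Subtype.ext hu⟩⟩

/-! ### Edges -/

theorem idx_false {N M : ℕ} (x : Fin N) (i : Fin (12 * M)) :
    idx (x, i, false) = 2 * ((x : ℕ) * (12 * M) + (i : ℕ)) := by
  simp [idx]

theorem idx_true {N M : ℕ} (x : Fin N) (i : Fin (12 * M)) :
    idx (x, i, true) = 2 * ((x : ℕ) * (12 * M) + (i : ℕ)) + 1 := by
  simp [idx]

theorem mem_pendL {N M : ℕ} (u v : RV N M) : (idx u, idx v) ∈ pendL (N * (12 * M)) ↔
    u.2.2 = false ∧ v.2.2 = true ∧ u.1 = v.1 ∧ u.2.1 = v.2.1 := by
  obtain ⟨x, i, b⟩ := u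
  obtain ⟨y, j, c⟩ := v
  unfold pendL
  simp only [List.mem_map, List.mem_range, Prod.mk.injEq]
  constructor
  · rintro ⟨w, hw, h1, h2⟩
    cases b
    · cases c
      · rw [idx_false] at h1 h2
        exfalso
        omega
      · rw [idx_false] at h1
        rw [idx_true] at h2
        obtain ⟨h3, h4⟩ := (mul_add_inj i.2 j.2).mp
          (show (x : ℕ) * (12 * M) + (i : ℕ) = (y : ℕ) * (12 * M) + (j : ℕ) by omega)
        exact ⟨rfl, rfl, Fin.ext h3, Fin.ext h4⟩
    · rw [idx_true] at h1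
      exfalso
      omega
  · rintro ⟨rfl, rfl, rfl, rfl⟩
    rw [idx_false, idx_true]
    exact ⟨(x : ℕ) * (12 * M) + (i : ℕ), mul_add_lt x.2 i.2, rfl, rfl⟩

theorem mem_cycL {N M : ℕ} (u v : RV N M) : (idx u, idx v) ∈ cycL N (12 * M) ↔
    u.2.2 = false ∧ v.2.2 = false ∧ u.1 = v.1 ∧ (v.2.1 : ℕ) = ((u.2.1 : ℕ) + 1) % (12 * M) := by
  obtain ⟨x, i, b⟩ := u
  obtain ⟨y, j, c⟩ := v
  unfold cycL
  simp only [List.mem_flatMap, List.mem_map, List.mem_range, Prod.mk.injEq]
  constructor
  · rintro ⟨z, hz, k, hk, h1, h2⟩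
    cases b
    · cases c
      · rw [idx_false] at h1 h2
        obtain ⟨h3, h4⟩ := (mul_add_inj hk i.2).mp
          (show z * (12 * M) + k = (x : ℕ) * (12 * M) + (i : ℕ) by omega)
        obtain ⟨h5, h6⟩ := (mul_add_inj (Nat.mod_lt _ (by omega)) j.2).mp
          (show z * (12 * M) + (k + 1) % (12 * M) = (y : ℕ) * (12 * M) + (j : ℕ) by omega)
        refine ⟨rfl, rfl, Fin.ext (by omega), ?_⟩
        rw [← h6, h4]
      · rw [idx_true] at h2
        exfalso
        omega
    · rw [idx_true] at h1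
      exfalso
      omega
  · rintro ⟨rfl, rfl, h1, h2⟩
    rw [idx_false, idx_false]
    exact ⟨x, x.2, i, i.2, rfl, by rw [← h2, h1]⟩

theorem mem_clauseL {φ : List Cl} {N : ℕ} (u v : RV N φ.length) :
    (idx u, idx v) ∈ clauseL φ (12 * φ.length) ↔
    u.2.2 = true ∧ v.2.2 = true ∧ ∃ q < 3 * φ.length,
    (u.1 : ℕ) = (lit φ q).1 ∧ (u.2.1 : ℕ) = prt φ q + 1 ∧
    (v.1 : ℕ) = (lit φ (nxt q)).1 ∧ (v.2.1 : ℕ) = prt φ (nxt q) := by
  obtain ⟨x, i, b⟩ := u
  obtain ⟨y, j, c⟩ := v
  unfold clauseL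
  simp only [List.mem_map, List.mem_range, Prod.mk.injEq]
  constructor
  · rintro ⟨q, hq, h1, h2⟩
    cases b
    · rw [idx_false] at h1
      exfalso
      omega
    · cases c
      · rw [idx_false] at h2
        exfalso
        omega
      · rw [idx_true] at h1 h2
        have hn := p_nxt_lt hq
        have p1 := p_prt_le φ q
        have p2 := p_prt_le φ (nxt q)
        obtain ⟨h3, h4⟩ := (mul_add_inj (by omega) i.2).mp
          (show (lit φ q).1 * (12 * φ.length) + (prt φ q + 1) =
            (x : ℕ) * (12 * φ.length) + (i : ℕ) by omega)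
        obtain ⟨h5, h6⟩ := (mul_add_inj (by omega) j.2).mp
          (show (lit φ (nxt q)).1 * (12 * φ.length) + prt φ (nxt q) =
            (y : ℕ) * (12 * φ.length) + (j : ℕ) by omega)
        exact ⟨rfl, rfl, q, hq, h3.symm, h4.symm, h5.symm, h6.symm⟩
  · rintro ⟨rfl, rfl, q, hq, h1, h2, h3, h4⟩
    rw [idx_true, idx_true]
    exact ⟨q, hq, by rw [h1, h2], by rw [h3, h4]⟩

theorem mem_apexL {N M : ℕ} (u : RV N M) (w : ℕ) : (idx u, w) ∉ apexL (N * (12 * M)) := by
  unfold apexL
  simp only [List.mem_map, List.mem_range, Prod.mk.injEq, not_exists, not_and]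
  intro v _ h _
  have := idx_lt u
  omega

theorem mem_edges_iff {φ : List Cl} (u v : RV (nVar φ) φ.length) :
    (idx u, idx v) ∈ (instOf φ).2.1 ↔ redRel φ (nVar φ) u v := by
  unfold instOf redRel
  simp only [List.mem_append, mem_pendL, mem_cycL, mem_clauseL, mem_apexL, or_false]

theorem apex_mem_edges {φ : List Cl} (u : RV (nVar φ) φ.length) :
    (2 * (nVar φ * (12 * φ.length)), idx u) ∈ (instOf φ).2.1 := by
  unfold instOf
  simp only [List.mem_append]
  right
  right
  right
  unfold apexL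
  simp only [List.mem_map, List.mem_range, Prod.mk.injEq, true_and, exists_eq_right]
  exact idx_lt u

theorem instOf_iso (φ : List Cl) :
    Nonempty (Pool.Agent.H82.SN.graphOf (instOf φ).1 (instOf φ).2.1 ≃g
      cone (redH φ (nVar φ))) := by
  refine ⟨RelIso.symm ⟨idxEquiv (nVar φ) φ.length, ?_⟩⟩
  intro u v
  show (idxEquiv (nVar φ) φ.length u ≠ idxEquiv (nVar φ) φ.length v ∧
    ((oidx u, oidx v) ∈ (instOf φ).2.1 ∨ (oidx v, oidx u) ∈ (instOf φ).2.1)) ↔ _
  rw [(idxEquiv (nVar φ) φ.length).injective.ne_iff]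
  rcases u with _ | u <;> rcases v with _ | v
  · simp [cone]
  · simp only [cone, iff_true, oidx, Option.elim]
    exact ⟨by simp, Or.inl (apex_mem_edges v)⟩
  · simp only [cone, iff_true, oidx, Option.elim]
    exact ⟨by simp, Or.inr (apex_mem_edges u)⟩
  · simp only [oidx, Option.elim, mem_edges_iff, cone, redH, SimpleGraph.fromRel_adj, ne_eq,
      Option.some.injEq]

theorem instOf_wf (φ : List Cl) : Pool.Agent.H82.SN.WellFormed (instOf φ) := by
  refine ⟨List.nodup_range, ?_⟩
  intro e he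
  unfold instOf at he ⊢
  simp only [List.mem_append, List.mem_range] at he ⊢
  rcases he with he | he | he | he
  · unfold pendL at he
    simp only [List.mem_map, List.mem_range] at he
    obtain ⟨w, hw, rfl⟩ := he
    dsimp only
    omega
  · unfold cycL at he
    simp only [List.mem_flatMap, List.mem_map, List.mem_range] at he
    obtain ⟨x, hx, i, hi, rfl⟩ := he
    have h1 := mul_add_lt hx hi
    have h2 := mul_add_lt hx (Nat.mod_lt (i + 1) (show 12 * φ.length > 0 by omega))
    dsimp only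
    refine ⟨by omega, by omega, ?_⟩
    intro h
    have h3 : i = (i + 1) % (12 * φ.length) := by omega
    rcases Nat.lt_or_ge (i + 1) (12 * φ.length) with h4 | h4
    · rw [Nat.mod_eq_of_lt h4] at h3
      omega
    · have h5 : i + 1 = 12 * φ.length := by omega
      rw [h5, Nat.mod_self] at h3
      omega
  · unfold clauseL at he
    simp only [List.mem_map, List.mem_range] at he
    obtain ⟨q, hq, rfl⟩ := he
    have hn := p_nxt_lt hq
    have p1 := p_prt_le φ q
    have p2 := p_prt_le φ (nxt q)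
    have h1 := mul_add_lt (lit_lt φ q hq) (show prt φ q + 1 < 12 * φ.length by omega)
    have h2 := mul_add_lt (lit_lt φ _ hn) (show prt φ (nxt q) < 12 * φ.length by omega)
    dsimp only
    refine ⟨by omega, by omega, ?_⟩
    intro h
    have h3 := (mul_add_inj (show prt φ q + 1 < 12 * φ.length by omega)
      (show prt φ (nxt q) < 12 * φ.length by omega)).mp
      (show (lit φ q).1 * (12 * φ.length) + (prt φ q + 1) =
        (lit φ (nxt q)).1 * (12 * φ.length) + prt φ (nxt q) by omega)
    have h4 := p_nxt_ne q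
    omega
  · unfold apexL at he
    simp only [List.mem_map, List.mem_range] at he
    obtain ⟨v, hv, rfl⟩ := he
    dsimp only
    omega

/-! ### Polynomial time -/

section PT

variable {α : Type} [Enc α]

@[fun_prop]
private theorem PT_lit {φ : α → List Cl} {q : α → ℕ} (h : PT φ) (hq : PT q) :
    PT (fun a => lit (φ a) (q a)) := by
  unfold lit
  fun_prop

@[fun_prop]
private theorem PT_nxt {q : α → ℕ} (hq : PT q) : PT (fun a => nxt (q a)) := by
  unfold nxt
  fun_prop

@[fun_prop]
private theorem PT_prt {φ : α → List Cl} {q : α → ℕ} (h : PT φ) (hq : PT q) :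
    PT (fun a => prt (φ a) (q a)) := by
  unfold prt
  fun_prop

@[fun_prop]
private theorem PT_nVar {φ : α → List Cl} (h : PT φ) : PT (fun a => nVar (φ a)) := by
  unfold nVar
  fun_prop

@[fun_prop]
private theorem PT_pendL {n : α → ℕ} (hn : PT n) : PT (fun a => pendL (n a)) := by
  unfold pendL
  fun_prop

@[fun_prop]
private theorem PT_cycL {n r : α → ℕ} (hn : PT n) (hr : PT r) :
    PT (fun a => cycL (n a) (r a)) := by
  unfold cycL
  fun_prop

@[fun_prop]
private theorem PT_clauseL {φ : α → List Cl} {r : α → ℕ} (h : PT φ) (hr : PT r) :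
    PT (fun a => clauseL (φ a) (r a)) := by
  unfold clauseL
  fun_prop

@[fun_prop]
private theorem PT_apexL {n : α → ℕ} (hn : PT n) : PT (fun a => apexL (n a)) := by
  unfold apexL
  fun_prop

end PT

theorem PT_instOf :
    Pool.Agent.H79.Cx.PT (fun φ : List Cl => Pool.Agent.H82.SN.binData (instOf φ)) := by
  refine Pool.Agent.H82.SN.PT_binData ?_
  unfold instOf
  fun_prop

/-! ### Transport along isomorphisms -/

section Iso

variable {V V' : Type} {G : SimpleGraph V} {G' : SimpleGraph V'}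

theorem isGrid_iso (e : G ≃g G') {K : Sym2 V → Set ℂ} {p q : ℕ} {a : Fin p → Sym2 V}
    {b : Fin q → Sym2 V} {φ : ℝ × ℝ → ℂ} (h : IsGrid G K a b φ) :
    IsGrid G' (K ∘ Sym2.map e.symm) (Sym2.map e ∘ a) (Sym2.map e ∘ b) φ := by
  have hinj : Function.Injective (Sym2.map e) := Sym2.map.injective e.injective
  have hs : ∀ s : Sym2 V, Sym2.map e.symm (Sym2.map e s) = s := by
    intro s
    induction s with
    | _ x y => simp
  have hs' : ∀ s : Sym2 V', Sym2.map e (Sym2.map e.symm s) = s := by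
    intro s
    induction s with
    | _ x y => simp
  have hm : ∀ s : Sym2 V, s ∈ G.edgeSet → Sym2.map e s ∈ G'.edgeSet := by
    intro s
    induction s with
    | _ x y =>
      simp only [Sym2.map_mk, SimpleGraph.mem_edgeSet]
      exact fun h => e.map_adj_iff.mpr h
  have hm' : ∀ s : Sym2 V', s ∈ G'.edgeSet → Sym2.map e.symm s ∈ G.edgeSet := by
    intro s
    induction s with
    | _ x y =>
      simp only [Sym2.map_mk, SimpleGraph.mem_edgeSet]
      exact fun h => e.symm.map_adj_iff.mpr h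
  refine ⟨h.cont, h.inj, h.inside, fun i => hm _ (h.mem_a i), fun j => hm _ (h.mem_b j),
    fun i j hij => h.ne i j (hinj hij), ?_⟩
  intro z hz s hs1
  have h1 := h.mem_iff z hz _ (hm' s hs1)
  have key : ∀ t : Sym2 V, t = Sym2.map e.symm s ↔ Sym2.map e t = s := fun t =>
    ⟨fun ht => by rw [ht, hs'], fun ht => by rw [← ht, hs]⟩
  simp only [Function.comp_apply]
  rw [h1]
  simp only [key]

theorem hasBundling_iso (e : G ≃g G') (k : ℕ) : HasBundling G k → HasBundling G' k := by
  rintro ⟨x, K, hL, hS, P, ⟨hP1, hP2, hP3⟩, hk⟩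
  have hs : ∀ s : Sym2 V, Sym2.map e.symm (Sym2.map e s) = s := by
    intro s
    induction s with
    | _ x y => simp
  have hs' : ∀ s : Sym2 V', Sym2.map e (Sym2.map e.symm s) = s := by
    intro s
    induction s with
    | _ x y => simp
  have hm : ∀ s : Sym2 V, s ∈ G.edgeSet → Sym2.map e s ∈ G'.edgeSet := by
    intro s
    induction s with
    | _ x y =>
      simp only [Sym2.map_mk, SimpleGraph.mem_edgeSet]
      exact fun h => e.map_adj_iff.mpr h
  have hm' : ∀ s : Sym2 V', s ∈ G'.edgeSet → Sym2.map e.symm s ∈ G.edgeSet := by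
    intro s
    induction s with
    | _ x y =>
      simp only [Sym2.map_mk, SimpleGraph.mem_edgeSet]
      exact fun h => e.symm.map_adj_iff.mpr h
  have hinj : Function.Injective (Sym2.map e.symm) := Sym2.map.injective e.symm.injective
  have hc : crossings G' (K ∘ Sym2.map e.symm) = crossings G K := by
    ext z
    constructor
    · rintro ⟨h1, f, hf, g, hg, hfg, h2, h3⟩
      exact ⟨h1, _, hm' f hf, _, hm' g hg, fun h => hfg (hinj h), h2, h3⟩
    · rintro ⟨h1, f, hf, g, hg, hfg, h2, h3⟩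
      refine ⟨h1, _, hm f hf, _, hm g hg, fun h => hfg ?_, ?_, ?_⟩
      · rw [← hs f, h, hs]
      · simpa [hs] using h2
      · simpa [hs] using h3
  refine ⟨x ∘ e.symm, K ∘ Sym2.map e.symm, ?_, ?_, P, ⟨?_, hP2, ?_⟩, hk⟩
  · refine ⟨hL.inj.comp e.symm.injective, fun v => hL.norm_eq _, ?_, ?_, ?_, ?_⟩
    · intro u v huv
      have h1 := hL.arc (e.symm u) (e.symm v) (e.symm.map_adj_iff.mpr huv)
      simpa using h1
    · intro u v huv z hz
      have h1 := hL.inside (e.symm u) (e.symm v) (e.symm.map_adj_iff.mpr huv) z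
        (by simpa using hz)
      simpa using h1
    · intro f hf g hg hfg
      exact hL.finite _ (hm' f hf) _ (hm' g hg) (fun h => hfg (hinj h))
    · intro f hf g hg hfg z hz hz1
      obtain ⟨φ, h1, h2⟩ := hL.proper _ (hm' f hf) _ (hm' g hg) (fun h => hfg (hinj h)) z hz hz1
      refine ⟨φ, ?_, h2⟩
      have h3 := isGrid_iso e h1
      have e1 : Sym2.map e ∘ ![Sym2.map e.symm f] = ![f] := by
        funext i
        fin_cases i
        exact hs' f
      have e2 : Sym2.map e ∘ ![Sym2.map e.symm g] = ![g] := by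
        funext i
        fin_cases i
        exact hs' g
      rwa [e1, e2] at h3
  · intro f hf g hg hfg
    exact hS _ (hm' f hf) _ (hm' g hg) (fun h => hfg (hinj h))
  · intro X hX
    obtain ⟨p, q, a, b, φ, hp, hq, hG, hXe⟩ := hP1 X hX
    exact ⟨p, q, _, _, φ, hp, hq, isGrid_iso e hG, hXe⟩
  · rw [hP3, hc]

end Iso

end Pool.Agent.H77.BC
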