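import Pool.Agent.H77.BC.RedDefs

/-!
# The reduction from 3SAT: description of the graph and soundness
-/

set_option autoImplicit false

namespace Pool.Agent.H77.BC

open Pool.Agent.H78.NP

/-! ### Arithmetic of the ports -/

theorem prt_div (φ : List Cl) (q : ℕ) : prt φ q / 4 = q := by
  unfold prt
  split_ifs <;> omega

theorem prt_succ_div (φ : List Cl) (q : ℕ) : (prt φ q + 1) / 4 = q := by
  unfold prt
  split_ifs <;> omega

theorem prt_le (φ : List Cl) (q : ℕ) : prt φ q ≤ 4 * q + 1 := by
  unfold prt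
  split_ifs <;> omega

theorem prt_succ_lt (φ : List Cl) {q : ℕ} (hq : q < 3 * φ.length) :
    prt φ q + 1 < 12 * φ.length := by
  have := prt_le φ q
  omega

theorem nxt_lt {q M : ℕ} (hq : q < 3 * M) : nxt q < 3 * M := by
  unfold nxt
  split_ifs <;> omega

theorem nxt_ne (q : ℕ) : nxt q ≠ q := by
  unfold nxt
  split_ifs <;> omega

theorem nxt_inj {q q' : ℕ} (h : nxt q = nxt q') : q = q' := by
  unfold nxt at h
  split_ifs at h <;> omega

theorem nxt_div (q : ℕ) : nxt q / 3 = q / 3 := by
  unfold nxt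
  split_ifs <;> omega

theorem nxt_nxt_nxt (q : ℕ) : nxt (nxt (nxt q)) = q := by
  unfold nxt
  split_ifs <;> omega

theorem nxt_nxt_div (q : ℕ) : nxt (nxt q) / 3 = q / 3 := by
  rw [nxt_div, nxt_div]

/-! ### Adjacency -/

theorem redH_adj_ff {φ : List Cl} {N : ℕ} (x y : Fin N) (i j : Fin (12 * φ.length)) :
    (redH φ N).Adj (x, i, false) (y, j, false) ↔ x = y ∧
      ((j : ℕ) = ((i : ℕ) + 1) % (12 * φ.length) ∨ (i : ℕ) = ((j : ℕ) + 1) % (12 * φ.length)) := by
  have hi := i.2
  have hj := j.2
  unfold redH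
  rw [SimpleGraph.fromRel_adj]
  simp only [redRel, Bool.false_eq_true, false_and, and_false, or_false, false_or, true_and,
    ne_eq, Prod.mk.injEq, not_and]
  constructor
  · rintro ⟨_, h | h⟩
    · exact ⟨h.1, Or.inl h.2⟩
    · exact ⟨h.1.symm, Or.inr h.2⟩
  · rintro ⟨rfl, h | h⟩
    · refine ⟨fun _ hij => ?_, Or.inl ⟨rfl, h⟩⟩
      rw [hij] at h
      exfalso
      rcases Nat.lt_or_ge ((j : ℕ) + 1) (12 * φ.length) with h1 | h1
      · rw [Nat.mod_eq_of_lt h1] at h
        omega
      · have h2 : (j : ℕ) + 1 = 12 * φ.length := by omega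
        rw [h2, Nat.mod_self] at h
        omega
    · refine ⟨fun _ hij => ?_, Or.inr ⟨rfl, h⟩⟩
      rw [hij] at h
      exfalso
      rcases Nat.lt_or_ge ((j : ℕ) + 1) (12 * φ.length) with h1 | h1
      · rw [Nat.mod_eq_of_lt h1] at h
        omega
      · have h2 : (j : ℕ) + 1 = 12 * φ.length := by omega
        rw [h2, Nat.mod_self] at h
        omega

theorem redH_adj_ft {φ : List Cl} {N : ℕ} (x y : Fin N) (i j : Fin (12 * φ.length)) :
    (redH φ N).Adj (x, i, false) (y, j, true) ↔ x = y ∧ i = j := by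
  unfold redH
  rw [SimpleGraph.fromRel_adj]
  simp only [redRel, Bool.false_eq_true, Bool.true_eq_false, false_and, and_false, or_false,
    true_and, ne_eq, Prod.mk.injEq, not_false_eq_true]

theorem redH_adj_tf {φ : List Cl} {N : ℕ} (x y : Fin N) (i j : Fin (12 * φ.length)) :
    (redH φ N).Adj (x, i, true) (y, j, false) ↔ x = y ∧ i = j := by
  rw [SimpleGraph.adj_comm, redH_adj_ft]
  constructor
  · rintro ⟨rfl, rfl⟩
    exact ⟨rfl, rfl⟩
  · rintro ⟨rfl, rfl⟩
    exact ⟨rfl, rfl⟩

/-- The clause edge of the `q`-th occurrence, as a relation. -/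
def CE (φ : List Cl) {N : ℕ} (q : ℕ) (x : Fin N) (i : Fin (12 * φ.length)) (y : Fin N)
    (j : Fin (12 * φ.length)) : Prop :=
  (x : ℕ) = (lit φ q).1 ∧ (i : ℕ) = prt φ q + 1 ∧
    (y : ℕ) = (lit φ (nxt q)).1 ∧ (j : ℕ) = prt φ (nxt q)

theorem redH_adj_tt {φ : List Cl} {N : ℕ} (x y : Fin N) (i j : Fin (12 * φ.length)) :
    (redH φ N).Adj (x, i, true) (y, j, true) ↔
      ∃ q < 3 * φ.length, CE φ q x i y j ∨ CE φ q y j x i := by
  unfold redH
  rw [SimpleGraph.fromRel_adj]
  simp only [redRel, Bool.true_eq_false, false_and, and_false, false_or, true_and,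
    ne_eq, Prod.mk.injEq, not_and]
  constructor
  · rintro ⟨_, ⟨q, hq, h⟩ | ⟨q, hq, h⟩⟩
    · exact ⟨q, hq, Or.inl h⟩
    · exact ⟨q, hq, Or.inr h⟩
  · rintro ⟨q, hq, h | h⟩
    · refine ⟨fun _ hij => ?_, Or.inl ⟨q, hq, h⟩⟩
      have h1 := h.2.1
      have h2 := h.2.2.2
      rw [hij] at h1
      have h3 := prt_succ_div φ q
      have h4 := prt_div φ (nxt q)
      rw [← h1] at h3
      rw [← h2] at h4
      simp only [not_true_eq_false]
      exact nxt_ne q (h4.symm.trans h3)
    · refine ⟨fun _ hij => ?_, Or.inr ⟨q, hq, h⟩⟩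
      have h1 := h.2.1
      have h2 := h.2.2.2
      rw [hij] at h2
      have h3 := prt_succ_div φ q
      have h4 := prt_div φ (nxt q)
      rw [← h1] at h3
      rw [← h2] at h4
      simp only [not_true_eq_false]
      exact nxt_ne q (h4.symm.trans h3)

/-! ### The neighbours -/

/-- The next vertex of the cycle. -/
def cyc {φ : List Cl} (i : Fin (12 * φ.length)) : Fin (12 * φ.length) :=
  ⟨((i : ℕ) + 1) % (12 * φ.length), Nat.mod_lt _ (by have := i.2; omega)⟩

/-- The previous vertex of the cycle. -/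
def cycInv {φ : List Cl} (i : Fin (12 * φ.length)) : Fin (12 * φ.length) :=
  ⟨((i : ℕ) + (12 * φ.length - 1)) % (12 * φ.length), Nat.mod_lt _ (by have := i.2; omega)⟩

theorem cyc_cycInv {φ : List Cl} (i : Fin (12 * φ.length)) : cyc (cycInv i) = i := by
  have hi := i.2
  apply Fin.ext
  show (((i : ℕ) + (12 * φ.length - 1)) % (12 * φ.length) + 1) % (12 * φ.length) = (i : ℕ)
  rw [Nat.mod_add_mod]
  have h1 : (i : ℕ) + (12 * φ.length - 1) + 1 = (i : ℕ) + 12 * φ.length := by omega
  rw [h1, Nat.add_mod_right, Nat.mod_eq_of_lt hi]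

theorem cycInv_cyc {φ : List Cl} (i : Fin (12 * φ.length)) : cycInv (cyc i) = i := by
  have hi := i.2
  apply Fin.ext
  show (((i : ℕ) + 1) % (12 * φ.length) + (12 * φ.length - 1)) % (12 * φ.length) = (i : ℕ)
  rw [Nat.mod_add_mod]
  have h1 : (i : ℕ) + 1 + (12 * φ.length - 1) = (i : ℕ) + 12 * φ.length := by omega
  rw [h1, Nat.add_mod_right, Nat.mod_eq_of_lt hi]

theorem cyc_ne_cycInv {φ : List Cl} (i : Fin (12 * φ.length)) : cyc i ≠ cycInv i := by
  intro h
  have h1 : cyc (cyc i) = i := by rw [h, cyc_cycInv]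
  have h2 := congrArg Fin.val h1
  have hi := i.2
  have h3 : (((i : ℕ) + 1) % (12 * φ.length) + 1) % (12 * φ.length) = (i : ℕ) := h2
  rw [Nat.mod_add_mod] at h3
  rcases Nat.lt_or_ge ((i : ℕ) + 1 + 1) (12 * φ.length) with h4 | h4
  · rw [Nat.mod_eq_of_lt h4] at h3
    omega
  · have h5 : (i : ℕ) + 1 + 1 = ((i : ℕ) + 1 + 1 - 12 * φ.length) + 12 * φ.length := by omega
    rw [h5, Nat.add_mod_right, Nat.mod_eq_of_lt (by omega)] at h3
    omega

/-- The neighbours of the vertex `(x, i, false)`. -/
theorem neighborSet_false {φ : List Cl} {N : ℕ} (x : Fin N) (i : Fin (12 * φ.length)) :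
    (redH φ N).neighborSet (x, i, false) =
      {(x, cyc i, false), (x, cycInv i, false), (x, i, true)} := by
  ext ⟨y, j, b⟩
  rw [SimpleGraph.mem_neighborSet]
  cases b with
  | false =>
    rw [redH_adj_ff]
    simp only [Set.mem_insert_iff, Set.mem_singleton_iff, Prod.mk.injEq, Bool.false_eq_true,
      and_false, or_false, and_true]
    constructor
    · rintro ⟨rfl, h | h⟩
      · exact Or.inl ⟨rfl, Fin.ext h⟩
      · right
        refine ⟨rfl, ?_⟩
        have h1 : i = cyc j := Fin.ext h
        rw [h1, cycInv_cyc]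
    · rintro (⟨rfl, rfl⟩ | ⟨rfl, rfl⟩)
      · exact ⟨rfl, Or.inl rfl⟩
      · refine ⟨rfl, Or.inr ?_⟩
        exact (congrArg Fin.val (cyc_cycInv i)).symm
  | true =>
    rw [redH_adj_ft]
    simp only [Set.mem_insert_iff, Set.mem_singleton_iff, Prod.mk.injEq, Bool.true_eq_false,
      and_false, false_or, and_true]
    constructor
    · rintro ⟨rfl, rfl⟩
      exact ⟨rfl, rfl⟩
    · rintro ⟨rfl, rfl⟩
      exact ⟨rfl, rfl⟩

/-- A vertex `(x, i, true)` has at most one neighbour of the form `(y, j, true)`. -/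
theorem adj_tt_unique {φ : List Cl} {N : ℕ} {x y y' : Fin N} {i j j' : Fin (12 * φ.length)}
    (h : (redH φ N).Adj (x, i, true) (y, j, true))
    (h' : (redH φ N).Adj (x, i, true) (y', j', true)) : y = y' ∧ j = j' := by
  rw [redH_adj_tt] at h h'
  obtain ⟨q, hq, h⟩ := h
  obtain ⟨q', hq', h'⟩ := h'
  have key : ∀ {r r' : ℕ} {z z' w w' : Fin N} {k l k' l' : Fin (12 * φ.length)},
      CE φ r z k w l → CE φ r' w' l' z' k' → k = k' → False := by
    intro r r' z z' w w' k l k' l' h1 h2 h3
    have e1 := h1.2.1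
    have e2 := h2.2.2.2
    rw [h3] at e1
    have h4 := prt_succ_div φ r
    have h5 := prt_div φ (nxt r')
    rw [← e1] at h4
    rw [← e2] at h5
    have h6 : nxt r' = r := h5.symm.trans h4
    rw [h6] at e2
    omega
  rcases h with h | h <;> rcases h' with h' | h'
  · have e1 := prt_succ_div φ q
    have e2 := prt_succ_div φ q'
    rw [← h.2.1] at e1
    rw [← h'.2.1] at e2
    have e3 : q = q' := e1.symm.trans e2
    subst e3
    exact ⟨Fin.ext (h.2.2.1.trans h'.2.2.1.symm), Fin.ext (h.2.2.2.trans h'.2.2.2.symm)⟩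
  · exact (key h h' rfl).elim
  · exact (key h' h rfl).elim
  · have e1 := prt_div φ (nxt q)
    have e2 := prt_div φ (nxt q')
    rw [← h.2.2.2] at e1
    rw [← h'.2.2.2] at e2
    have e3 : q = q' := nxt_inj (e1.symm.trans e2)
    subst e3
    exact ⟨Fin.ext (h.1.trans h'.1.symm), Fin.ext (h.2.1.trans h'.2.1.symm)⟩

/-- (1) The degree of the vertices of the cycles. -/
theorem redH_degree_false {φ : List Cl} {N : ℕ} (_hφ : ∀ q < 3 * φ.length, (lit φ q).1 < N)
    (x : Fin N) (i : Fin (12 * φ.length)) :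
    ((redH φ N).neighborSet (x, i, false)).ncard = 3 := by
  rw [neighborSet_false, Set.ncard_eq_three]
  refine ⟨_, _, _, ?_, ?_, ?_, rfl⟩
  · intro h
    simp only [Prod.mk.injEq, true_and, and_true] at h
    exact cyc_ne_cycInv i h
  · intro h
    simp at h
  · intro h
    simp at h

/-- (2) The degree of the other vertices. -/
theorem redH_degree_true {φ : List Cl} {N : ℕ} (_hφ : ∀ q < 3 * φ.length, (lit φ q).1 < N)
    (x : Fin N) (i : Fin (12 * φ.length)) :
    ((redH φ N).neighborSet (x, i, true)).ncard = 1 ∨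
      ((redH φ N).neighborSet (x, i, true)).ncard = 2 := by
  by_cases h : ∃ y j, (redH φ N).Adj (x, i, true) (y, j, true)
  · right
    obtain ⟨y, j, hyj⟩ := h
    rw [Set.ncard_eq_two]
    refine ⟨(x, i, false), (y, j, true), by simp, ?_⟩
    ext ⟨z, k, b⟩
    rw [SimpleGraph.mem_neighborSet]
    cases b with
    | false =>
      rw [redH_adj_tf]
      simp only [Set.mem_insert_iff, Set.mem_singleton_iff, Prod.mk.injEq, Bool.false_eq_true,
        and_false, or_false, and_true]
      constructor
      · rintro ⟨rfl, rfl⟩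
        exact ⟨rfl, rfl⟩
      · rintro ⟨rfl, rfl⟩
        exact ⟨rfl, rfl⟩
    | true =>
      simp only [Set.mem_insert_iff, Set.mem_singleton_iff, Prod.mk.injEq, Bool.true_eq_false,
        and_false, false_or, and_true]
      constructor
      · intro h1
        exact adj_tt_unique h1 hyj
      · rintro ⟨rfl, rfl⟩
        exact hyj
  · left
    rw [Set.ncard_eq_one]
    refine ⟨(x, i, false), ?_⟩
    ext ⟨z, k, b⟩
    rw [SimpleGraph.mem_neighborSet]
    cases b with
    | false =>
      rw [redH_adj_tf]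
      simp only [Set.mem_singleton_iff, Prod.mk.injEq, and_true]
      constructor
      · rintro ⟨rfl, rfl⟩
        exact ⟨rfl, rfl⟩
      · rintro ⟨rfl, rfl⟩
        exact ⟨rfl, rfl⟩
    | true =>
      simp only [Set.mem_singleton_iff, Prod.mk.injEq, Bool.true_eq_false, and_false,
        iff_false]
      intro h1
      exact h ⟨z, k, h1⟩

/-! ### Soundness -/

section

variable {W : Type} [Finite W] {H : SimpleGraph W} {π : W → ℕ}

/-- Used edges. -/
def Used (H : SimpleGraph W) (π : W → ℕ) (v w : W) : Prop :=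
  H.Adj v w ∧ (π w = π v + 1 ∨ π v = π w + 1)

omit [Finite W] in
theorem Used.symm' {v w : W} (h : Used H π v w) : Used H π w v :=
  ⟨h.1.symm, h.2.symm⟩

omit [Finite W] in
/-- Two different used neighbours lie on different sides. -/
theorem used_three (hπ : Function.Injective π) {v a b c : W} (ha : Used H π v a)
    (hb : Used H π v b) (hc : Used H π v c) (hab : a ≠ b) (hac : a ≠ c) (hbc : b ≠ c) : False := by
  have h1 : π a ≠ π b := fun h => hab (hπ h)
  have h2 : π a ≠ π c := fun h => hac (hπ h)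
  have h3 : π b ≠ π c := fun h => hbc (hπ h)
  rcases ha.2 with h4 | h4 <;> rcases hb.2 with h5 | h5 <;> rcases hc.2 with h6 | h6 <;> omega

omit [Finite W] in
theorem nextCount_eq (v : W) : nextCount H π v = {w | Used H π v w}.ncard := rfl

/-- If the degree is at most two all edges are used. -/
theorem used_of_degree (h : GoodOrder H π) {v : W} (hv : (H.neighborSet v).ncard ≤ 2) {w : W}
    (hw : H.Adj v w) : Used H π v w := by
  have h1 := h v
  rw [min_eq_right hv, nextCount_eq] at h1
  have h2 : {w | Used H π v w} ⊆ H.neighborSet v := fun w hw => hw.1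
  have h3 : {w | Used H π v w} = H.neighborSet v :=
    Set.eq_of_subset_of_ncard_le h2 h1 (Set.toFinite _)
  have h4 : w ∈ H.neighborSet v := hw
  rw [← h3] at h4
  exact h4

end

/-- (3) A good order gives a satisfying assignment. -/
theorem sat_of_goodOrder {φ : List Cl} {N : ℕ} (hφ : ∀ q < 3 * φ.length, (lit φ q).1 < N)
    (π : RV N φ.length → ℕ) (hπ : Function.Injective π) (h : GoodOrder (redH φ N) π) :
    Sat3 φ := by
  classical
  set H := redH φ N with hH
  set R := 12 * φ.length with hR
  -- all edges at the vertices d are used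
  have hd : ∀ (x : Fin N) (i : Fin R) (w : RV N φ.length), H.Adj (x, i, true) w →
      Used H π (x, i, true) w := by
    intro x i w hw
    apply used_of_degree h _ hw
    rcases redH_degree_true hφ x i with h1 | h1
    · rw [← hH] at h1
      omega
    · rw [← hH] at h1
      omega
  have hpend : ∀ (x : Fin N) (i : Fin R), Used H π (x, i, false) (x, i, true) := by
    intro x i
    apply Used.symm'
    exact hd x i _ ((redH_adj_tf x x i i).2 ⟨rfl, rfl⟩)
  -- exactly one of the cycle edges is used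
  have hone : ∀ (x : Fin N) (i : Fin R),
      (Used H π (x, i, false) (x, cyc i, false) ∨ Used H π (x, i, false) (x, cycInv i, false)) ∧
      ¬ (Used H π (x, i, false) (x, cyc i, false) ∧
        Used H π (x, i, false) (x, cycInv i, false)) := by
    intro x i
    have hne : ((x, cyc i, false) : RV N φ.length) ≠ (x, cycInv i, false) := by
      intro h1
      simp only [Prod.mk.injEq, true_and, and_true] at h1
      exact cyc_ne_cycInv i h1
    constructor
    · by_contra hcon
      push Not at hcon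
      have h1 := h (x, i, false)
      have h2 := redH_degree_false hφ x i
      rw [← hH] at h2
      rw [h2, nextCount_eq] at h1
      have h3 : {w | Used H π (x, i, false) w} ⊆ {((x, i, true) : RV N φ.length)} := by
        intro w hw
        have h4 : w ∈ H.neighborSet (x, i, false) := hw.1
        rw [hH, neighborSet_false] at h4
        rcases h4 with h4 | h4 | h4
        · rw [h4] at hw
          exact absurd hw hcon.1
        · rw [h4] at hw
          exact absurd hw hcon.2
        · exact h4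
      have h5 := Set.ncard_le_ncard h3 (Set.toFinite _)
      rw [Set.ncard_singleton] at h5
      simp at h1
      omega
    · rintro ⟨h1, h2⟩
      exact used_three hπ h1 h2 (hpend x i) hne (by simp) (by simp)
  -- alternation
  have halt : ∀ (x : Fin N) (i : Fin R),
      (Used H π (x, cyc i, false) (x, cyc (cyc i), false) ↔
        ¬ Used H π (x, i, false) (x, cyc i, false)) := by
    intro x i
    have h1 := hone x (cyc i)
    rw [cycInv_cyc] at h1
    constructor
    · intro h2 h3
      exact h1.2 ⟨h2, h3.symm'⟩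
    · intro h2
      rcases h1.1 with h3 | h3
      · exact h3
      · exact absurd h3.symm' h2
  let u : Fin N → ℕ → Prop := fun x n => ∃ hn : n < R, Used H π (x, ⟨n, hn⟩, false)
    (x, cyc ⟨n, hn⟩, false)
  have hu : ∀ (x : Fin N) (n : ℕ), n + 1 < R → (u x (n + 1) ↔ ¬ u x n) := by
    intro x n hn
    have hn' : n < R := by omega
    have h1 : cyc (φ := φ) ⟨n, hn'⟩ = ⟨n + 1, hn⟩ := Fin.ext (Nat.mod_eq_of_lt hn)
    have h2 := halt x ⟨n, hn'⟩
    rw [h1] at h2
    constructor
    · rintro ⟨_, h3⟩ ⟨_, h4⟩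
      rw [h1] at h4
      exact (h2.1 h3) h4
    · intro h3
      refine ⟨hn, h2.2 ?_⟩
      intro h4
      apply h3
      refine ⟨hn', ?_⟩
      rw [h1]
      exact h4
  have hpar : ∀ (x : Fin N) (n : ℕ), n < R → (u x n ↔ (n % 2 = 0 ↔ u x 0)) := by
    intro x n
    induction n with
    | zero => intro _; simp
    | succ n ih =>
      intro hn
      rw [hu x n hn, ih (by omega)]
      have h2 : (n + 1) % 2 = 0 ↔ ¬ (n % 2 = 0) := by omega
      rw [h2]
      tauto
  -- the assignment
  let v : ℕ → Bool := fun x => if hx : x < N then !(decide (u ⟨x, hx⟩ 0)) else false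
  refine ⟨v, ?_⟩
  by_contra hcon
  push Not at hcon
  obtain ⟨cl, hcl, hns⟩ := hcon
  obtain ⟨j, hj, hcj⟩ := List.getElem_of_mem hcl
  -- in the clause j all literals are false
  have hfalse : ∀ q, q / 3 = j → v (lit φ q).1 ≠ (lit φ q).2 := by
    intro q hq
    have hget : φ.getD (q / 3) ((0, true), (0, true), (0, true)) = cl := by
      rw [hq, List.getD_eq_getElem _ _ hj, hcj]
    unfold Cl.Sat at hns
    push Not at hns
    unfold lit
    simp only [hget]
    split_ifs
    · exact hns.1
    · exact hns.2.1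
    · exact hns.2.2
  have hqlt : ∀ q, q / 3 = j → q < 3 * φ.length := by
    intro q hq
    omega
  -- the vertices of the cycles
  let X : ∀ q, q / 3 = j → Fin N := fun q hq => ⟨(lit φ q).1, hφ q (hqlt q hq)⟩
  let I0 : ∀ q, q / 3 = j → Fin R := fun q hq =>
    ⟨prt φ q, by have := prt_succ_lt φ (hqlt q hq); omega⟩
  let I1 : ∀ q, q / 3 = j → Fin R := fun q hq => ⟨prt φ q + 1, prt_succ_lt φ (hqlt q hq)⟩
  have hcc : ∀ q (hq : q / 3 = j), Used H π (X q hq, I0 q hq, false) (X q hq, I1 q hq, false) := by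
    intro q hq
    have h1 := hfalse q hq
    have hlt := hqlt q hq
    have hN := hφ q hlt
    have h2 : v (lit φ q).1 = !(decide (u (X q hq) 0)) := by
      simp only [v, X]
      rw [dif_pos hN]
    have hI : prt φ q < R := (I0 q hq).2
    have h3 : u (X q hq) (prt φ q) := by
      rw [hpar (X q hq) _ hI]
      rw [h2] at h1
      unfold prt
      cases hs : (lit φ q).2 with
      | true =>
        rw [hs] at h1
        have h4 : u (X q hq) 0 := by simpa using h1
        simp only [if_true]
        constructor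
        · intro _; exact h4
        · intro _; omega
      | false =>
        rw [hs] at h1
        have h4 : ¬ u (X q hq) 0 := by simpa using h1
        simp only [Bool.false_eq_true, if_false]
        constructor
        · intro h5; omega
        · intro h5; exact absurd h5 h4
    obtain ⟨_, h4⟩ := h3
    have h5 : cyc (φ := φ) ⟨prt φ q, hI⟩ = I1 q hq :=
      Fin.ext (Nat.mod_eq_of_lt (prt_succ_lt φ hlt))
    rw [h5] at h4
    exact h4
  have hn3 : ∀ q, q / 3 = j → nxt q / 3 = j := fun q hq => (nxt_div q).trans hq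
  have hdd : ∀ q (hq : q / 3 = j), Used H π (X q hq, I1 q hq, true)
      (X (nxt q) (hn3 q hq), I0 (nxt q) (hn3 q hq), true) := by
    intro q hq
    apply hd
    rw [hH, redH_adj_tt]
    exact ⟨q, hqlt q hq, Or.inl ⟨rfl, rfl, rfl, rfl⟩⟩
  -- the set
  let S : Set (RV N φ.length) := {w | ∃ q, ∃ hq : q / 3 = j,
    w = (X q hq, I0 q hq, false) ∨ w = (X q hq, I1 q hq, false) ∨
    w = (X q hq, I0 q hq, true) ∨ w = (X q hq, I1 q hq, true)}
  have hSne : S.Nonempty := ⟨_, 3 * j, by omega, Or.inl rfl⟩
  obtain ⟨m, hmS, hmax⟩ := Set.exists_max_image S π (Set.toFinite S) hSne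
  have hI01 : ∀ q (hq : q / 3 = j), I0 q hq ≠ I1 q hq := by
    intro q hq h1
    have := congrArg Fin.val h1
    simp only [I0, I1] at this
    omega
  -- two different used neighbours
  have htwo : ∃ a ∈ S, ∃ b ∈ S, a ≠ b ∧ Used H π m a ∧ Used H π m b := by
    obtain ⟨q, hq, h1 | h1 | h1 | h1⟩ := hmS
    · refine ⟨(X q hq, I1 q hq, false), ⟨q, hq, by simp⟩, (X q hq, I0 q hq, true),
        ⟨q, hq, by simp⟩, by simp, ?_, ?_⟩
      · rw [h1]; exact hcc q hq
      · rw [h1]; exact hpend _ _
    · refine ⟨(X q hq, I0 q hq, false), ⟨q, hq, by simp⟩, (X q hq, I1 q hq, true),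
        ⟨q, hq, by simp⟩, by simp, ?_, ?_⟩
      · rw [h1]; exact (hcc q hq).symm'
      · rw [h1]; exact hpend _ _
    · have h3 := nxt_nxt_nxt q
      have hq' : nxt (nxt q) / 3 = j := (nxt_nxt_div q).trans hq
      refine ⟨(X q hq, I0 q hq, false), ⟨q, hq, by simp⟩,
        (X (nxt (nxt q)) hq', I1 (nxt (nxt q)) hq', true), ⟨_, hq', by simp⟩, by simp, ?_, ?_⟩
      · rw [h1]; exact (hpend _ _).symm'
      · rw [h1]
        have h4 := (hdd _ hq').symm'
        have h5 : ∀ r (hr : r / 3 = j), r = q → (X r hr, I0 r hr, true) =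
            ((X q hq, I0 q hq, true) : RV N φ.length) := by
          intro r hr hrq
          subst hrq
          rfl
        rw [h5 _ (hn3 _ hq') h3] at h4
        exact h4
    · refine ⟨(X q hq, I1 q hq, false), ⟨q, hq, by simp⟩,
        (X (nxt q) (hn3 q hq), I0 (nxt q) (hn3 q hq), true), ⟨_, hn3 q hq, by simp⟩,
        by simp, ?_, ?_⟩
      · rw [h1]; exact (hpend _ _).symm'
      · rw [h1]; exact hdd q hq
  obtain ⟨a, haS, b, hbS, hab, hua, hub⟩ := htwo
  have h1 := hmax a haS
  have h2 := hmax b hbS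
  apply hab
  apply hπ
  rcases hua.2 with h3 | h3 <;> rcases hub.2 with h4 | h4 <;> omega

end Pool.Agent.H77.BC
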