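import Pool.Agent.H77.BC.RedDefs

/-!
# Ordering lemma and completeness of the reduction
-/

set_option autoImplicit false

namespace Pool.Agent.H77.BC

open Pool.Agent.H78.NP

/-! ### The ordering lemma -/

section Order

variable {W : Type} [Finite W] {U : SimpleGraph W}

private lemma r2_three (h2 : ∀ v, (U.neighborSet v).ncard ≤ 2) {v a b c : W} (ha : U.Adj v a)
    (hb : U.Adj v b) (hc : U.Adj v c) (hab : a ≠ b) (hac : a ≠ c) (hbc : b ≠ c) : False := by
  have h1 : ({a, b, c} : Set W).ncard = 3 := Set.ncard_eq_three.mpr ⟨a, b, c, hab, hac, hbc, rfl⟩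
  have h3 : ({a, b, c} : Set W) ⊆ U.neighborSet v := by
    intro x hx
    simp only [Set.mem_insert_iff, Set.mem_singleton_iff] at hx
    rcases hx with rfl | rfl | rfl <;> assumption
  have h4 := Set.ncard_le_ncard h3 (Set.toFinite _)
  have h5 := h2 v
  omega

private lemma r2_two {v a b : W} (h1 : (U.neighborSet v).ncard ≤ 1) (ha : U.Adj v a)
    (hb : U.Adj v b) : a = b := by
  rw [Set.ncard_le_one (Set.toFinite _)] at h1
  exact h1 a ha b hb

private lemma r2_exists_leaf (h2 : ∀ v, (U.neighborSet v).ncard ≤ 2)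
    (hr : ∀ v, ∃ w, (U.neighborSet w).ncard ≤ 1 ∧ U.Reachable v w) (S : Finset W)
    (hS : S.Nonempty) : ∃ v ∈ S, ∀ a ∈ S, ∀ b ∈ S, U.Adj v a → U.Adj v b → a = b := by
  by_contra hcon
  push Not at hcon
  have hclosed : ∀ v ∈ S, ∀ w, U.Adj v w → w ∈ S := by
    intro v hv w hw
    obtain ⟨a, ha, b, hb, hva, hvb, hab⟩ := hcon v hv
    by_contra hwS
    have h3 : a ≠ w := fun h => hwS (h ▸ ha)
    have h4 : b ≠ w := fun h => hwS (h ▸ hb)
    exact r2_three h2 hva hvb hw hab h3 h4
  obtain ⟨v, hv⟩ := hS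
  obtain ⟨w, hw1, hw2⟩ := hr v
  have hwS : w ∈ S := by
    obtain ⟨p⟩ := hw2
    clear hw1
    induction p with
    | nil => exact hv
    | cons h p ih => exact ih (hclosed _ hv _ h)
  obtain ⟨a, ha, b, hb, hva, hvb, hab⟩ := hcon w hwS
  exact hab (r2_two hw1 hva hvb)

private lemma r2_order_aux (h2 : ∀ v, (U.neighborSet v).ncard ≤ 2)
    (hr : ∀ v, ∃ w, (U.neighborSet w).ncard ≤ 1 ∧ U.Reachable v w) (n : ℕ) :
    ∀ S : Finset W, S.card = n → ∃ π : W → ℕ, Set.InjOn π S ∧
      ∀ a ∈ S, ∀ b ∈ S, U.Adj a b → π a = π b + 1 ∨ π b = π a + 1 := by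
  classical
  induction n with
  | zero =>
    intro S hS
    rw [Finset.card_eq_zero] at hS
    subst hS
    exact ⟨fun _ => 0, by simp, by simp⟩
  | succ n ih =>
    intro S hS
    have hne : S.Nonempty := by
      rw [← Finset.card_pos]
      omega
    obtain ⟨v, hvS, hv⟩ := r2_exists_leaf h2 hr S hne
    obtain ⟨π, hinj, hadj⟩ := ih (S.erase v) (by rw [Finset.card_erase_of_mem hvS]; omega)
    by_cases hex : ∃ w ∈ S, U.Adj v w
    · obtain ⟨w, hwS, hvw⟩ := hex
      have hwv : w ≠ v := hvw.ne'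
      have hwE : w ∈ S.erase v := Finset.mem_erase.mpr ⟨hwv, hwS⟩
      have huniq : ∀ a ∈ S.erase v, ∀ b ∈ S.erase v, U.Adj w a → U.Adj w b → a = b := by
        intro a ha b hb hwa hwb
        by_contra hab
        exact r2_three h2 hvw.symm hwa hwb (Finset.ne_of_mem_erase ha).symm
          (Finset.ne_of_mem_erase hb).symm hab
      have honly : ∀ a ∈ S, U.Adj v a → a = w := fun a ha h => hv a ha w hwS h hvw
      by_cases hc : ∃ a ∈ S.erase v, U.Adj w a ∧ π a = π w + 1
      · -- insert `v` before `w`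
        obtain ⟨a, haE, hwa, haπ⟩ := hc
        refine ⟨fun x => if x = v then π w else if π x < π w then π x else π x + 1, ?_, ?_⟩
        · intro x hx y hy hxy
          simp only at hxy
          by_cases hxv : x = v
          · by_cases hyv : y = v
            · rw [hxv, hyv]
            · exfalso
              rw [if_pos hxv, if_neg hyv] at hxy
              split_ifs at hxy <;> omega
          · by_cases hyv : y = v
            · exfalso
              rw [if_neg hxv, if_pos hyv] at hxy
              split_ifs at hxy <;> omega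
            · rw [if_neg hxv, if_neg hyv] at hxy
              apply hinj (Finset.mem_coe.mpr (Finset.mem_erase.mpr ⟨hxv, hx⟩))
                (Finset.mem_coe.mpr (Finset.mem_erase.mpr ⟨hyv, hy⟩))
              split_ifs at hxy <;> omega
        · have key : ∀ x ∈ S, ∀ y ∈ S, U.Adj x y → x ≠ v → y ≠ v → π x = π y + 1 →
              (if π x < π w then π x else π x + 1) = (if π y < π w then π y else π y + 1) + 1 := by
            intro x hx y hy hxy hxv hyv hπ
            have hxE := Finset.mem_erase.mpr ⟨hxv, hx⟩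
            have hyE := Finset.mem_erase.mpr ⟨hyv, hy⟩
            by_cases hbad : π y < π w ∧ ¬ π x < π w
            · exfalso
              have hxw : x = w := hinj (Finset.mem_coe.mpr hxE) (Finset.mem_coe.mpr hwE) (by omega)
              subst hxw
              have := huniq y hyE a haE hxy hwa
              subst this
              omega
            · split_ifs <;> omega
          intro x hx y hy hxy
          simp only
          by_cases hxv : x = v
          · subst hxv
            have hyw := honly y hy hxy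
            subst hyw
            rw [if_pos rfl, if_neg hwv, if_neg (lt_irrefl _)]
            right
            trivial
          · by_cases hyv : y = v
            · subst hyv
              have hxw := honly x hx hxy.symm
              subst hxw
              rw [if_pos rfl, if_neg hwv, if_neg (lt_irrefl _)]
              left
              trivial
            · rw [if_neg hxv, if_neg hyv]
              rcases hadj x (Finset.mem_erase.mpr ⟨hxv, hx⟩) y (Finset.mem_erase.mpr ⟨hyv, hy⟩) hxy
                with h | h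
              · left
                exact key x hx y hy hxy hxv hyv h
              · right
                exact key y hy x hx hxy.symm hyv hxv h
      · -- insert `v` after `w`
        push Not at hc
        refine ⟨fun x => if x = v then π w + 1 else if π x ≤ π w then π x else π x + 1, ?_, ?_⟩
        · intro x hx y hy hxy
          simp only at hxy
          by_cases hxv : x = v
          · by_cases hyv : y = v
            · rw [hxv, hyv]
            · exfalso
              rw [if_pos hxv, if_neg hyv] at hxy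
              split_ifs at hxy <;> omega
          · by_cases hyv : y = v
            · exfalso
              rw [if_neg hxv, if_pos hyv] at hxy
              split_ifs at hxy <;> omega
            · rw [if_neg hxv, if_neg hyv] at hxy
              apply hinj (Finset.mem_coe.mpr (Finset.mem_erase.mpr ⟨hxv, hx⟩))
                (Finset.mem_coe.mpr (Finset.mem_erase.mpr ⟨hyv, hy⟩))
              split_ifs at hxy <;> omega
        · have key : ∀ x ∈ S, ∀ y ∈ S, U.Adj x y → x ≠ v → y ≠ v → π x = π y + 1 →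
              (if π x ≤ π w then π x else π x + 1) = (if π y ≤ π w then π y else π y + 1) + 1 := by
            intro x hx y hy hxy hxv hyv hπ
            have hxE := Finset.mem_erase.mpr ⟨hxv, hx⟩
            have hyE := Finset.mem_erase.mpr ⟨hyv, hy⟩
            by_cases hbad : π y ≤ π w ∧ ¬ π x ≤ π w
            · exfalso
              have hyw : y = w := hinj (Finset.mem_coe.mpr hyE) (Finset.mem_coe.mpr hwE) (by omega)
              subst hyw
              exact hc x hxE hxy.symm hπ
            · split_ifs <;> omega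
          intro x hx y hy hxy
          simp only
          by_cases hxv : x = v
          · subst hxv
            have hyw := honly y hy hxy
            subst hyw
            rw [if_pos rfl, if_neg hwv, if_pos le_rfl]
            left
            trivial
          · by_cases hyv : y = v
            · subst hyv
              have hxw := honly x hx hxy.symm
              subst hxw
              rw [if_pos rfl, if_neg hwv, if_pos le_rfl]
              right
              trivial
            · rw [if_neg hxv, if_neg hyv]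
              rcases hadj x (Finset.mem_erase.mpr ⟨hxv, hx⟩) y (Finset.mem_erase.mpr ⟨hyv, hy⟩) hxy
                with h | h
              · left
                exact key x hx y hy hxy hxv hyv h
              · right
                exact key y hy x hx hxy.symm hyv hxv h
    · -- no neighbour
      push Not at hex
      obtain ⟨m, hm⟩ : ∃ m, ∀ x, π x < m := by
        obtain ⟨m, hm⟩ := (Set.finite_range π).bddAbove
        exact ⟨m + 1, fun x => Nat.lt_succ_of_le (hm (Set.mem_range_self x))⟩
      refine ⟨fun x => if x = v then m else π x, ?_, ?_⟩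
      · intro x hx y hy hxy
        simp only at hxy
        have h3 := hm x
        have h4 := hm y
        by_cases hxv : x = v
        · by_cases hyv : y = v
          · rw [hxv, hyv]
          · exfalso
            rw [if_pos hxv, if_neg hyv] at hxy
            omega
        · by_cases hyv : y = v
          · exfalso
            rw [if_neg hxv, if_pos hyv] at hxy
            omega
          · rw [if_neg hxv, if_neg hyv] at hxy
            exact hinj (Finset.mem_coe.mpr (Finset.mem_erase.mpr ⟨hxv, hx⟩))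
              (Finset.mem_coe.mpr (Finset.mem_erase.mpr ⟨hyv, hy⟩)) hxy
      · intro x hx y hy hxy
        have hxv : x ≠ v := fun h => hex y hy (h ▸ hxy)
        have hyv : y ≠ v := fun h => hex x hx (h ▸ hxy.symm)
        simp only [if_neg hxv, if_neg hyv]
        exact hadj x (Finset.mem_erase.mpr ⟨hxv, hx⟩) y (Finset.mem_erase.mpr ⟨hyv, hy⟩) hxy

theorem exists_order {W : Type} [Finite W] (U : SimpleGraph W)
    (h2 : ∀ v, (U.neighborSet v).ncard ≤ 2)
    (hr : ∀ v, ∃ w, (U.neighborSet w).ncard ≤ 1 ∧ U.Reachable v w) :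
    ∃ π : W → ℕ, Function.Injective π ∧ ∀ v w, U.Adj v w → π v = π w + 1 ∨ π w = π v + 1 := by
  classical
  have := Fintype.ofFinite W
  obtain ⟨π, h3, h4⟩ := r2_order_aux h2 hr _ Finset.univ rfl
  refine ⟨π, ?_, fun v w => h4 v (Finset.mem_univ _) w (Finset.mem_univ _)⟩
  rw [Finset.coe_univ, Set.injOn_univ] at h3
  exact h3

end Order

/-! ### Description of the graph -/

section Desc

variable {φ : List Cl} {N : ℕ}

lemma r2_adj_ff {x y : Fin N} {i j : Fin (12 * φ.length)} :
    (redH φ N).Adj (x, i, false) (y, j, false) ↔ x = y ∧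
      ((j : ℕ) = ((i : ℕ) + 1) % (12 * φ.length) ∨ (i : ℕ) = ((j : ℕ) + 1) % (12 * φ.length)) := by
  have hi := i.2
  have hj := j.2
  rw [redH, SimpleGraph.fromRel_adj]
  simp only [redRel, Bool.false_eq_true, false_and, and_false, or_false, false_or, true_and]
  constructor
  · rintro ⟨-, ⟨h1, h2⟩ | ⟨h1, h2⟩⟩
    · exact ⟨h1, Or.inl h2⟩
    · exact ⟨h1.symm, Or.inr h2⟩
  · rintro ⟨rfl, h⟩
    refine ⟨?_, ?_⟩
    · intro he
      have hij : i = j := by
        simpa using he
      subst hij
      have h' : (i : ℕ) = ((i : ℕ) + 1) % (12 * φ.length) := by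
        rcases h with h | h <;> exact h
      by_cases h3 : (i : ℕ) + 1 < 12 * φ.length
      · rw [Nat.mod_eq_of_lt h3] at h'
        omega
      · have h4 : (i : ℕ) + 1 = 12 * φ.length := by omega
        rw [h4, Nat.mod_self] at h'
        omega
    · rcases h with h | h
      · exact Or.inl ⟨rfl, h⟩
      · exact Or.inr ⟨rfl, h⟩

lemma r2_adj_ft {x y : Fin N} {i j : Fin (12 * φ.length)} :
    (redH φ N).Adj (x, i, false) (y, j, true) ↔ x = y ∧ i = j := by
  rw [redH, SimpleGraph.fromRel_adj]
  simp [redRel]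

/-- the clause edges -/
def r2_C (φ : List Cl) (a i b j : ℕ) : Prop :=
  ∃ q < 3 * φ.length, a = (lit φ q).1 ∧ i = prt φ q + 1 ∧ b = (lit φ (nxt q)).1 ∧
    j = prt φ (nxt q)

lemma r2_adj_tt {x y : Fin N} {i j : Fin (12 * φ.length)} :
    (redH φ N).Adj (x, i, true) (y, j, true) ↔ (x, i) ≠ (y, j) ∧
      (r2_C φ x i y j ∨ r2_C φ y j x i) := by
  rw [redH, SimpleGraph.fromRel_adj]
  simp only [redRel, r2_C, Bool.true_eq_false, false_and, and_false, false_or, true_and,
    ne_eq, Prod.mk.injEq, and_true]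

lemma r2_prt_bounds (φ : List Cl) (q : ℕ) : 4 * q ≤ prt φ q ∧ prt φ q ≤ 4 * q + 1 := by
  unfold prt
  split_ifs <;> omega

lemma r2_nxt_lt {q M : ℕ} (h : q < 3 * M) : nxt q < 3 * M := by
  unfold nxt
  split_ifs <;> omega

lemma r2_nxt_inj {q q' : ℕ} (h : nxt q = nxt q') : q = q' := by
  unfold nxt at h
  split_ifs at h <;> omega

end Desc

/-! ### The subgraph of the used edges -/

/-- the partner of `i` on the cycle of length `R` of a variable with value `b` -/
def r2_p (b : Bool) (R i : ℕ) : ℕ :=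
  if b = true then (if i % 2 = 1 then (if i + 1 = R then 0 else i + 1)
    else (if i = 0 then R - 1 else i - 1))
  else (if i % 2 = 0 then i + 1 else i - 1)

lemma r2_p_lt {b : Bool} {R i : ℕ} (hR : R % 2 = 0) (hi : i < R) : r2_p b R i < R := by
  unfold r2_p
  split_ifs <;> omega

lemma r2_p_p {b : Bool} {R i : ℕ} (hR : R % 2 = 0) (hi : i < R) : r2_p b R (r2_p b R i) = i := by
  obtain ⟨j, hj⟩ : ∃ j, j = r2_p b R i := ⟨_, rfl⟩
  rw [← hj]
  unfold r2_p at hj ⊢
  split_ifs at hj ⊢ <;> omega

lemma r2_p_ne {b : Bool} {R i : ℕ} (hR : R % 2 = 0) (hi : i < R) : r2_p b R i ≠ i := by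
  unfold r2_p
  split_ifs <;> omega

lemma r2_p_adj {b : Bool} {R i : ℕ} (hR : R % 2 = 0) (hi : i < R) :
    r2_p b R i = (i + 1) % R ∨ i = (r2_p b R i + 1) % R := by
  have key : ∀ k, k < R → (k + 1) % R = if k + 1 = R then 0 else k + 1 := by
    intro k hk
    split_ifs with h
    · rw [h, Nat.mod_self]
    · exact Nat.mod_eq_of_lt (by omega)
  rw [key i hi, key _ (r2_p_lt hR hi)]
  unfold r2_p
  split_ifs <;> omega

section Used

variable {φ : List Cl} {N : ℕ}

/-- the graph of the used edges -/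
def r2_U (φ : List Cl) (N : ℕ) (v : ℕ → Bool) : SimpleGraph (RV N φ.length) where
  Adj u w := (redH φ N).Adj u w ∧ (u.2.2 = false → w.2.2 = false →
    (w.2.1 : ℕ) = r2_p (v u.1) (12 * φ.length) u.2.1)
  symm := ⟨by
    rintro ⟨x, i, b⟩ ⟨y, j, b'⟩ ⟨h1, h2⟩
    refine ⟨h1.symm, ?_⟩
    simp only at h2 ⊢
    intro hb' hb
    subst hb hb'
    have h3 := h2 rfl rfl
    have h4 := (r2_adj_ff.mp h1).1
    subst h4
    rw [h3, r2_p_p (by omega) i.2]⟩
  loopless := ⟨by
    rintro u ⟨h, -⟩
    exact (redH φ N).loopless.irrefl u h⟩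

variable {v : ℕ → Bool}

lemma r2_U_ff {x y : Fin N} {i j : Fin (12 * φ.length)} :
    (r2_U φ N v).Adj (x, i, false) (y, j, false) ↔ x = y ∧
      (j : ℕ) = r2_p (v x) (12 * φ.length) i := by
  show (redH φ N).Adj _ _ ∧ (false = false → false = false → (j : ℕ) = _) ↔ _
  rw [r2_adj_ff]
  constructor
  · rintro ⟨⟨h1, -⟩, h2⟩
    exact ⟨h1, h2 rfl rfl⟩
  · rintro ⟨h1, h2⟩
    refine ⟨⟨h1, ?_⟩, fun _ _ => h2⟩
    rw [h2]
    exact r2_p_adj (by omega) i.2

lemma r2_U_ft {x y : Fin N} {i j : Fin (12 * φ.length)} :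
    (r2_U φ N v).Adj (x, i, false) (y, j, true) ↔ x = y ∧ i = j := by
  show (redH φ N).Adj _ _ ∧ (false = false → true = false → _) ↔ _
  rw [r2_adj_ft]
  simp

lemma r2_U_t {x : Fin N} {i : Fin (12 * φ.length)} {w : RV N φ.length} :
    (r2_U φ N v).Adj (x, i, true) w ↔ (redH φ N).Adj (x, i, true) w := by
  show (redH φ N).Adj _ _ ∧ (true = false → _) ↔ _
  simp

/-- a neighbour `d` of a `d` is unique -/
lemma r2_tt_unique {x y y' : Fin N} {i j j' : Fin (12 * φ.length)}
    (h : (redH φ N).Adj (x, i, true) (y, j, true)) (h' : (redH φ N).Adj (x, i, true) (y', j', true)) :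
    (y, j) = (y', j') := by
  rw [r2_adj_tt] at h h'
  obtain ⟨-, ⟨q, hq, e1, e2, e3, e4⟩ | ⟨q, hq, e1, e2, e3, e4⟩⟩ := h <;>
  obtain ⟨-, ⟨q', hq', f1, f2, f3, f4⟩ | ⟨q', hq', f1, f2, f3, f4⟩⟩ := h'
  · have b1 := r2_prt_bounds φ q
    have b2 := r2_prt_bounds φ q'
    have : q = q' := by omega
    subst this
    ext
    · simp only; omega
    · simp only; omega
  · exfalso
    have b1 := r2_prt_bounds φ q
    have b2 := r2_prt_bounds φ (nxt q')
    have : q = nxt q' := by omega
    rw [← this] at f4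
    omega
  · exfalso
    have b1 := r2_prt_bounds φ (nxt q)
    have b2 := r2_prt_bounds φ q'
    have : nxt q = q' := by omega
    rw [this] at e4
    omega
  · have b1 := r2_prt_bounds φ (nxt q)
    have b2 := r2_prt_bounds φ (nxt q')
    have h5 : nxt q = nxt q' := by omega
    have : q = q' := r2_nxt_inj h5
    subst this
    ext
    · simp only; omega
    · simp only; omega

/-- neighbours of a `c` in `U` -/
lemma r2_U_c (x : Fin N) (i : Fin (12 * φ.length)) :
    ∃ j : Fin (12 * φ.length), (j : ℕ) = r2_p (v x) (12 * φ.length) i ∧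
      (r2_U φ N v).neighborSet (x, i, false) = {(x, i, true), (x, j, false)} := by
  refine ⟨⟨r2_p (v x) (12 * φ.length) i, r2_p_lt (by omega) i.2⟩, rfl, ?_⟩
  ext ⟨y, j, b⟩
  rw [SimpleGraph.mem_neighborSet, Set.mem_insert_iff, Set.mem_singleton_iff]
  cases b
  · rw [r2_U_ff]
    simp only [Prod.mk.injEq, Fin.ext_iff]
    constructor
    · rintro ⟨h1, h2⟩
      right
      exact ⟨h1.symm, h2, trivial⟩
    · rintro (⟨-, -, h3⟩ | ⟨h1, h2, -⟩)
      · exact absurd h3 (by simp)
      · exact ⟨h1.symm, h2⟩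
  · rw [r2_U_ft]
    simp only [Prod.mk.injEq, Fin.ext_iff]
    constructor
    · rintro ⟨h1, h2⟩
      left
      exact ⟨h1.symm, h2.symm, trivial⟩
    · rintro (⟨h1, h2, -⟩ | ⟨-, -, h3⟩)
      · exact ⟨h1.symm, h2.symm⟩
      · exact absurd h3 (by simp)

lemma r2_U_c_ncard (x : Fin N) (i : Fin (12 * φ.length)) :
    ((r2_U φ N v).neighborSet (x, i, false)).ncard = 2 := by
  obtain ⟨j, -, h⟩ := r2_U_c (v := v) x i
  rw [h]
  apply Set.ncard_pair
  simp

lemma r2_U_t_set (x : Fin N) (i : Fin (12 * φ.length)) :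
    (r2_U φ N v).neighborSet (x, i, true) = (redH φ N).neighborSet (x, i, true) := by
  ext w
  exact r2_U_t

lemma r2_redH_d_sub (x : Fin N) (i : Fin (12 * φ.length)) :
    ∃ w, (redH φ N).neighborSet (x, i, true) ⊆ {(x, i, false), w} := by
  by_cases hex : ∃ y j, (redH φ N).Adj (x, i, true) (y, j, true)
  · obtain ⟨y, j, h⟩ := hex
    refine ⟨(y, j, true), ?_⟩
    rintro ⟨y', j', b⟩ h'
    rw [SimpleGraph.mem_neighborSet] at h'
    rw [Set.mem_insert_iff, Set.mem_singleton_iff]
    cases b
    · left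
      obtain ⟨rfl, rfl⟩ := r2_adj_ft.mp h'.symm
      rfl
    · right
      have := r2_tt_unique h' h
      simp only [Prod.mk.injEq] at this
      rw [this.1, this.2]
  · push Not at hex
    refine ⟨(x, i, false), ?_⟩
    rintro ⟨y', j', b⟩ h'
    rw [SimpleGraph.mem_neighborSet] at h'
    rw [Set.mem_insert_iff, Set.mem_singleton_iff]
    cases b
    · left
      obtain ⟨rfl, rfl⟩ := r2_adj_ft.mp h'.symm
      rfl
    · exact absurd h' (hex y' j')

lemma r2_U_le_two (w : RV N φ.length) : ((r2_U φ N v).neighborSet w).ncard ≤ 2 := by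
  obtain ⟨x, i, b⟩ := w
  cases b
  · exact (r2_U_c_ncard x i).le
  · rw [r2_U_t_set]
    obtain ⟨w, hw⟩ := r2_redH_d_sub x i
    refine (Set.ncard_le_ncard hw (Set.toFinite _)).trans ?_
    exact (Set.ncard_insert_le _ _).trans (by simp)

/-- `u` reaches a leaf -/
def r2_OK (φ : List Cl) (N : ℕ) (v : ℕ → Bool) (u : RV N φ.length) : Prop :=
  ∃ w, ((r2_U φ N v).neighborSet w).ncard ≤ 1 ∧ (r2_U φ N v).Reachable u w

lemma r2_OK_adj {u u' : RV N φ.length} (h : (r2_U φ N v).Adj u u') (h' : r2_OK φ N v u') :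
    r2_OK φ N v u := by
  obtain ⟨w, h1, h2⟩ := h'
  exact ⟨w, h1, h.reachable.trans h2⟩

lemma r2_OK_c {x : Fin N} {i : Fin (12 * φ.length)} :
    r2_OK φ N v (x, i, false) ↔ r2_OK φ N v (x, i, true) := by
  have h : (r2_U φ N v).Adj (x, i, false) (x, i, true) := r2_U_ft.mpr ⟨rfl, rfl⟩
  exact ⟨r2_OK_adj h.symm, r2_OK_adj h⟩

lemma r2_OK_p {x : Fin N} {i j : Fin (12 * φ.length)}
    (hj : (j : ℕ) = r2_p (v x) (12 * φ.length) i) (h : r2_OK φ N v (x, j, true)) :
    r2_OK φ N v (x, i, true) := by
  rw [← r2_OK_c] at h ⊢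
  exact r2_OK_adj (r2_U_ff.mpr ⟨rfl, hj⟩) h

/-- a position which is not a port -/
lemma r2_OK_nonport {x : Fin N} {i : Fin (12 * φ.length)}
    (h : ∀ q < 3 * φ.length, (x : ℕ) = (lit φ q).1 → (i : ℕ) ≠ prt φ q ∧ (i : ℕ) ≠ prt φ q + 1) :
    r2_OK φ N v (x, i, true) := by
  refine ⟨_, ?_, SimpleGraph.Reachable.refl _⟩
  have : (r2_U φ N v).neighborSet (x, i, true) ⊆ {(x, i, false)} := by
    rintro ⟨y, j, b⟩ h'
    rw [SimpleGraph.mem_neighborSet, r2_U_t] at h'
    rw [Set.mem_singleton_iff]
    cases b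
    · obtain ⟨rfl, rfl⟩ := r2_adj_ft.mp h'.symm
      rfl
    · exfalso
      rw [r2_adj_tt] at h'
      obtain ⟨-, ⟨q, hq, e1, e2, e3, e4⟩ | ⟨q, hq, e1, e2, e3, e4⟩⟩ := h'
      · exact (h q hq e1).2 e2
      · exact (h (nxt q) (r2_nxt_lt hq) e3).1 e4
  exact (Set.ncard_le_ncard this (Set.toFinite _)).trans (by simp)

/-- `OK` for the position `i` of the variable `a` -/
def r2_OKn (φ : List Cl) (N : ℕ) (v : ℕ → Bool) (a i : ℕ) : Prop :=
  ∀ (ha : a < N) (hi : i < 12 * φ.length), r2_OK φ N v (⟨a, ha⟩, ⟨i, hi⟩, true)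

lemma r2_OKn_p {a i : ℕ} (hi : i < 12 * φ.length)
    (h : r2_OKn φ N v a (r2_p (v a) (12 * φ.length) i)) : r2_OKn φ N v a i := by
  intro ha _
  exact r2_OK_p (j := ⟨_, r2_p_lt (by omega) hi⟩) rfl (h ha _)

lemma r2_OKn_nonport {a i : ℕ}
    (h : ∀ q < 3 * φ.length, a = (lit φ q).1 → i ≠ prt φ q ∧ i ≠ prt φ q + 1) :
    r2_OKn φ N v a i := by
  intro ha hi
  exact r2_OK_nonport h

lemma r2_adj_clause {q : ℕ} (hq : q < 3 * φ.length) (ha : (lit φ q).1 < N)
    (hi : prt φ q + 1 < 12 * φ.length) (ha' : (lit φ (nxt q)).1 < N)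
    (hi' : prt φ (nxt q) < 12 * φ.length) :
    (r2_U φ N v).Adj (⟨(lit φ q).1, ha⟩, ⟨prt φ q + 1, hi⟩, true)
      (⟨(lit φ (nxt q)).1, ha'⟩, ⟨prt φ (nxt q), hi'⟩, true) := by
  rw [r2_U_t, r2_adj_tt]
  refine ⟨?_, Or.inl ⟨q, hq, rfl, rfl, rfl, rfl⟩⟩
  intro h
  simp only [Prod.mk.injEq, Fin.mk.injEq] at h
  have b1 := r2_prt_bounds φ q
  have b2 := r2_prt_bounds φ (nxt q)
  have h3 : nxt q ≠ q := by
    unfold nxt
    split_ifs <;> omega
  omega

lemma r2_prt_lt {q : ℕ} (hq : q < 3 * φ.length) : prt φ q + 1 < 12 * φ.length := by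
  have b1 := r2_prt_bounds φ q
  omega

lemma r2_clause_iff (hφ : ∀ q < 3 * φ.length, (lit φ q).1 < N) {q : ℕ} (hq : q < 3 * φ.length) :
    r2_OKn φ N v (lit φ q).1 (prt φ q + 1) ↔
      r2_OKn φ N v (lit φ (nxt q)).1 (prt φ (nxt q)) := by
  have hq' := r2_nxt_lt hq
  have hi' : prt φ (nxt q) < 12 * φ.length := by
    have := r2_prt_lt hq'
    omega
  have hadj := r2_adj_clause (v := v) hq (hφ q hq) (r2_prt_lt hq) (hφ _ hq') hi'
  constructor
  · intro h _ _
    exact r2_OK_adj hadj.symm (h (hφ q hq) (r2_prt_lt hq))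
  · intro h _ _
    exact r2_OK_adj hadj (h (hφ _ hq') hi')

lemma r2_true {q : ℕ} (hq : q < 3 * φ.length) (h : v (lit φ q).1 = (lit φ q).2) :
    r2_OKn φ N v (lit φ q).1 (prt φ q) ∧ r2_OKn φ N v (lit φ q).1 (prt φ q + 1) := by
  have hlt := r2_prt_lt hq
  constructor
  · apply r2_OKn_p (by omega)
    apply r2_OKn_nonport
    intro q' hq' _
    have b2 := r2_prt_bounds φ q'
    rw [h]
    rcases hb : (lit φ q).2 with _ | _
    · have h3 : prt φ q = 4 * q + 1 := by simp [prt, hb]
      have h4 : r2_p false (12 * φ.length) (prt φ q) = 4 * q := by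
        rw [h3]
        unfold r2_p
        simp only [Bool.false_eq_true, if_false]
        split_ifs <;> omega
      rw [h4]
      constructor
      · intro h5
        have : q' = q := by omega
        subst this
        omega
      · omega
    · have h3 : prt φ q = 4 * q := by simp [prt, hb]
      have h4 : r2_p true (12 * φ.length) (prt φ q) % 4 = 3 := by
        rw [h3]
        unfold r2_p
        simp only [if_true]
        split_ifs <;> omega
      constructor <;> omega
  · apply r2_OKn_p (by omega)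
    apply r2_OKn_nonport
    intro q' hq' _
    have b2 := r2_prt_bounds φ q'
    rw [h]
    rcases hb : (lit φ q).2 with _ | _
    · have h3 : prt φ q = 4 * q + 1 := by simp [prt, hb]
      have h4 : r2_p false (12 * φ.length) (prt φ q + 1) = 4 * q + 3 := by
        rw [h3]
        unfold r2_p
        simp only [Bool.false_eq_true, if_false]
        split_ifs <;> omega
      rw [h4]
      constructor <;> omega
    · have h3 : prt φ q = 4 * q := by simp [prt, hb]
      have h4 : r2_p true (12 * φ.length) (prt φ q + 1) = 4 * q + 2 := by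
        rw [h3]
        unfold r2_p
        simp only [if_true]
        split_ifs <;> omega
      rw [h4]
      constructor
      · omega
      · intro h5
        have : q' = q := by omega
        subst this
        omega

lemma r2_false {q : ℕ} (hq : q < 3 * φ.length) (h : v (lit φ q).1 ≠ (lit φ q).2) :
    r2_OKn φ N v (lit φ q).1 (prt φ q) ↔ r2_OKn φ N v (lit φ q).1 (prt φ q + 1) := by
  have hlt := r2_prt_lt hq
  have key : r2_p (v (lit φ q).1) (12 * φ.length) (prt φ q) = prt φ q + 1 := by
    rcases hb : (lit φ q).2 with _ | _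
    · have h3 : prt φ q = 4 * q + 1 := by simp [prt, hb]
      have hv : v (lit φ q).1 = true := by
        rw [hb] at h
        simpa using h
      rw [hv, h3]
      unfold r2_p
      simp only [if_true]
      split_ifs <;> omega
    · have h3 : prt φ q = 4 * q := by simp [prt, hb]
      have hv : v (lit φ q).1 = false := by
        rw [hb] at h
        simpa using h
      rw [hv, h3]
      unfold r2_p
      simp only [Bool.false_eq_true, if_false]
      split_ifs <;> omega
  have key' : r2_p (v (lit φ q).1) (12 * φ.length) (prt φ q + 1) = prt φ q := by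
    rw [← key, r2_p_p (by omega) (by omega)]
  constructor
  · intro h'
    apply r2_OKn_p hlt
    rw [key']
    exact h'
  · intro h'
    apply r2_OKn_p (by omega)
    rw [key]
    exact h'

lemma r2_ports (hφ : ∀ q < 3 * φ.length, (lit φ q).1 < N) (hv : ∀ c ∈ φ, Cl.Sat v c) {q : ℕ}
    (hq : q < 3 * φ.length) :
    r2_OKn φ N v (lit φ q).1 (prt φ q) ∧ r2_OKn φ N v (lit φ q).1 (prt φ q + 1) := by
  obtain ⟨j, hj⟩ : ∃ j, j = q / 3 := ⟨_, rfl⟩
  have hjM : j < φ.length := by omega
  -- the two-port statements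
  have hA : ∀ k, k < 3 * φ.length → (r2_OKn φ N v (lit φ k).1 (prt φ k) ↔
      r2_OKn φ N v (lit φ k).1 (prt φ k + 1)) := by
    intro k hk
    by_cases h : v (lit φ k).1 = (lit φ k).2
    · have := r2_true (N := N) hk h
      exact ⟨fun _ => this.2, fun _ => this.1⟩
    · exact r2_false hk h
  have n0 : nxt (3 * j) = 3 * j + 1 := by unfold nxt; split_ifs <;> omega
  have n1 : nxt (3 * j + 1) = 3 * j + 2 := by unfold nxt; split_ifs <;> omega
  have n2 : nxt (3 * j + 2) = 3 * j := by unfold nxt; split_ifs <;> omega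
  have c0 := r2_clause_iff (v := v) hφ (q := 3 * j) (by omega)
  have c1 := r2_clause_iff (v := v) hφ (q := 3 * j + 1) (by omega)
  have c2 := r2_clause_iff (v := v) hφ (q := 3 * j + 2) (by omega)
  rw [n0] at c0
  rw [n1] at c1
  rw [n2] at c2
  have a0 := hA (3 * j) (by omega)
  have a1 := hA (3 * j + 1) (by omega)
  have a2 := hA (3 * j + 2) (by omega)
  have hsat := hv (φ[j]) (List.getElem_mem hjM)
  have l0 : lit φ (3 * j) = (φ[j]).1 := by
    have e1 : (3 * j) / 3 = j := by omega
    have e2 : (3 * j) % 3 = 0 := by omega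
    simp only [lit, e1, e2, if_true, List.getD_eq_getElem _ _ hjM]
  have l1 : lit φ (3 * j + 1) = (φ[j]).2.1 := by
    have e1 : (3 * j + 1) / 3 = j := by omega
    have e2 : (3 * j + 1) % 3 = 1 := by omega
    simp [lit, e1, e2, hjM]
  have l2 : lit φ (3 * j + 2) = (φ[j]).2.2 := by
    have e1 : (3 * j + 2) / 3 = j := by omega
    have e2 : (3 * j + 2) % 3 = 2 := by omega
    simp [lit, e1, e2, hjM]
  have hone : r2_OKn φ N v (lit φ (3 * j)).1 (prt φ (3 * j)) ∨
      r2_OKn φ N v (lit φ (3 * j + 1)).1 (prt φ (3 * j + 1)) ∨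
      r2_OKn φ N v (lit φ (3 * j + 2)).1 (prt φ (3 * j + 2)) := by
    unfold Cl.Sat at hsat
    rcases hsat with h | h | h
    · rw [← l0] at h
      exact Or.inl (r2_true (by omega) h).1
    · rw [← l1] at h
      exact Or.inr (Or.inl (r2_true (by omega) h).1)
    · rw [← l2] at h
      exact Or.inr (Or.inr (r2_true (by omega) h).1)
  have t0 : r2_OKn φ N v (lit φ (3 * j)).1 (prt φ (3 * j)) := by
    rcases hone with h | h | h
    · exact h
    · exact a0.mpr (c0.mpr h)
    · exact a0.mpr (c0.mpr (a1.mpr (c1.mpr h)))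
  have t1 := c0.mp (a0.mp t0)
  have t2 := c1.mp (a1.mp t1)
  have hcase : q = 3 * j ∨ q = 3 * j + 1 ∨ q = 3 * j + 2 := by omega
  clear hj
  rcases hcase with rfl | rfl | rfl
  · exact ⟨t0, a0.mp t0⟩
  · exact ⟨t1, a1.mp t1⟩
  · exact ⟨t2, a2.mp t2⟩

lemma r2_all_OK (hφ : ∀ q < 3 * φ.length, (lit φ q).1 < N) (hv : ∀ c ∈ φ, Cl.Sat v c)
    (u : RV N φ.length) : r2_OK φ N v u := by
  obtain ⟨x, i, b⟩ := u
  have key : r2_OK φ N v (x, i, true) := by
    by_cases h : ∀ q < 3 * φ.length, (x : ℕ) = (lit φ q).1 →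
        (i : ℕ) ≠ prt φ q ∧ (i : ℕ) ≠ prt φ q + 1
    · exact r2_OK_nonport h
    · push Not at h
      obtain ⟨q, hq, hx, hi⟩ := h
      obtain ⟨h1, h2⟩ := r2_ports hφ hv hq
      by_cases hi1 : (i : ℕ) = prt φ q
      · have := h1 (hφ q hq) (by have := r2_prt_lt hq; omega)
        have e1 : x = ⟨(lit φ q).1, hφ q hq⟩ := Fin.ext hx
        have e2 : i = ⟨prt φ q, by have := r2_prt_lt hq; omega⟩ := Fin.ext hi1
        rw [e1, e2]
        exact this
      · have hi2 := hi hi1
        have := h2 (hφ q hq) (r2_prt_lt hq)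
        have e1 : x = ⟨(lit φ q).1, hφ q hq⟩ := Fin.ext hx
        have e2 : i = ⟨prt φ q + 1, r2_prt_lt hq⟩ := Fin.ext hi2
        rw [e1, e2]
        exact this
  cases b
  · exact r2_OK_c.mpr key
  · exact key

end Used

theorem goodOrder_of_sat {φ : List Cl} {N : ℕ} (hφ : ∀ q < 3 * φ.length, (lit φ q).1 < N)
    (h : Sat3 φ) : ∃ π : RV N φ.length → ℕ, Function.Injective π ∧ GoodOrder (redH φ N) π := by
  obtain ⟨v, hv⟩ := h
  obtain ⟨π, hπ, hadj⟩ := exists_order (r2_U φ N v) r2_U_le_two (r2_all_OK hφ hv)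
  refine ⟨π, hπ, ?_⟩
  intro w
  have h1 : ((r2_U φ N v).neighborSet w).ncard ≤ nextCount (redH φ N) π w := by
    apply Set.ncard_le_ncard _ (Set.toFinite _)
    intro u hu
    refine ⟨hu.1, ?_⟩
    rcases hadj w u hu with h | h
    · exact Or.inr h
    · exact Or.inl h
  refine le_trans ?_ h1
  obtain ⟨x, i, b⟩ := w
  cases b
  · rw [r2_U_c_ncard]
    exact min_le_left _ _
  · rw [r2_U_t_set]
    exact min_le_right _ _

end Pool.Agent.H77.BC
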