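import Pool.Agent.H77.BC.U1

/-!
Module U: straight-line layouts (upper bound).
-/

set_option autoImplicit false

namespace Pool.Agent.H77.BC

namespace UX

open Set Filter Topology

/-- the parameters -/
noncomputable def tt (i : ℕ) : ℝ := 2 ^ (2 ^ i)

lemma tt_succ (i : ℕ) : tt (i + 1) = tt i ^ 2 := by
  unfold tt
  rw [pow_succ 2 i, pow_mul]

lemma tt_ge (i : ℕ) : 2 ≤ tt i := by
  unfold tt
  have h1 : 2 ^ i ≠ 0 := by positivity
  exact le_self_pow₀ (by norm_num) h1

lemma tt_strictMono : StrictMono tt := by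
  apply strictMono_nat_of_lt_succ
  intro i
  rw [tt_succ]
  nlinarith [tt_ge i]

lemma tt_strip {i j : ℕ} {s : ℝ} (h1 : tt i < s) (h2 : s < tt (i + 1)) (h3 : tt j < s)
    (h4 : s < tt (j + 1)) : i = j := by
  have h5 := tt_strictMono.lt_iff_lt.mp (h1.trans h4)
  have h6 := tt_strictMono.lt_iff_lt.mp (h3.trans h2)
  omega

/-- two chords meeting at an interior point interleave -/
lemma cross_real {a b c d s : ℝ} (h : (a + b) * s - a * b = (c + d) * s - c * d)
    (hsb : s < b) (hcs : c < s) (hac : a < c) : b < d := by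
  by_contra hcon
  push Not at hcon
  have h1 : (s - a) * (b - s) = (s - c) * (d - s) := by linarith
  have h2 : (s - c) * (d - s) ≤ (s - c) * (b - s) :=
    mul_le_mul_of_nonneg_left (by linarith) (by linarith)
  have h3 : (s - c) * (b - s) < (s - a) * (b - s) :=
    mul_lt_mul_of_pos_right (by linarith) (by linarith)
  linarith

/-- the crossing is before the next parameter -/
lemma cross_strip {a b c d s : ℝ} (h : (a + b) * s - a * b = (c + d) * s - c * d)
    (hsb : s < b) (ha : 2 ≤ a) (hac : a < c) (hcb : c ^ 2 ≤ b) (hbd : b ^ 2 ≤ d) :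
    s < c ^ 2 := by
  by_contra hcon
  push Not at hcon
  have h1 : (s - a) * (b - s) = (s - c) * (d - s) := by linarith
  have hc : 2 < c := by linarith
  have hs : 0 < s := by nlinarith
  have h2 : (s - a) * (b - s) < s * b := by nlinarith
  have h3 : s / 2 ≤ s - c := by nlinarith
  have h4 : b ^ 2 - b ≤ d - s := by linarith
  have hb4 : 4 ≤ b := by nlinarith
  have h5 : 0 ≤ b ^ 2 - b := by nlinarith
  have h6 : s / 2 * (b ^ 2 - b) ≤ (s - c) * (d - s) :=
    mul_le_mul h3 h4 h5 (by linarith)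
  have h7 : s * b ≤ s / 2 * (b ^ 2 - b) := by
    have : 0 ≤ s * b * (b - 3) := by
      apply mul_nonneg
      · positivity
      · linarith
    nlinarith
  linarith

variable {V : Type}

/-- the start of an edge -/
def st (π : V → ℕ) : Sym2 V → ℕ :=
  Sym2.lift ⟨fun u v => min (π u) (π v), fun _ _ => min_comm _ _⟩

/-- the end of an edge -/
def en (π : V → ℕ) : Sym2 V → ℕ :=
  Sym2.lift ⟨fun u v => max (π u) (π v), fun _ _ => max_comm _ _⟩

lemma st_mk (π : V → ℕ) (u v : V) : st π s(u, v) = min (π u) (π v) := rfl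

lemma en_mk (π : V → ℕ) (u v : V) : en π s(u, v) = max (π u) (π v) := rfl

/-- the drawing of an edge -/
noncomputable def Kc (π : V → ℕ) (e : Sym2 V) : Set ℂ :=
  Psi '' chord (tt (st π e)) (tt (en π e))

lemma edge_rep {G : SimpleGraph V} {π : V → ℕ} (hπ : Function.Injective π) {e : Sym2 V}
    (he : e ∈ G.edgeSet) : ∃ u v, e = s(u, v) ∧ G.Adj u v ∧ π u < π v ∧ st π e = π u ∧
      en π e = π v := by
  induction e using Sym2.ind with
  | _ u v =>
    rw [SimpleGraph.mem_edgeSet] at he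
    have hne : π u ≠ π v := fun h => he.ne (hπ h)
    rcases lt_or_gt_of_ne hne with h | h
    · exact ⟨u, v, rfl, he, h, by rw [st_mk, min_eq_left h.le], by rw [en_mk, max_eq_right h.le]⟩
    · exact ⟨v, u, Sym2.eq_swap, he.symm, h, by rw [st_mk, min_eq_right h.le],
        by rw [en_mk, max_eq_left h.le]⟩

lemma edge_inj {G : SimpleGraph V} {π : V → ℕ} (hπ : Function.Injective π) {e f : Sym2 V}
    (he : e ∈ G.edgeSet) (hf : f ∈ G.edgeSet) (h1 : st π e = st π f) (h2 : en π e = en π f) :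
    e = f := by
  obtain ⟨u, v, rfl, -, -, h3, h4⟩ := edge_rep hπ he
  obtain ⟨u', v', rfl, -, -, h5, h6⟩ := edge_rep hπ hf
  have h7 : u = u' := hπ (by rw [← h3, ← h5, h1])
  have h8 : v = v' := hπ (by rw [← h4, ← h6, h2])
  rw [h7, h8]

lemma edge_lt {G : SimpleGraph V} {π : V → ℕ} (hπ : Function.Injective π) {e : Sym2 V}
    (he : e ∈ G.edgeSet) : st π e < en π e := by
  obtain ⟨u, v, -, -, h2, h3, h4⟩ := edge_rep hπ he
  rw [h3, h4]
  exact h2

/-- interior points of a chord -/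
lemma chord_int {a b : ℝ} {z : ℝ × ℝ} (h : z ∈ chord a b) (hz : z.1 ^ 2 < z.2) :
    a < z.1 ∧ z.1 < b := by
  have h1 := chord_sub h
  have h2 : 0 < (z.1 - a) * (b - z.1) := by linarith
  constructor
  · rcases h.1.lt_or_eq with h3 | h3
    · exact h3
    · exfalso
      rw [h3] at h2
      simp at h2
  · rcases h.2.1.lt_or_eq with h3 | h3
    · exact h3
    · exfalso
      rw [h3] at h2
      simp at h2

/-- crossings of two edges, one orientation -/
lemma cross_aux {π : V → ℕ} {e f : Sym2 V} {z : ℝ × ℝ}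
    (hze : z ∈ chord (tt (st π e)) (tt (en π e))) (hzf : z ∈ chord (tt (st π f)) (tt (en π f)))
    (hz : z.1 ^ 2 < z.2) (hst : st π e < st π f) :
    st π f < en π e ∧ en π e < en π f ∧ tt (st π f) < z.1 ∧ z.1 < tt (st π f + 1) := by
  obtain ⟨h1, h2⟩ := chord_int hze hz
  obtain ⟨h3, h4⟩ := chord_int hzf hz
  have h5 := tt_strictMono hst
  have h6 : (tt (st π e) + tt (en π e)) * z.1 - tt (st π e) * tt (en π e) =
      (tt (st π f) + tt (en π f)) * z.1 - tt (st π f) * tt (en π f) := by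
    rw [← hze.2.2, ← hzf.2.2]
  have h7 := cross_real h6 h2 h3 h5
  have h8 := tt_strictMono.lt_iff_lt.mp h7
  have h9 := tt_strictMono.lt_iff_lt.mp (h3.trans h2)
  refine ⟨h9, h8, h3, ?_⟩
  rw [tt_succ]
  apply cross_strip h6 h2 (tt_ge _) h5
  · rw [← tt_succ]
    exact tt_strictMono.monotone h9
  · rw [← tt_succ]
    exact tt_strictMono.monotone h8

/-- starts of two crossing edges -/
lemma cross_max {G : SimpleGraph V} {π : V → ℕ} (hπ : Function.Injective π) {e f : Sym2 V}
    {z : ℝ × ℝ} (he : e ∈ G.edgeSet) (hf : f ∈ G.edgeSet)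
    (hze : z ∈ chord (tt (st π e)) (tt (en π e))) (hzf : z ∈ chord (tt (st π f)) (tt (en π f)))
    (hz : z.1 ^ 2 < z.2) (hef : e ≠ f) :
    st π e ≠ st π f ∧ tt (max (st π e) (st π f)) < z.1 ∧
      z.1 < tt (max (st π e) (st π f) + 1) := by
  rcases lt_trichotomy (st π e) (st π f) with h | h | h
  · have h1 := cross_aux hze hzf hz h
    rw [max_eq_right h.le]
    exact ⟨h.ne, h1.2.2⟩
  · exfalso
    obtain ⟨h1, h2⟩ := chord_int hze hz
    obtain ⟨h3, h4⟩ := chord_int hzf hz
    have h5 := chord_sub hze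
    have h6 := chord_sub hzf
    rw [h] at h5
    have h7 : (z.1 - tt (st π f)) * (tt (en π e) - z.1) =
      (z.1 - tt (st π f)) * (tt (en π f) - z.1) := by rw [← h5, ← h6]
    have h8 := mul_left_cancel₀ (sub_pos.mpr h3).ne' h7
    have h9 : tt (en π e) = tt (en π f) := by linarith
    exact hef (edge_inj hπ he hf h (tt_strictMono.injective h9))
  · have h1 := cross_aux hzf hze hz h
    rw [max_eq_left h.le]
    exact ⟨h.ne', h1.2.2⟩

/-- no three edges through an interior point -/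
lemma no_three {G : SimpleGraph V} {π : V → ℕ} (hπ : Function.Injective π) {e f g : Sym2 V}
    {z : ℝ × ℝ} (he : e ∈ G.edgeSet) (hf : f ∈ G.edgeSet) (hg : g ∈ G.edgeSet)
    (hze : z ∈ chord (tt (st π e)) (tt (en π e))) (hzf : z ∈ chord (tt (st π f)) (tt (en π f)))
    (hzg : z ∈ chord (tt (st π g)) (tt (en π g)))
    (hz : z.1 ^ 2 < z.2) (hef : e ≠ f) : g = e ∨ g = f := by
  by_contra hcon
  push Not at hcon
  have h1 := cross_max hπ he hf hze hzf hz hef
  have h2 := cross_max hπ he hg hze hzg hz hcon.1.symm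
  have h3 := cross_max hπ hf hg hzf hzg hz hcon.2.symm
  have h4 := tt_strip h1.2.1 h1.2.2 h2.2.1 h2.2.2
  have h5 := tt_strip h1.2.1 h1.2.2 h3.2.1 h3.2.2
  have h6 := h1.1
  have h7 := h2.1
  have h8 := h3.1
  omega

/-- the slopes are different if there is a common point -/
lemma slope_ne {G : SimpleGraph V} {π : V → ℕ} (hπ : Function.Injective π) {e f : Sym2 V}
    {z : ℝ × ℝ} (he : e ∈ G.edgeSet) (hf : f ∈ G.edgeSet)
    (hze : z ∈ chord (tt (st π e)) (tt (en π e))) (hzf : z ∈ chord (tt (st π f)) (tt (en π f)))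
    (hef : e ≠ f) : tt (st π e) + tt (en π e) ≠ tt (st π f) + tt (en π f) := by
  intro h
  have h1 := hze.2.2
  have h2 := hzf.2.2
  rw [h] at h1
  have h3 : tt (st π e) * tt (en π e) = tt (st π f) * tt (en π f) := by linarith
  have h4 := tt_strictMono (edge_lt hπ he)
  have h5 := tt_strictMono (edge_lt hπ hf)
  have h6 : (tt (st π e) - tt (st π f)) * (tt (st π e) - tt (en π f)) = 0 := by
    have h7 : tt (en π e) = tt (st π f) + tt (en π f) - tt (st π e) := by linarith
    rw [h7] at h3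
    linarith
  rcases mul_eq_zero.mp h6 with h7 | h7
  · have h8 : tt (st π e) = tt (st π f) := by linarith
    have h9 : tt (en π e) = tt (en π f) := by linarith
    exact hef (edge_inj hπ he hf (tt_strictMono.injective h8) (tt_strictMono.injective h9))
  · linarith

/-- two edges meet at most once -/
lemma meet_unique {G : SimpleGraph V} {π : V → ℕ} (hπ : Function.Injective π) {e f : Sym2 V}
    {z w : ℝ × ℝ} (he : e ∈ G.edgeSet) (hf : f ∈ G.edgeSet)
    (hze : z ∈ chord (tt (st π e)) (tt (en π e))) (hzf : z ∈ chord (tt (st π f)) (tt (en π f)))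
    (hwe : w ∈ chord (tt (st π e)) (tt (en π e))) (hwf : w ∈ chord (tt (st π f)) (tt (en π f)))
    (hef : e ≠ f) : z = w := by
  have h1 := slope_ne hπ he hf hze hzf hef
  have h2 := hze.2.2
  have h3 := hzf.2.2
  have h4 := hwe.2.2
  have h5 := hwf.2.2
  have h6 : ((tt (st π e) + tt (en π e)) - (tt (st π f) + tt (en π f))) * (z.1 - w.1) = 0 := by
    linarith
  have h7 : z.1 = w.1 := by
    rcases mul_eq_zero.mp h6 with h | h
    · exact absurd (sub_eq_zero.mp h) h1
    · linarith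
  apply Prod.ext h7
  rw [h2, h4, h7]

lemma simple_Kc {G : SimpleGraph V} {π : V → ℕ} (hπ : Function.Injective π) :
    IsSimple G (Kc π) := by
  intro e he f hf hef z hz w hw
  obtain ⟨⟨z1, hz1, hz1'⟩, ⟨z2, hz2, hz2'⟩⟩ := hz
  obtain ⟨⟨w1, hw1, hw1'⟩, ⟨w2, hw2, hw2'⟩⟩ := hw
  have e1 : z1 = z2 := Psi_inj (chord_nonneg hz1) (chord_nonneg hz2) (by rw [hz1', hz2'])
  have e2 : w1 = w2 := Psi_inj (chord_nonneg hw1) (chord_nonneg hw2) (by rw [hw1', hw2'])
  subst e1
  subst e2
  rw [← hz1', ← hw1', meet_unique hπ he hf hz1 hz2 hw1 hw2 hef]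

/-! ### The layout -/

/-- the vertices on the circle -/
noncomputable def xc (π : V → ℕ) (v : V) : ℂ := Psi (tt (π v), tt (π v) ^ 2)

lemma xc_inj {π : V → ℕ} (hπ : Function.Injective π) : Function.Injective (xc π) := by
  intro u v h
  have h1 := Psi_inj (z := (tt (π u), tt (π u) ^ 2)) (w := (tt (π v), tt (π v) ^ 2))
    (by positivity) (by positivity) h
  have h2 : tt (π u) = tt (π v) := congrArg Prod.fst h1
  exact hπ (tt_strictMono.injective h2)

lemma arc_symm {K : Set ℂ} {p q : ℂ} (h : IsArc K p q) : IsArc K q p := by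
  obtain ⟨γ, hc, hi, h0, h1, him⟩ := h
  have hm : MapsTo (fun τ : ℝ => 1 - τ) (Icc 0 1) (Icc 0 1) := by
    intro τ hτ
    exact ⟨by linarith [hτ.2], by linarith [hτ.1]⟩
  refine ⟨fun τ => γ (1 - τ), ?_, ?_, ?_, ?_, ?_⟩
  · exact hc.comp (by fun_prop) hm
  · intro x hx y hy hxy
    have := hi (hm hx) (hm hy) hxy
    linarith
  · simp [h1]
  · simp [h0]
  · rw [← him]
    ext z
    constructor
    · rintro ⟨τ, hτ, rfl⟩
      exact ⟨1 - τ, hm hτ, rfl⟩
    · rintro ⟨τ, hτ, rfl⟩
      exact ⟨1 - τ, hm hτ, by simp⟩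

lemma arc_chord {a b : ℝ} (hab : a < b) :
    IsArc (Psi '' chord a b) (Psi (a, a ^ 2)) (Psi (b, b ^ 2)) := by
  have hmem : ∀ τ ∈ Icc (0 : ℝ) 1, (a + τ * (b - a), (a + b) * (a + τ * (b - a)) - a * b) ∈
      chord a b := by
    intro τ hτ
    refine ⟨?_, ?_, rfl⟩
    · show a ≤ a + τ * (b - a)
      nlinarith [hτ.1]
    · show a + τ * (b - a) ≤ b
      nlinarith [hτ.2]
  refine ⟨fun τ => Psi (a + τ * (b - a), (a + b) * (a + τ * (b - a)) - a * b), ?_, ?_, ?_, ?_, ?_⟩
  · apply Psi_cont.comp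
    · exact (by fun_prop : Continuous fun τ : ℝ =>
        (a + τ * (b - a), (a + b) * (a + τ * (b - a)) - a * b)).continuousOn
    · intro τ hτ
      exact chord_nonneg (hmem τ hτ)
  · intro x hx y hy hxy
    have h1 := Psi_inj (chord_nonneg (hmem x hx)) (chord_nonneg (hmem y hy)) hxy
    have h2 : a + x * (b - a) = a + y * (b - a) := congrArg Prod.fst h1
    have h3 : x * (b - a) = y * (b - a) := by linarith
    exact mul_right_cancel₀ (sub_pos.mpr hab).ne' h3
  · show Psi (a + 0 * (b - a), (a + b) * (a + 0 * (b - a)) - a * b) = Psi (a, a ^ 2)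
    congr 2 <;> ring
  · show Psi (a + 1 * (b - a), (a + b) * (a + 1 * (b - a)) - a * b) = Psi (b, b ^ 2)
    congr 2 <;> ring
  · ext z
    constructor
    · rintro ⟨τ, hτ, rfl⟩
      exact ⟨_, hmem τ hτ, rfl⟩
    · rintro ⟨w, hw, rfl⟩
      have hba : 0 < b - a := sub_pos.mpr hab
      refine ⟨(w.1 - a) / (b - a), ⟨?_, ?_⟩, ?_⟩
      · exact div_nonneg (by linarith [hw.1]) hba.le
      · rw [div_le_one hba]
        linarith [hw.2.1]
      · have h1 : a + (w.1 - a) / (b - a) * (b - a) = w.1 := by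
          rw [div_mul_cancel₀ _ hba.ne']
          ring
        show Psi (a + (w.1 - a) / (b - a) * (b - a),
          (a + b) * (a + (w.1 - a) / (b - a) * (b - a)) - a * b) = Psi w
        rw [h1, ← hw.2.2]

/-- common points of two edges inside the disk -/
lemma common {π : V → ℕ} {e f : Sym2 V} {z : ℂ} (hze : z ∈ Kc π e) (hzf : z ∈ Kc π f)
    (hz : ‖z‖ < 1) : ∃ w : ℝ × ℝ, z = Psi w ∧ w ∈ chord (tt (st π e)) (tt (en π e)) ∧
      w ∈ chord (tt (st π f)) (tt (en π f)) ∧ w.1 ^ 2 < w.2 := by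
  obtain ⟨z1, hz1, hz1'⟩ := hze
  obtain ⟨z2, hz2, hz2'⟩ := hzf
  have e1 : z1 = z2 := Psi_inj (chord_nonneg hz1) (chord_nonneg hz2) (by rw [hz1', hz2'])
  subst e1
  refine ⟨z1, hz1'.symm, hz1, hz2, ?_⟩
  rw [← Psi_norm_lt (chord_nonneg hz1), hz1']
  exact hz

lemma proper_Kc [Finite V] {G : SimpleGraph V} {π : V → ℕ} (hπ : Function.Injective π)
    (e : Sym2 V) (he : e ∈ G.edgeSet) (f : Sym2 V) (hf : f ∈ G.edgeSet) (hef : e ≠ f) (z : ℂ)
    (hz : z ∈ Kc π e ∩ Kc π f) (hz1 : ‖z‖ < 1) :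
    ∃ φ, IsGrid G (Kc π) ![e] ![f] φ ∧ φ (1, 1) = z := by
  obtain ⟨w, rfl, hwe, hwf, hw⟩ := common hz.1 hz.2 hz1
  set m : ℝ := tt (st π f) + tt (en π f) with hm
  set k : ℝ := tt (st π f) * tt (en π f) with hk
  have hww : w = (w.1, m * w.1 - k) := Prod.ext rfl hwf.2.2
  have E1 : ∀ᶠ s in 𝓝 w.1, ∀ g : Sym2 V, g ∈ G.edgeSet → g ≠ f → g ≠ e →
      (s, m * s - k) ∉ chord (tt (st π g)) (tt (en π g)) := by
    rw [Filter.eventually_all]
    intro g
    by_cases hg : g ∈ G.edgeSet ∧ g ≠ f ∧ g ≠ e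
    · have h1 : w ∉ chord (tt (st π g)) (tt (en π g)) := by
        intro hwg
        rcases no_three hπ he hf hg.1 hwe hwf hwg hw hef with h | h
        · exact hg.2.2 h
        · exact hg.2.1 h
      have h2 : Continuous fun s : ℝ => (s, m * s - k) := by fun_prop
      have h3 : ∀ᶠ s in 𝓝 w.1, (s, m * s - k) ∈ (chord (tt (st π g)) (tt (en π g)))ᶜ := by
        apply h2.continuousAt.preimage_mem_nhds
        apply (chord_closed _ _).isOpen_compl.mem_nhds
        rw [← hww]
        exact h1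
      filter_upwards [h3] with s hs _ _ _
      exact hs
    · filter_upwards with s h3 h4 h5
      exact absurd ⟨h3, h4, h5⟩ hg
  have hint := chord_int hwf hw
  have E2 : ∀ᶠ s in 𝓝 w.1, tt (st π f) < s ∧ s < tt (en π f) :=
    (eventually_gt_nhds hint.1).and (eventually_lt_nhds hint.2)
  obtain ⟨δ, hδ, hall⟩ := Metric.eventually_nhds_iff.mp (E1.and E2)
  let σ : ℕ → ℝ := fun j => if j = 0 then w.1 - δ / 2 else if j = 1 then w.1 else w.1 + δ / 2
  have s0 : σ 0 = w.1 - δ / 2 := by simp [σ]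
  have s1 : σ 1 = w.1 := by simp [σ]
  have s2 : σ 2 = w.1 + δ / 2 := by simp [σ]
  have hI : ∀ s ∈ Icc (σ 0) (σ 2), dist s w.1 < δ := by
    intro s hs
    rw [s0, s2] at hs
    rw [Real.dist_eq, abs_lt]
    constructor <;> linarith [hs.1, hs.2]
  have hσ02 : σ 0 ≤ σ 2 := by rw [s0, s2]; linarith
  obtain ⟨φ, hφ, hφ2⟩ := exists_chart G (Kc π) (fun e => tt (st π e)) (fun e => tt (en π e))
    (fun e _ => rfl) f hf 1 ![e] (by intro i; simpa using he) (by intro i; simpa using hef)
    (by intro i; simpa using slope_ne hπ he hf hwe hwf hef) σ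
    (by
      intro j hj
      have : j = 0 ∨ j = 1 := by omega
      rcases this with rfl | rfl
      · rw [s0, s1]; linarith
      · show σ 1 < σ 2
        rw [s1, s2]; linarith)
    ((hall (hI (σ 0) ⟨le_rfl, hσ02⟩)).2.1) ((hall (hI (σ 2) ⟨hσ02, le_rfl⟩)).2.2)
    (by
      intro i
      have : i = 0 := Subsingleton.elim _ _
      subst this
      show (σ 1, m * σ 1 - k) ∈ chord (tt (st π e)) (tt (en π e))
      rw [s1, ← hww]
      exact hwe)
    (by
      intro g hg hgf hge s hs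
      have hge' : g ≠ e := by
        have := hge 0
        simpa using this.symm
      exact (hall (hI s hs)).1 g hg hgf hge')
  refine ⟨φ, hφ, ?_⟩
  have h3 := hφ2 0
  have h4 : φ (1, 1) = Psi (σ 1, m * σ 1 - k) := by
    simpa using h3
  rw [h4, s1, ← hww]

lemma layout_Kc [Finite V] {G : SimpleGraph V} {π : V → ℕ} (hπ : Function.Injective π) :
    IsLayout G (xc π) (Kc π) := by
  refine ⟨xc_inj hπ, fun v => Psi_norm_eq _, ?_, ?_, ?_, ?_⟩
  · intro u v huv
    have he : s(u, v) ∈ G.edgeSet := huv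
    obtain ⟨u', v', h1, -, h2, h3, h4⟩ := edge_rep hπ he
    have h5 : IsArc (Kc π s(u, v)) (xc π u') (xc π v') := by
      unfold Kc xc
      rw [h3, h4]
      exact arc_chord (tt_strictMono h2)
    rcases Sym2.eq_iff.mp h1 with ⟨rfl, rfl⟩ | ⟨rfl, rfl⟩
    · exact h5
    · exact arc_symm h5
  · intro u v huv z hz
    have he : s(u, v) ∈ G.edgeSet := huv
    obtain ⟨u', v', h1, -, h2, h3, h4⟩ := edge_rep hπ he
    have h5 : ‖z‖ < 1 ∨ z = xc π u' ∨ z = xc π v' := by
      obtain ⟨w, hw, rfl⟩ := hz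
      rw [h3, h4] at hw
      have h6 := chord_sub hw
      rcases hw.1.eq_or_lt with h7 | h7
      · right; left
        unfold xc
        congr 1
        apply Prod.ext h7.symm
        show w.2 = tt (π u') ^ 2
        rw [← h7] at h6
        simp only [sub_self, zero_mul] at h6
        linarith
      · rcases hw.2.1.eq_or_lt with h8 | h8
        · right; right
          unfold xc
          congr 1
          apply Prod.ext h8
          show w.2 = tt (π v') ^ 2
          rw [h8] at h6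
          simp only [sub_self, mul_zero] at h6
          linarith
        · left
          rw [Psi_norm_lt (chord_nonneg hw)]
          have := mul_pos (sub_pos.mpr h7) (sub_pos.mpr h8)
          linarith
    rcases Sym2.eq_iff.mp h1 with ⟨rfl, rfl⟩ | ⟨rfl, rfl⟩
    · exact h5
    · rcases h5 with h | h | h
      · exact Or.inl h
      · exact Or.inr (Or.inr h)
      · exact Or.inr (Or.inl h)
  · intro e he f hf hef
    exact (simple_Kc hπ e he f hf hef).finite
  · exact proper_Kc hπ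

/-! ### The bundles -/

/-- the crossings of `f` with the edges with earlier start -/
def Xf (G : SimpleGraph V) (π : V → ℕ) (f : Sym2 V) : Set ℂ :=
  {z | ‖z‖ < 1 ∧ z ∈ Kc π f ∧ ∃ e ∈ G.edgeSet, st π e < st π f ∧ z ∈ Kc π e}

/-- the `s`-coordinate of the crossing -/
noncomputable def crs (π : V → ℕ) (e f : Sym2 V) : ℝ :=
  (tt (st π f) * tt (en π f) - tt (st π e) * tt (en π e)) /
    (tt (st π f) + tt (en π f) - (tt (st π e) + tt (en π e)))

lemma crs_spec {π : V → ℕ} {e f : Sym2 V} (h1 : st π e < st π f)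
    (h2 : st π f < en π e) (h3 : en π e < en π f) :
    (crs π e f, (tt (st π f) + tt (en π f)) * crs π e f - tt (st π f) * tt (en π f)) ∈
      chord (tt (st π e)) (tt (en π e)) ∧ tt (st π f) < crs π e f ∧
      crs π e f < tt (en π f) := by
  have g1 := tt_strictMono h1
  have g2 := tt_strictMono h2
  have g3 := tt_strictMono h3
  set a := tt (st π e)
  set b := tt (en π e)
  set c := tt (st π f)
  set d := tt (en π f)
  have hD : 0 < c + d - (a + b) := by linarith
  have hs : crs π e f * (c + d - (a + b)) = c * d - a * b := by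
    unfold crs
    rw [div_mul_cancel₀ _ hD.ne']
  set s := crs π e f
  have h4 : (s - c) * (c + d - (a + b)) = (c - a) * (b - c) := by linarith
  have h5 : (b - s) * (c + d - (a + b)) = (b - c) * (d - b) := by linarith
  have h6 : 0 < s - c := by
    have h7 : 0 < (c - a) * (b - c) := mul_pos (by linarith) (by linarith)
    rw [← h4] at h7
    exact (mul_pos_iff_of_pos_right hD).mp h7
  have h8 : 0 < b - s := by
    have h7 : 0 < (b - c) * (d - b) := mul_pos (by linarith) (by linarith)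
    rw [← h5] at h7
    exact (mul_pos_iff_of_pos_right hD).mp h7
  refine ⟨⟨?_, ?_, ?_⟩, ?_, ?_⟩
  · show a ≤ s
    linarith
  · show s ≤ b
    linarith
  · show (c + d) * s - c * d = (a + b) * s - a * b
    linarith
  · linarith
  · linarith

lemma crs_eq {π : V → ℕ} {e f : Sym2 V} {w : ℝ × ℝ}
    (hwe : w ∈ chord (tt (st π e)) (tt (en π e))) (hwf : w ∈ chord (tt (st π f)) (tt (en π f)))
    (h1 : st π e < st π f) (h3 : en π e < en π f) : w.1 = crs π e f := by
  have g1 := tt_strictMono h1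
  have g3 := tt_strictMono h3
  have hD : tt (st π f) + tt (en π f) - (tt (st π e) + tt (en π e)) ≠ 0 := by
    apply ne_of_gt
    linarith
  unfold crs
  rw [eq_div_iff hD]
  have h4 := hwe.2.2
  have h5 := hwf.2.2
  linarith

/-- the crossing point as a common point of the two chords -/
lemma crs_pt {π : V → ℕ} {e f : Sym2 V} (h1 : st π e < st π f)
    (h2 : st π f < en π e) (h3 : en π e < en π f) :
    ∃ w : ℝ × ℝ, w = (crs π e f, (tt (st π f) + tt (en π f)) * crs π e f -
        tt (st π f) * tt (en π f)) ∧ w ∈ chord (tt (st π e)) (tt (en π e)) ∧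
      w ∈ chord (tt (st π f)) (tt (en π f)) ∧ w.1 ^ 2 < w.2 := by
  obtain ⟨h4, h5, h6⟩ := crs_spec h1 h2 h3
  have h7 : (crs π e f, (tt (st π f) + tt (en π f)) * crs π e f -
        tt (st π f) * tt (en π f)) ∈ chord (tt (st π f)) (tt (en π f)) := ⟨h5.le, h6.le, rfl⟩
  refine ⟨_, rfl, h4, h7, ?_⟩
  have h8 := chord_sub h7
  have h9 := mul_pos (sub_pos.mpr h5) (sub_pos.mpr h6)
  simp only at h8 ⊢
  linarith

lemma bundle_Xf [Finite V] {G : SimpleGraph V} {π : V → ℕ} (hπ : Function.Injective π)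
    (f : Sym2 V) (hf : f ∈ G.edgeSet)
    (h : ∃ e ∈ G.edgeSet, st π e < st π f ∧ st π f < en π e ∧ en π e < en π f) :
    IsBundledCrossing G (Kc π) (Xf G π f) := by
  classical
  set Ef : Finset (Sym2 V) := (Set.toFinite {e : Sym2 V | e ∈ G.edgeSet ∧ st π e < st π f ∧
    st π f < en π e ∧ en π e < en π f}).toFinset with hEf
  have hmE : ∀ e, e ∈ Ef ↔ e ∈ G.edgeSet ∧ st π e < st π f ∧
    st π f < en π e ∧ en π e < en π f := by
    intro e
    rw [hEf, Set.Finite.mem_toFinset]
    rfl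
  set T : Finset ℝ := Ef.image (fun e => crs π e f) with hT
  obtain ⟨e₀, he₀, he₁⟩ := h
  have hT0 : T.Nonempty := ⟨_, Finset.mem_image_of_mem _ ((hmE e₀).mpr ⟨he₀, he₁⟩)⟩
  set p : ℕ := T.card with hp
  have hp0 : 0 < p := Finset.card_pos.mpr hT0
  let r : Fin p ↪o ℝ := T.orderEmbOfFin rfl
  have hr : ∀ i : Fin p, ∃ e, e ∈ Ef ∧ crs π e f = r i :=
    fun i => Finset.mem_image.mp (T.orderEmbOfFin_mem rfl i)
  choose a haE har using hr
  set m : ℝ := tt (st π f) + tt (en π f) with hm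
  set k : ℝ := tt (st π f) * tt (en π f) with hk
  have hpt : ∀ e ∈ Ef, ∃ w : ℝ × ℝ, w = (crs π e f, m * crs π e f - k) ∧
      w ∈ chord (tt (st π e)) (tt (en π e)) ∧
      w ∈ chord (tt (st π f)) (tt (en π f)) ∧ w.1 ^ 2 < w.2 := by
    intro e he
    rw [hmE] at he
    exact crs_pt he.2.1 he.2.2.1 he.2.2.2
  have hrange : ∀ i : Fin p, tt (st π f) < r i ∧ r i < tt (st π f + 1) := by
    intro i
    obtain ⟨w, hw, hwe, hwf, hwi⟩ := hpt (a i) (haE i)
    have h1 := cross_aux hwe hwf hwi ((hmE _).mp (haE i)).2.1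
    have h2 : w.1 = r i := by rw [hw, ← har i]
    rw [← h2]
    exact h1.2.2
  have hNd : tt (st π f + 1) < tt (en π f) := by
    apply tt_strictMono
    omega
  let σ : ℕ → ℝ := fun j => if j = 0 then (tt (st π f) + r ⟨0, hp0⟩) / 2 else
    if h : j - 1 < p then r ⟨j - 1, h⟩ else tt (st π f + 1)
  have hσ0 : σ 0 = (tt (st π f) + r ⟨0, hp0⟩) / 2 := by simp [σ]
  have hσi : ∀ (j : ℕ) (hj : j < p), σ (j + 1) = r ⟨j, hj⟩ := by
    intro j hj
    simp [σ, hj]
  have hσp : σ (p + 1) = tt (st π f + 1) := by simp [σ]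
  have hmono : ∀ j ≤ p, σ j < σ (j + 1) := by
    intro j hj
    rcases Nat.eq_zero_or_pos j with rfl | hj0
    · rw [hσ0, hσi 0 hp0]
      have := (hrange ⟨0, hp0⟩).1
      linarith
    · obtain ⟨i, rfl⟩ : ∃ i, j = i + 1 := ⟨j - 1, by omega⟩
      rw [hσi i (by omega)]
      rcases hj.eq_or_lt with h1 | h1
      · rw [h1, hσp]
        exact (hrange _).2
      · rw [hσi (i + 1) h1]
        apply r.strictMono
        rw [Fin.mk_lt_mk]
        omega
  have h0 : tt (st π f) < σ 0 := by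
    rw [hσ0]
    have := (hrange ⟨0, hp0⟩).1
    linarith
  have h1 : σ (p + 1) < tt (en π f) := by rw [hσp]; exact hNd
  have haf : ∀ i, a i ≠ f := by
    intro i hi
    have := ((hmE _).mp (haE i)).2.1
    rw [hi] at this
    omega
  have hx : ∀ i : Fin p, (σ (i + 1), m * σ (i + 1) - k) ∈
      chord (tt (st π (a i))) (tt (en π (a i))) := by
    intro i
    obtain ⟨w, hw, hwe, -, -⟩ := hpt (a i) (haE i)
    have h2 : σ (i + 1) = crs π (a i) f := by
      rw [hσi i i.2, har i]
    rw [h2, ← hw]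
    exact hwe
  obtain ⟨φ, hφ, hφ2⟩ := exists_chart G (Kc π) (fun e => tt (st π e)) (fun e => tt (en π e))
    (fun e _ => rfl) f hf p a (fun i => ((hmE _).mp (haE i)).1) haf
    (by
      intro i
      obtain ⟨w, hw, hwe, hwf, -⟩ := hpt (a i) (haE i)
      exact slope_ne hπ ((hmE _).mp (haE i)).1 hf hwe hwf (haf i)) σ hmono h0 h1 hx
    (by
      intro g hg hgf hga s hs hsg
      have hs1 : tt (st π f) < s := lt_of_lt_of_le h0 hs.1
      have hs2 : s ≤ tt (st π f + 1) := by rw [← hσp]; exact hs.2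
      have hs3 : s < tt (en π f) := lt_of_le_of_lt hs.2 h1
      have hsf : (s, m * s - k) ∈ chord (tt (st π f)) (tt (en π f)) := ⟨hs1.le, hs3.le, rfl⟩
      have hsi : (s, m * s - k).1 ^ 2 < (s, m * s - k).2 := by
        have h8 := chord_sub hsf
        have h9 := mul_pos (sub_pos.mpr hs1) (sub_pos.mpr hs3)
        simp only at h8 ⊢
        linarith
      have hsg' : (s, m * s - k) ∈ chord (tt (st π g)) (tt (en π g)) := hsg
      rcases lt_trichotomy (st π g) (st π f) with h2 | h2 | h2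
      · have h3 := cross_aux hsg' hsf hsi h2
        have hgE : g ∈ Ef := (hmE g).mpr ⟨hg, h2, h3.1, h3.2.1⟩
        have h4 : s = crs π g f := crs_eq hsg' hsf h2 h3.2.1
        have h5 : s ∈ (T : Set ℝ) := by
          rw [h4]
          exact Finset.mem_coe.mpr (Finset.mem_image_of_mem _ hgE)
        rw [← Finset.range_orderEmbOfFin T rfl] at h5
        obtain ⟨i, hi⟩ := h5
        obtain ⟨w, hw, hwe, hwf, hwi⟩ := hpt (a i) (haE i)
        have h6 : crs π (a i) f = s := by
          rw [har i]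
          exact hi
        rw [h6] at hw
        subst hw
        rcases no_three hπ ((hmE _).mp (haE i)).1 hf hg hwe hwf hsg' hwi (haf i) with h7 | h7
        · exact hga i h7.symm
        · exact hgf h7
      · exact (cross_max hπ hg hf hsg' hsf hsi hgf).1 h2
      · have h3 := cross_aux hsf hsg' hsi h2
        have h4 : tt (st π f + 1) ≤ tt (st π g) := tt_strictMono.monotone h2
        have h5 := h3.2.2.1
        simp only at h5
        linarith)
  refine ⟨p, 1, a, ![f], φ, hp0, one_pos, hφ, ?_⟩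
  have hval : ∀ i : Fin p, φ ((i : ℝ) + 1, 1) = Psi (r i, m * r i - k) := by
    intro i
    rw [hφ2 i, hσi i i.2]
  ext z
  constructor
  · rintro ⟨hz1, hzf, e, he, hef, hze⟩
    obtain ⟨w, rfl, hwe, hwf, hwi⟩ := common hze hzf hz1
    have h3 := cross_aux hwe hwf hwi hef
    have heE : e ∈ Ef := (hmE e).mpr ⟨he, hef, h3.1, h3.2.1⟩
    have h4 : w.1 = crs π e f := crs_eq hwe hwf hef h3.2.1
    have h5 : w.1 ∈ (T : Set ℝ) := by
      rw [h4]
      exact Finset.mem_coe.mpr (Finset.mem_image_of_mem _ heE)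
    rw [← Finset.range_orderEmbOfFin T rfl] at h5
    obtain ⟨i, hi⟩ := h5
    refine ⟨i, 0, ?_⟩
    have h6 : φ ((i : ℝ) + 1, ((0 : Fin 1) : ℝ) + 1) = φ ((i : ℝ) + 1, 1) := by simp
    rw [h6, hval i]
    have h7 : r i = w.1 := hi
    rw [h7]
    congr 1
    exact Prod.ext rfl hwf.2.2
  · rintro ⟨i, j, rfl⟩
    have hj : j = 0 := Subsingleton.elim _ _
    subst hj
    have h6 : φ ((i : ℝ) + 1, ((0 : Fin 1) : ℝ) + 1) = φ ((i : ℝ) + 1, 1) := by simp
    rw [h6, hval i]
    obtain ⟨w, hw, hwe, hwf, hwi⟩ := hpt (a i) (haE i)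
    rw [har i] at hw
    rw [← hw]
    refine ⟨?_, ⟨w, hwf, rfl⟩, a i, ((hmE _).mp (haE i)).1, ((hmE _).mp (haE i)).2.1,
      ⟨w, hwe, rfl⟩⟩
    rw [Psi_norm_lt (chord_nonneg hwe)]
    exact hwi

lemma mem_later {G : SimpleGraph V} {π : V → ℕ} (hπ : Function.Injective π) (f : Sym2 V) :
    f ∈ laterEdges G π ↔ f ∈ G.edgeSet ∧ ∃ e ∈ G.edgeSet, st π e < st π f ∧ st π f < en π e ∧
      en π e < en π f := by
  constructor
  · rintro ⟨a, b, c, d, hab, hcd, h1, h2, h3, rfl⟩
    refine ⟨hcd, s(a, b), hab, ?_⟩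
    rw [st_mk, st_mk, en_mk, en_mk, min_eq_left (h1.trans h2).le, min_eq_left (h2.trans h3).le,
      max_eq_right (h1.trans h2).le, max_eq_right (h2.trans h3).le]
    exact ⟨h1, h2, h3⟩
  · rintro ⟨hf, e, he, h1, h2, h3⟩
    obtain ⟨a, b, rfl, hab, -, h4, h5⟩ := edge_rep hπ he
    obtain ⟨c, d, rfl, hcd, -, h6, h7⟩ := edge_rep hπ hf
    rw [h4, h6] at h1
    rw [h6, h5] at h2
    rw [h5, h7] at h3
    exact ⟨a, b, c, d, hab, hcd, h1, h2, h3, rfl⟩

end UX

open UX in
/-- Straight-line layouts: an upper bound for the number of bundled crossings. -/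
theorem exists_straight {V : Type} [Fintype V] (G : SimpleGraph V) (π : V → ℕ)
    (hπ : Function.Injective π) : ∃ k ≤ (laterEdges G π).ncard, HasBundling G k := by
  classical
  set F : Finset (Sym2 V) := (Set.toFinite (laterEdges G π)).toFinset with hF
  have hmF : ∀ f, f ∈ F ↔ f ∈ laterEdges G π := by
    intro f
    rw [hF, Set.Finite.mem_toFinset]
  set P : Finset (Set ℂ) := F.image (Xf G π) with hP
  refine ⟨P.card, ?_, xc π, Kc π, layout_Kc hπ, simple_Kc hπ, P, ⟨?_, ?_, ?_⟩, rfl⟩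
  · rw [Set.ncard_eq_toFinset_card (laterEdges G π) (Set.toFinite _)]
    exact Finset.card_image_le
  · intro X hX
    obtain ⟨f, hf, rfl⟩ := Finset.mem_image.mp hX
    rw [hmF, mem_later hπ] at hf
    exact bundle_Xf hπ f hf.1 hf.2
  · intro X hX Y hY hXY
    obtain ⟨f, hf, rfl⟩ := Finset.mem_image.mp (Finset.mem_coe.mp hX)
    obtain ⟨g, hg, rfl⟩ := Finset.mem_image.mp (Finset.mem_coe.mp hY)
    rw [hmF, mem_later hπ] at hf hg
    show Disjoint (Xf G π f) (Xf G π g)
    rw [Set.disjoint_left]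
    rintro z ⟨hz1, hzf, e, he, hef, hze⟩ ⟨-, hzg, e', he', heg, hze'⟩
    apply hXY
    obtain ⟨w, hw, hwe, hwf, hwi⟩ := common hze hzf hz1
    obtain ⟨w', hw', hwe', hwg, -⟩ := common hze' hzg hz1
    have hww : w' = w := Psi_inj (chord_nonneg hwe') (chord_nonneg hwe) (by rw [← hw, ← hw'])
    subst hww
    have hef' : e ≠ f := by
      rintro rfl
      omega
    rcases no_three hπ he hf.1 hg.1 hwe hwf hwg hwi hef' with h1 | h1
    · -- `g = e`
      rcases no_three hπ he hf.1 he' hwe hwf hwe' hwi hef' with h2 | h2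
      · rw [h1, h2] at heg
        omega
      · rw [h1, h2] at heg
        omega
    · rw [h1]
  · ext z
    constructor
    · rintro ⟨X, hX, hz⟩
      obtain ⟨f, hf, rfl⟩ := Finset.mem_image.mp (Finset.mem_coe.mp hX)
      rw [hmF, mem_later hπ] at hf
      obtain ⟨hz1, hzf, e, he, hef, hze⟩ := hz
      refine ⟨hz1, e, he, f, hf.1, ?_, hze, hzf⟩
      rintro rfl
      omega
    · rintro ⟨hz1, e, he, f, hf, hef, hze, hzf⟩
      obtain ⟨w, hw, hwe, hwf, hwi⟩ := common hze hzf hz1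
      rcases lt_or_gt_of_ne (cross_max hπ he hf hwe hwf hwi hef).1 with h1 | h1
      · have h2 := cross_aux hwe hwf hwi h1
        refine ⟨Xf G π f, ?_, hz1, hzf, e, he, h1, hze⟩
        apply Finset.mem_coe.mpr
        apply Finset.mem_image_of_mem
        rw [hmF, mem_later hπ]
        exact ⟨hf, e, he, h1, h2.1, h2.2.1⟩
      · have h2 := cross_aux hwf hwe hwi h1
        refine ⟨Xf G π e, ?_, hz1, hze, f, hf, h1, hzf⟩
        apply Finset.mem_coe.mpr
        apply Finset.mem_image_of_mem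
        rw [hmF, mem_later hπ]
        exact ⟨he, f, hf, h1, h2.1, h2.2.1⟩

end Pool.Agent.H77.BC
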