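import Pool.Agent.H77.BC.B3
import Pool.Agent.H77.BC.BU
import Pool.Agent.H77.BC.U
import Pool.Agent.H77.BC.R1
import Pool.Agent.H77.BC.R2
import Pool.Agent.H77.BC.P
import Pool.Agent.H78.NP.CookLevin
import Pool.Agent.H78.NP.PNP

/-!
# The reduction is correct
-/

set_option autoImplicit false

namespace Pool.Agent.H77.BC

open Finset Pool.Agent.H78.NP Pool.Agent.H79.Cx

theorem bundling_of_goodOrder {W : Type} [Fintype W] (H : SimpleGraph W) (π : W → ℕ)
    (hπ : Function.Injective π) (h : GoodOrder H π) :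
    ∃ k, HasBundling (cone H) k ∧
      2 * k + ∑ v, min 2 (H.neighborSet v).ncard ≤ ∑ v, (H.neighborSet v).ncard :=
  bundling_of_goodOrder_of (fun _ _ G π hπ => exists_straight G π hπ) H π hπ h

theorem hasBundling_exists {V : Type} [Fintype V] (G : SimpleGraph V) :
    ∃ k, HasBundling G k := by
  obtain ⟨k, -, hk⟩ := exists_straight G (fun v => (Fintype.equivFin V v : ℕ))
    (fun u v h => (Fintype.equivFin V).injective (Fin.ext h))
  exact ⟨k, hk⟩

theorem bc_spec {V : Type} [Fintype V] (G : SimpleGraph V) : HasBundling G (bc G) :=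
  Nat.sInf_mem (hasBundling_exists G)

theorem bc_iso {V V' : Type} {G : SimpleGraph V} {G' : SimpleGraph V'} (e : G ≃g G') :
    bc G = bc G' := by
  unfold bc
  congr 1
  ext k
  exact ⟨hasBundling_iso e k, hasBundling_iso e.symm k⟩

theorem degree_sum (φ : List Cl) {N : ℕ} (hφ : ∀ q < 3 * φ.length, (lit φ q).1 < N) :
    ∑ v, ((redH φ N).neighborSet v).ncard =
      ∑ v, min 2 ((redH φ N).neighborSet v).ncard + 2 * (6 * φ.length * N) := by
  have h : ∀ v : RV N φ.length, ((redH φ N).neighborSet v).ncard =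
      min 2 ((redH φ N).neighborSet v).ncard + (if v.2.2 = false then 1 else 0) := by
    rintro ⟨x, i, b⟩
    cases b with
    | false => rw [redH_degree_false hφ]; rfl
    | true =>
      rcases redH_degree_true hφ x i with h | h <;> rw [h] <;> rfl
  rw [sum_congr rfl fun v _ => h v, sum_add_distrib]
  congr 1
  rw [Fintype.sum_prod_type]
  simp only [Fintype.sum_prod_type, Fintype.sum_bool]
  simp
  ring

theorem bc_cone_le_iff (φ : List Cl) :
    bc (cone (redH φ (nVar φ))) ≤ 6 * φ.length * nVar φ ↔ Sat3 φ := by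
  have hφ := lit_lt φ
  have hsum := degree_sum φ hφ
  constructor
  · intro h
    have h1 := bc_spec (cone (redH φ (nVar φ)))
    obtain ⟨π, hπ, hg⟩ := goodOrder_of_bundling (redH φ (nVar φ)) _ (by
      rintro ⟨x, i, b⟩
      cases b with
      | false => rw [redH_degree_false hφ]
      | true => rcases redH_degree_true hφ x i with h | h <;> rw [h] <;> norm_num) (by
      rintro ⟨x, i, b⟩
      cases b with
      | false => rw [redH_degree_false hφ]; norm_num
      | true => rcases redH_degree_true hφ x i with h | h <;> rw [h]; norm_num) (by omega) h1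
    exact sat_of_goodOrder hφ π hπ hg
  · intro h
    obtain ⟨π, hπ, hg⟩ := goodOrder_of_sat hφ h
    obtain ⟨k, hk, hle⟩ := bundling_of_goodOrder _ π hπ hg
    have h1 : bc (cone (redH φ (nVar φ))) ≤ k := Nat.sInf_le hk
    omega

/-- The decision problem. -/
def BCLE (I : List ℕ × List (ℕ × ℕ) × ℕ) : Prop :=
  bc (Pool.Agent.H82.SN.graphOf I.1 I.2.1) ≤ I.2.2

theorem bcle_instOf (φ : List Cl) : BCLE (instOf φ) ↔ Sat3 φ := by
  obtain ⟨e⟩ := instOf_iso φ
  unfold BCLE
  rw [bc_iso e, instOf_bound]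
  exact bc_cone_le_iff φ

theorem bc_npHardOn :
    NPHardOn Pool.Agent.H82.SN.instCode Pool.Agent.H82.SN.WellFormed BCLE := by
  have h := (nph_sat3.nphp).npHardOn_rep (G' := Pool.Agent.H82.SN.WellFormed) (Q' := BCLE)
    instOf Pool.Agent.H82.SN.binData PT_instOf
    (fun φ _ => instOf_wf φ) (fun φ _ => (bcle_instOf φ).symm)
  intro L hL
  obtain ⟨f, hf, hG, hfx⟩ := h L hL
  refine ⟨f, ?_, hG, hfx⟩
  have e : (fun b => cd (Pool.Agent.H82.SN.binData b)) = Pool.Agent.H82.SN.instCode :=
    funext Pool.Agent.H82.SN.cd_binData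
  rw [← e]
  exact hf

end Pool.Agent.H77.BC
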