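import Pool.Agent.H77.BC.Defs
import Pool.Agent.H78.NP.SM

/-!
# The graph of the reduction from 3SAT
-/

set_option autoImplicit false

namespace Pool.Agent.H77.BC

open Pool.Agent.H78.NP

/-- The `q`-th literal occurrence (`q < 3 * φ.length`): the occurrences in the `j`-th clause have
the numbers `3 * j`, `3 * j + 1`, `3 * j + 2`. -/
def lit (φ : List Cl) (q : ℕ) : Lit :=
  let c := φ.getD (q / 3) ((0, true), (0, true), (0, true))
  if q % 3 = 0 then c.1 else if q % 3 = 1 then c.2.1 else c.2.2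

/-- The next literal occurrence in the same clause, cyclically. -/
def nxt (q : ℕ) : ℕ := if q % 3 = 2 then q - 2 else q + 1

/-- The first port of the `q`-th literal occurrence; the second one is `prt φ q + 1`. -/
def prt (φ : List Cl) (q : ℕ) : ℕ := 4 * q + if (lit φ q).2 = true then 0 else 1

/-- The vertices: for each variable `x < N` a cycle of length `12 * M` (vertices
`(x, i, false)`), with a pendant vertex `(x, i, true)` at each vertex. -/
abbrev RV (N M : ℕ) : Type := Fin N × Fin (12 * M) × Bool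

/-- The edges: pendant edges, cycle edges, and one edge for each literal occurrence. -/
def redRel (φ : List Cl) (N : ℕ) (u v : RV N φ.length) : Prop :=
  (u.2.2 = false ∧ v.2.2 = true ∧ u.1 = v.1 ∧ u.2.1 = v.2.1) ∨
  (u.2.2 = false ∧ v.2.2 = false ∧ u.1 = v.1 ∧
    (v.2.1 : ℕ) = ((u.2.1 : ℕ) + 1) % (12 * φ.length)) ∨
  (u.2.2 = true ∧ v.2.2 = true ∧ ∃ q < 3 * φ.length,
    (u.1 : ℕ) = (lit φ q).1 ∧ (u.2.1 : ℕ) = prt φ q + 1 ∧
    (v.1 : ℕ) = (lit φ (nxt q)).1 ∧ (v.2.1 : ℕ) = prt φ (nxt q))

/-- The graph of the reduction. -/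
def redH (φ : List Cl) (N : ℕ) : SimpleGraph (RV N φ.length) := SimpleGraph.fromRel (redRel φ N)

/-- A bound for the variables. -/
def nVar (φ : List Cl) : ℕ := (φ.map fun c => c.1.1 + c.2.1.1 + c.2.2.1).sum + 1

end Pool.Agent.H77.BC
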