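import Pool.Agent.H77.BC.Defs

/-!
# Module T1: two disjoint paths in the closed disk do not have alternating ends
-/

set_option autoImplicit false

namespace Pool.Agent.H77.BC

open Set Complex

/-- The argument of `1 - B * conj A`. -/
noncomputable def ang (A B : ℂ) : ℝ := Complex.arg (1 - B * (starRingEnd ℂ) A)

/-- The cyclic sum of arguments; it does not vanish if `A, C` and `B, D` alternate. -/
noncomputable def alt (A B C D : ℂ) : ℝ := ang A B + ang B C + ang C D + ang D A

theorem re_pos_of_ne {a b : ℂ} (ha : ‖a‖ ≤ 1) (hb : ‖b‖ = 1) (hab : a ≠ b) :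
    0 < (1 - a * (starRingEnd ℂ) b).re := by
  have h1 : 0 < normSq (a - b) := normSq_pos.2 (sub_ne_zero.2 hab)
  have h2 : normSq a ≤ 1 := by
    rw [normSq_eq_norm_sq]
    nlinarith [norm_nonneg a]
  have h3 : normSq b = 1 := by
    rw [normSq_eq_norm_sq, hb]
    norm_num
  rw [normSq_sub, h3] at h1
  rw [sub_re, one_re]
  linarith

/-- The change of a continuous logarithm along a path in a half plane. -/
theorem log_side {g p : ℝ → ℂ} (hg : Continuous g) (hp : Continuous p) (c : ℂ)
    (hexp : ∀ s, exp (g s) = c * p s) (hre : ∀ s, 0 < (p s).re) (a b : ℝ) :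
    g a - g b = log (p a) - log (p b) := by
  have hcont : Continuous fun s => g s - log (p s) :=
    hg.sub (hp.clog fun s => Or.inl (hre s))
  have hne : ∀ s, p s ≠ 0 := by
    intro s h
    have := hre s
    rw [h] at this
    simp at this
  have hval : ∀ s, exp (g s - log (p s)) = c := by
    intro s
    rw [exp_sub, exp_log (hne s), hexp s, mul_div_assoc, div_self (hne s), mul_one]
  have h := isCoveringMap_exp.const_of_comp hcont (fun s t => by
    ext1
    change exp (g s - log (p s)) = exp (g t - log (p t))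
    rw [hval, hval]) a b
  linear_combination h

theorem ang_swap {A B : ℂ} (hA : ‖A‖ = 1) (hB : ‖B‖ = 1) (hAB : A ≠ B) :
    ang B A = -ang A B := by
  unfold ang
  have h1 : (starRingEnd ℂ) (1 - B * (starRingEnd ℂ) A) = 1 - A * (starRingEnd ℂ) B := by
    simp [mul_comm]
  rw [← h1, arg_conj, if_neg]
  intro h2
  have h3 := re_pos_of_ne hB.le hA hAB.symm
  rw [arg_eq_pi_iff] at h2
  linarith [h2.1]

theorem alt_eq_zero {A B C D : ℂ} (hA : ‖A‖ = 1) (hB : ‖B‖ = 1) (hC : ‖C‖ = 1) (hD : ‖D‖ = 1)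
    (α β : ℝ → ℂ) (hα : ContinuousOn α (Icc 0 1)) (hβ : ContinuousOn β (Icc 0 1))
    (hα1 : ∀ s ∈ Icc (0 : ℝ) 1, ‖α s‖ ≤ 1) (hβ1 : ∀ t ∈ Icc (0 : ℝ) 1, ‖β t‖ ≤ 1)
    (hα0 : α 0 = A) (hα' : α 1 = C) (hβ0 : β 0 = B) (hβ' : β 1 = D)
    (hne : ∀ s ∈ Icc (0 : ℝ) 1, ∀ t ∈ Icc (0 : ℝ) 1, α s ≠ β t) : alt A B C D = 0 := by
  -- extend the paths to the line
  set cl : ℝ → ℝ := fun s => max 0 (min 1 s) with hcl
  have hclc : Continuous cl := by fun_prop
  have hclm : ∀ s, cl s ∈ Icc (0 : ℝ) 1 := fun s =>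
    ⟨le_max_left _ _, max_le zero_le_one (min_le_left _ _)⟩
  have hcl0 : cl 0 = 0 := by simp [hcl]
  have hcl1 : cl 1 = 1 := by simp [hcl]
  set a : ℝ → ℂ := fun s => α (cl s) with ha
  set b : ℝ → ℂ := fun s => β (cl s) with hb
  have hac : Continuous a := hα.comp_continuous hclc hclm
  have hbc : Continuous b := hβ.comp_continuous hclc hclm
  have ha0 : a 0 = A := by rw [ha]; dsimp only; rw [hcl0, hα0]
  have ha1 : a 1 = C := by rw [ha]; dsimp only; rw [hcl1, hα']
  have hb0 : b 0 = B := by rw [hb]; dsimp only; rw [hcl0, hβ0]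
  have hb1 : b 1 = D := by rw [hb]; dsimp only; rw [hcl1, hβ']
  have hab : ∀ s t, a s ≠ b t := fun s t => hne _ (hclm s) _ (hclm t)
  have han : ∀ s, ‖a s‖ ≤ 1 := fun s => hα1 _ (hclm s)
  have hbn : ∀ s, ‖b s‖ ≤ 1 := fun s => hβ1 _ (hclm s)
  -- a continuous logarithm
  have hsc : IsSimplyConnected (univ : Set (ℝ × ℝ)) := by
    unfold IsSimplyConnected
    have : SimplyConnectedSpace (ℝ × ℝ) := inferInstance
    exact (Homeomorph.Set.univ (ℝ × ℝ)).toHomotopyEquiv.simplyConnectedSpace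
  obtain ⟨g, hgc, hg⟩ := exists_continuousOn_eqOn_exp_comp hsc isOpen_univ
    (g := fun z : ℝ × ℝ => a z.1 - b z.2) (by fun_prop) (by
      rintro ⟨z, -, hz⟩
      exact hab _ _ (sub_eq_zero.1 hz))
  replace hgc := continuousOn_univ.1 hgc
  have hg' : ∀ s t, exp (g (s, t)) = a s - b t := fun s t => hg (mem_univ (s, t))
  have conj_mul_self' : ∀ X : ℂ, ‖X‖ = 1 → (starRingEnd ℂ) X * X = 1 := by
    intro X hX
    rw [← normSq_eq_conj_mul_self, normSq_eq_norm_sq, hX]
    norm_num
  -- the four sides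
  have s1 := log_side (g := fun s => g (s, 0)) (p := fun s => 1 - a s * (starRingEnd ℂ) B)
    (by fun_prop) (by fun_prop) (-B) (fun s => by
      rw [hg', hb0]
      linear_combination (-a s) * conj_mul_self' B hB)
    (fun s => re_pos_of_ne (han s) hB (by rw [← hb0]; exact hab _ _)) 1 0
  have s2 := log_side (g := fun t => g (1, t)) (p := fun t => 1 - b t * (starRingEnd ℂ) C)
    (by fun_prop) (by fun_prop) C (fun t => by
      rw [hg', ha1]
      linear_combination (b t) * conj_mul_self' C hC)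
    (fun t => re_pos_of_ne (hbn t) hC (by rw [← ha1]; exact (hab _ _).symm)) 1 0
  have s3 := log_side (g := fun s => g (s, 1)) (p := fun s => 1 - a s * (starRingEnd ℂ) D)
    (by fun_prop) (by fun_prop) (-D) (fun s => by
      rw [hg', hb1]
      linear_combination (-a s) * conj_mul_self' D hD)
    (fun s => re_pos_of_ne (han s) hD (by rw [← hb1]; exact hab _ _)) 1 0
  have s4 := log_side (g := fun t => g (0, t)) (p := fun t => 1 - b t * (starRingEnd ℂ) A)
    (by fun_prop) (by fun_prop) A (fun t => by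
      rw [hg', ha0]
      linear_combination (b t) * conj_mul_self' A hA)
    (fun t => re_pos_of_ne (hbn t) hA (by rw [← ha0]; exact (hab _ _).symm)) 1 0
  rw [ha0, ha1] at s1 s3
  rw [hb0, hb1] at s2 s4
  have hAB : A ≠ B := by rw [← ha0, ← hb0]; exact hab _ _
  have hCB : C ≠ B := by rw [← ha1, ← hb0]; exact hab _ _
  have hCD : C ≠ D := by rw [← ha1, ← hb1]; exact hab _ _
  have hAD : A ≠ D := by rw [← ha0, ← hb1]; exact hab _ _
  have e1 := ang_swap hA hB hAB
  have e2 := ang_swap hC hB hCB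
  have e3 := ang_swap hC hD hCD
  have e4 := ang_swap hA hD hAD
  have key : (log (1 - C * (starRingEnd ℂ) B) - log (1 - A * (starRingEnd ℂ) B)) +
      (log (1 - D * (starRingEnd ℂ) C) - log (1 - B * (starRingEnd ℂ) C)) -
      (log (1 - D * (starRingEnd ℂ) A) - log (1 - B * (starRingEnd ℂ) A)) -
      (log (1 - C * (starRingEnd ℂ) D) - log (1 - A * (starRingEnd ℂ) D)) = 0 := by
    rw [← s1, ← s2, ← s3, ← s4]
    ring
  have him := congrArg Complex.im key
  simp only [sub_im, add_im, log_im, zero_im] at him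
  change ang B C - ang B A + (ang C D - ang C B) - (ang A D - ang A B) -
    (ang D C - ang D A) = 0 at him
  unfold alt
  rw [e1, e3] at him
  linarith
end Pool.Agent.H77.BC
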