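import Pool.Agent.H77.BC.T1

/-!
# Module T2: two edges of a simple circular layout which cross once (surgery)
-/

set_option autoImplicit false

namespace Pool.Agent.H77.BC

open Set

namespace T2X

/-- Two disjoint connected sets in the closed disk. -/
theorem alt_of_joinedIn {A B C D : ℂ} (hA : ‖A‖ = 1) (hB : ‖B‖ = 1) (hC : ‖C‖ = 1)
    (hD : ‖D‖ = 1) {S T : Set ℂ} (hS : ∀ z ∈ S, ‖z‖ ≤ 1) (hT : ∀ z ∈ T, ‖z‖ ≤ 1)
    (hST : Disjoint S T) (h1 : JoinedIn S A C) (h2 : JoinedIn T B D) : alt A B C D = 0 := by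
  obtain ⟨γ, hγ⟩ := h1
  obtain ⟨δ, hδ⟩ := h2
  have hγm : ∀ s, γ.extend s ∈ S := fun s => by
    have : γ.extend s ∈ range γ.extend := mem_range_self s
    rw [γ.extend_range] at this
    obtain ⟨t, ht⟩ := this
    rw [← ht]
    exact hγ t
  have hδm : ∀ s, δ.extend s ∈ T := fun s => by
    have : δ.extend s ∈ range δ.extend := mem_range_self s
    rw [δ.extend_range] at this
    obtain ⟨t, ht⟩ := this
    rw [← ht]
    exact hδ t
  refine alt_eq_zero hA hB hC hD γ.extend δ.extend γ.continuous_extend.continuousOn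
    δ.continuous_extend.continuousOn (fun s _ => hS _ (hγm s)) (fun s _ => hT _ (hδm s))
    γ.extend_zero γ.extend_one δ.extend_zero δ.extend_one ?_
  intro s _ t _ hst
  exact Set.disjoint_left.mp hST (hγm s) (hst ▸ hδm t)

/-- The parameter of a curve on a Jordan arc. -/
theorem arc_inv {γ ψ : ℝ → ℂ} {a b : ℝ} (hc : ContinuousOn γ (Icc 0 1))
    (hi : InjOn γ (Icc 0 1)) (hψ : ContinuousOn ψ (Icc a b))
    (hK : ∀ y ∈ Icc a b, ψ y ∈ γ '' Icc 0 1) :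
    ∃ g : ℝ → ℝ, ContinuousOn g (Icc a b) ∧ ∀ y ∈ Icc a b, g y ∈ Icc (0 : ℝ) 1 ∧ γ (g y) = ψ y := by
  classical
  have hemb : Topology.IsClosedEmbedding ((Icc (0 : ℝ) 1).domRestrict γ) :=
    (continuousOn_iff_continuous_domRestrict.mp hc).isClosedEmbedding
      (injOn_iff_injective.mp hi)
  choose! g hg1 hg2 using hK
  refine ⟨g, ?_, fun y hy => ⟨hg1 y hy, hg2 y hy⟩⟩
  rw [continuousOn_iff_continuous_domRestrict]
  set g' : Icc a b → Icc (0 : ℝ) 1 := fun y => ⟨g y, hg1 y y.2⟩ with hg'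
  have h1 : Continuous g' := by
    rw [hemb.isInducing.continuous_iff]
    have h2 : (Icc (0 : ℝ) 1).domRestrict γ ∘ g' = (Icc a b).domRestrict ψ := by
      funext y
      simp only [Function.comp, hg']
      exact hg2 y y.2
    rw [h2]
    exact continuousOn_iff_continuous_domRestrict.mp hψ
  exact continuous_subtype_val.comp h1

/-- Splitting a Jordan arc at an interior point. -/
theorem split_arc {K : Set ℂ} {p q z : ℂ} (hK : IsArc K p q) {ψ : ℝ → ℂ}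
    (hψ : ContinuousOn ψ (Icc 0 2)) (hψi : InjOn ψ (Icc 0 2)) (hψK : ∀ y ∈ Icc (0 : ℝ) 2, ψ y ∈ K)
    (hz : ψ 1 = z) (hzp : z ≠ p) (hzq : z ≠ q) :
    ∃ P Q : Set ℂ, P ⊆ K ∧ Q ⊆ K ∧ z ∉ P ∧ z ∉ Q ∧ Disjoint P Q ∧ IsPathConnected P ∧
      IsPathConnected Q ∧ p ∈ P ∧ q ∈ Q ∧
      ∃ τ : ℝ, (τ = 1 ∨ τ = -1) ∧ ψ (1 - τ) ∈ P ∧ ψ (1 + τ) ∈ Q := by
  obtain ⟨γ, hc, hi, h0, h1, him⟩ := hK
  obtain ⟨g, hg, hg'⟩ := arc_inv hc hi hψ (fun y hy => him ▸ hψK y hy)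
  have hm0 : (0 : ℝ) ∈ Icc (0 : ℝ) 2 := by constructor <;> norm_num
  have hm1 : (1 : ℝ) ∈ Icc (0 : ℝ) 2 := by constructor <;> norm_num
  have hm2 : (2 : ℝ) ∈ Icc (0 : ℝ) 2 := by constructor <;> norm_num
  obtain ⟨hs01, hs0z⟩ := hg' 1 hm1
  set s0 := g 1 with hs0
  have hγz : γ s0 = z := hs0z.trans hz
  have hs0pos : 0 < s0 := by
    rcases hs01.1.lt_or_eq with h | h
    · exact h
    · exact absurd (by rw [← hγz, ← h, h0]) hzp
  have hs0lt : s0 < 1 := by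
    rcases hs01.2.lt_or_eq with h | h
    · exact h
    · exact absurd (by rw [← hγz, h, h1]) hzq
  have hgi : InjOn g (Icc 0 2) := by
    intro a ha b hb hab
    apply hψi ha hb
    rw [← (hg' a ha).2, ← (hg' b hb).2, hab]
  have hsub1 : Ico 0 s0 ⊆ Icc (0 : ℝ) 1 := fun s hs => ⟨hs.1, (hs.2.trans hs0lt).le⟩
  have hsub2 : Ioc s0 1 ⊆ Icc (0 : ℝ) 1 := fun s hs => ⟨(hs0pos.trans hs.1).le, hs.2⟩
  refine ⟨γ '' Ico 0 s0, γ '' Ioc s0 1, ?_, ?_, ?_, ?_, ?_, ?_, ?_, ?_, ?_, ?_⟩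
  · rw [← him]
    exact image_mono hsub1
  · rw [← him]
    exact image_mono hsub2
  · rintro ⟨s, hs, hsz⟩
    have := hi (hsub1 hs) hs01 (hsz.trans hγz.symm)
    exact absurd this hs.2.ne
  · rintro ⟨s, hs, hsz⟩
    have := hi (hsub2 hs) hs01 (hsz.trans hγz.symm)
    exact absurd this hs.1.ne'
  · rw [Set.disjoint_left]
    rintro _ ⟨s, hs, rfl⟩ ⟨t, ht, hts⟩
    have := hi (hsub2 ht) (hsub1 hs) hts
    exact absurd this (hs.2.trans ht.1).ne'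
  · exact IsPathConnected.image' ((convex_Ico 0 s0).isPathConnected ⟨0, le_refl _, hs0pos⟩)
      (hc.mono hsub1)
  · exact IsPathConnected.image' ((convex_Ioc s0 1).isPathConnected ⟨1, hs0lt, le_refl _⟩)
      (hc.mono hsub2)
  · exact ⟨0, ⟨le_refl _, hs0pos⟩, h0⟩
  · exact ⟨1, ⟨hs0lt, le_refl _⟩, h1⟩
  · rcases ContinuousOn.strictMonoOn_of_injOn_Icc' (by norm_num) hg hgi with hmono | hanti
    · refine ⟨1, Or.inl rfl, ⟨g 0, ⟨(hg' 0 hm0).1.1, hmono hm0 hm1 (by norm_num)⟩, ?_⟩,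
        ⟨g 2, ⟨hmono hm1 hm2 (by norm_num), (hg' 2 hm2).1.2⟩, ?_⟩⟩
      · rw [(hg' 0 hm0).2]
        norm_num
      · rw [(hg' 2 hm2).2]
        norm_num
    · refine ⟨-1, Or.inr rfl, ⟨g 2, ⟨(hg' 2 hm2).1.1, hanti hm1 hm2 (by norm_num)⟩, ?_⟩,
        ⟨g 0, ⟨hanti hm0 hm1 (by norm_num), (hg' 0 hm0).1.2⟩, ?_⟩⟩
      · rw [(hg' 2 hm2).2]
        norm_num
      · rw [(hg' 0 hm0).2]
        norm_num

end T2X

open T2X

variable {V : Type} {G : SimpleGraph V} {x : V → ℂ} {K : Sym2 V → Set ℂ}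

/-- Points of the edges lie in the closed disk. -/
theorem T2X.norm_le_one (hL : IsLayout G x K) {u w : V} (h : G.Adj u w) {z : ℂ}
    (hz : z ∈ K s(u, w)) : ‖z‖ ≤ 1 := by
  rcases hL.inside u w h z hz with h1 | h1 | h1
  · exact h1.le
  · rw [h1, hL.norm_eq]
  · rw [h1, hL.norm_eq]

/-- Two disjoint edges. -/
theorem alt_of_disjoint (hL : IsLayout G x K) {u w u' w' : V} (h : G.Adj u w) (h' : G.Adj u' w')
    (hd : K s(u, w) ∩ K s(u', w') = ∅) : alt (x u) (x u') (x w) (x w') = 0 := by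
  obtain ⟨γ, hc, -, h0, h1, him⟩ := hL.arc u w h
  obtain ⟨δ, hc', -, h0', h1', him'⟩ := hL.arc u' w' h'
  refine alt_eq_zero (hL.norm_eq _) (hL.norm_eq _) (hL.norm_eq _) (hL.norm_eq _) γ δ hc hc' ?_ ?_
    h0 h1 h0' h1' ?_
  · intro s hs
    exact norm_le_one hL h (him ▸ mem_image_of_mem γ hs)
  · intro s hs
    exact norm_le_one hL h' (him' ▸ mem_image_of_mem δ hs)
  · intro s hs t ht hst
    have h2 : γ s ∈ K s(u, w) ∩ K s(u', w') :=
      ⟨him ▸ mem_image_of_mem γ hs, by rw [hst]; exact him' ▸ mem_image_of_mem δ ht⟩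
    rw [hd] at h2
    exact h2

/-- The surgery at a crossing, one half. -/
theorem T2X.alt_of_cross_aux (hL : IsLayout G x K) (hS : IsSimple G K) {u w u' w' : V}
    (h : G.Adj u w) (h' : G.Adj u' w') (h1 : u ≠ u') (h2 : u ≠ w') (h3 : w ≠ u') (h4 : w ≠ w')
    (hc : (K s(u, w) ∩ K s(u', w')).Nonempty) :
    alt (x u) (x w) (x u') (x w') = 0 ∧ alt (x u) (x w) (x w') (x u') = 0 := by
  have hef : s(u, w) ≠ s(u', w') := by
    intro he
    rw [Sym2.eq_iff] at he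
    rcases he with he | he
    · exact h1 he.1
    · exact h2 he.1
  have hfe : s(u', w') ≠ s(u, w) := hef.symm
  have hE : s(u, w) ∈ G.edgeSet := (SimpleGraph.mem_edgeSet G).mpr h
  have hF : s(u', w') ∈ G.edgeSet := (SimpleGraph.mem_edgeSet G).mpr h'
  obtain ⟨z, hze, hzf⟩ := hc
  have hsub := hS _ hE _ hF hef
  have honly : ∀ z', z' ∈ K s(u, w) → z' ∈ K s(u', w') → z' = z := fun z' h1 h2 =>
    hsub ⟨h1, h2⟩ ⟨hze, hzf⟩
  -- the crossing is inside the disk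
  have hzu : z ≠ x u := by
    intro hz
    rcases hL.inside u' w' h' z hzf with h5 | h5 | h5
    · rw [hz, hL.norm_eq] at h5
      exact lt_irrefl _ h5
    · exact h1 (hL.inj (hz ▸ h5))
    · exact h2 (hL.inj (hz ▸ h5))
  have hzw : z ≠ x w := by
    intro hz
    rcases hL.inside u' w' h' z hzf with h5 | h5 | h5
    · rw [hz, hL.norm_eq] at h5
      exact lt_irrefl _ h5
    · exact h3 (hL.inj (hz ▸ h5))
    · exact h4 (hL.inj (hz ▸ h5))
  have hz1 : ‖z‖ < 1 := by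
    rcases hL.inside u w h z hze with h5 | h5 | h5
    · exact h5
    · exact absurd h5 hzu
    · exact absurd h5 hzw
  have hzu' : z ≠ x u' := by
    intro hz
    rw [hz, hL.norm_eq] at hz1
    exact lt_irrefl _ hz1
  have hzw' : z ≠ x w' := by
    intro hz
    rw [hz, hL.norm_eq] at hz1
    exact lt_irrefl _ hz1
  obtain ⟨φ, hφ, hφz⟩ := hL.proper _ hE _ hF hef z ⟨hze, hzf⟩ hz1
  have hrect : ∀ a b : ℝ, (a, b) ∈ rect 1 1 ↔ (a ∈ Icc (0 : ℝ) 2 ∧ b ∈ Icc (0 : ℝ) 2) := by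
    intro a b
    unfold rect
    rw [mem_prod]
    norm_num
  have hme : ∀ a b : ℝ, (a, b) ∈ rect 1 1 → (φ (a, b) ∈ K s(u, w) ↔ a = 1) := by
    intro a b hab
    rw [hφ.mem_iff (a, b) hab _ hE]
    simp [hfe]
  have hmf : ∀ a b : ℝ, (a, b) ∈ rect 1 1 → (φ (a, b) ∈ K s(u', w') ↔ b = 1) := by
    intro a b hab
    rw [hφ.mem_iff (a, b) hab _ hF]
    simp [hef]
  have hm1 : (1 : ℝ) ∈ Icc (0 : ℝ) 2 := by constructor <;> norm_num
  -- the two lines of the chart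
  obtain ⟨P, Q, hPK, hQK, hzP, hzQ, hPQ, hPc, hQc, huP, hwQ, τ, hτ, hτP, hτQ⟩ :=
    split_arc (z := z) (hL.arc u w h) (ψ := fun y => φ (1, y))
      (hφ.cont.comp (by fun_prop) (fun y hy => (hrect 1 y).mpr ⟨hm1, hy⟩))
      (fun a ha b hb hab => (Prod.mk.inj (hφ.inj ((hrect 1 a).mpr ⟨hm1, ha⟩)
        ((hrect 1 b).mpr ⟨hm1, hb⟩) hab)).2)
      (fun y hy => (hme 1 y ((hrect 1 y).mpr ⟨hm1, hy⟩)).mpr rfl) hφz hzu hzw
  obtain ⟨P', Q', hPK', hQK', hzP', hzQ', hPQ', hPc', hQc', huP', hwQ', σ, hσ, hσP, hσQ⟩ :=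
    split_arc (z := z) (hL.arc u' w' h') (ψ := fun y => φ (y, 1))
      (hφ.cont.comp (by fun_prop) (fun y hy => (hrect y 1).mpr ⟨hy, hm1⟩))
      (fun a ha b hb hab => (Prod.mk.inj (hφ.inj ((hrect a 1).mpr ⟨ha, hm1⟩)
        ((hrect b 1).mpr ⟨hb, hm1⟩) hab)).1)
      (fun y hy => (hmf y 1 ((hrect y 1).mpr ⟨hy, hm1⟩)).mpr rfl) hφz hzu' hzw'
  -- the general statement about the segments
  have hkey : ∀ (τ σ : ℝ), (τ = 1 ∨ τ = -1) → (σ = 1 ∨ σ = -1) → ∀ t ∈ Icc (0 : ℝ) 1,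
      ((1 - t * σ, 1 - (1 - t) * τ) : ℝ × ℝ) ∈ rect 1 1 := by
    intro τ σ hτ hσ t ht
    rw [hrect]
    obtain ⟨ht0, ht1⟩ := ht
    constructor
    · rcases hσ with rfl | rfl <;> constructor <;> linarith
    · rcases hτ with rfl | rfl <;> constructor <;> linarith
  have hτ0 : τ ≠ 0 := by rcases hτ with rfl | rfl <;> norm_num
  have hσ0 : σ ≠ 0 := by rcases hσ with rfl | rfl <;> norm_num
  -- the segment for the signs
  set seg : ℝ → ℝ → Set ℂ := fun τ σ =>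
    (fun t : ℝ => φ (1 - t * σ, 1 - (1 - t) * τ)) '' Icc 0 1 with hseg
  have hsegc : ∀ (τ σ : ℝ), (τ = 1 ∨ τ = -1) → (σ = 1 ∨ σ = -1) → IsPathConnected (seg τ σ) := by
    intro τ σ hτ hσ
    apply IsPathConnected.image' ((convex_Icc 0 1).isPathConnected ⟨0, by constructor <;> norm_num⟩)
    exact hφ.cont.comp (by fun_prop) (fun t ht => hkey τ σ hτ hσ t ht)
  have hseg0 : ∀ τ σ : ℝ, φ (1, 1 - τ) ∈ seg τ σ := by
    intro τ σ
    refine ⟨0, by constructor <;> norm_num, ?_⟩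
    simp
  have hseg1 : ∀ τ σ : ℝ, φ (1 - σ, 1) ∈ seg τ σ := by
    intro τ σ
    refine ⟨1, by constructor <;> norm_num, ?_⟩
    simp
  have hsegn : ∀ (τ σ : ℝ), (τ = 1 ∨ τ = -1) → (σ = 1 ∨ σ = -1) → ∀ y ∈ seg τ σ, ‖y‖ ≤ 1 := by
    rintro τ σ hτ hσ _ ⟨t, ht, rfl⟩
    exact (hφ.inside _ (hkey τ σ hτ hσ t ht)).le
  -- a point of a segment on an edge is an end of the segment
  have hsege : ∀ (τ σ : ℝ), (τ = 1 ∨ τ = -1) → (σ = 1 ∨ σ = -1) → ∀ y ∈ seg τ σ,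
      y ∈ K s(u, w) → y = φ (1, 1 - τ) := by
    rintro τ σ hτ hσ _ ⟨t, ht, rfl⟩ hy
    have h5 := (hme _ _ (hkey τ σ hτ hσ t ht)).mp hy
    have hσ0 : σ ≠ 0 := by rcases hσ with rfl | rfl <;> norm_num
    have h6 : t = 0 := by
      have : t * σ = 0 := by linarith
      exact (mul_eq_zero.mp this).resolve_right hσ0
    rw [h6]
    simp
  have hsegf : ∀ (τ σ : ℝ), (τ = 1 ∨ τ = -1) → (σ = 1 ∨ σ = -1) → ∀ y ∈ seg τ σ,
      y ∈ K s(u', w') → y = φ (1 - σ, 1) := by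
    rintro τ σ hτ hσ _ ⟨t, ht, rfl⟩ hy
    have h5 := (hmf _ _ (hkey τ σ hτ hσ t ht)).mp hy
    have hτ0 : τ ≠ 0 := by rcases hτ with rfl | rfl <;> norm_num
    have h6 : t = 1 := by
      have : (1 - t) * τ = 0 := by linarith
      have := (mul_eq_zero.mp this).resolve_right hτ0
      linarith
    rw [h6]
    simp
  have hsegd : ∀ (τ σ : ℝ), (τ = 1 ∨ τ = -1) → (σ = 1 ∨ σ = -1) →
      ∀ y ∈ seg τ σ, y ∉ seg (-τ) (-σ) := by
    rintro τ σ hτ hσ _ ⟨t, ht, rfl⟩ ⟨t', ht', hy⟩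
    have hτ' : -τ = 1 ∨ -τ = -1 := by rcases hτ with rfl | rfl <;> norm_num
    have hσ' : -σ = 1 ∨ -σ = -1 := by rcases hσ with rfl | rfl <;> norm_num
    have h5 := hφ.inj (hkey (-τ) (-σ) hτ' hσ' t' ht') (hkey τ σ hτ hσ t ht) hy
    obtain ⟨h6, h7⟩ := Prod.mk.inj h5
    have hσ0 : σ ≠ 0 := by rcases hσ with rfl | rfl <;> norm_num
    have hτ0 : τ ≠ 0 := by rcases hτ with rfl | rfl <;> norm_num
    have h8 : t + t' = 0 := by
      have : (t + t') * σ = 0 := by linarith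
      exact (mul_eq_zero.mp this).resolve_right hσ0
    have h9 : (1 - t) + (1 - t') = 0 := by
      have : ((1 - t) + (1 - t')) * τ = 0 := by linarith
      exact (mul_eq_zero.mp this).resolve_right hτ0
    linarith
  have hτ' : -τ = 1 ∨ -τ = -1 := by rcases hτ with rfl | rfl <;> norm_num
  have hσ' : -σ = 1 ∨ -σ = -1 := by rcases hσ with rfl | rfl <;> norm_num
  have hτQ' : φ (1, 1 - -τ) ∈ Q := by rwa [sub_neg_eq_add]
  have hσQ' : φ (1 - -σ, 1) ∈ Q' := by rwa [sub_neg_eq_add]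
  -- the general conclusion
  have hgen : ∀ (τ σ : ℝ) (a b : ℂ) (P' Q' : Set ℂ), (τ = 1 ∨ τ = -1) → (σ = 1 ∨ σ = -1) →
      ‖a‖ = 1 → ‖b‖ = 1 → P' ⊆ K s(u', w') → Q' ⊆ K s(u', w') → z ∉ P' → z ∉ Q' →
      Disjoint P' Q' → IsPathConnected P' → IsPathConnected Q' → a ∈ P' → b ∈ Q' →
      φ (1, 1 - τ) ∈ P → φ (1, 1 - -τ) ∈ Q → φ (1 - σ, 1) ∈ P' → φ (1 - -σ, 1) ∈ Q' →
      alt (x u) (x w) a b = 0 := by
    intro τ σ a b P' Q' hτ hσ ha hb hPK' hQK' hzP' hzQ' hPQ' hPc' hQc' haP hbQ hτP hτQ hσP hσQ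
    have hτ' : -τ = 1 ∨ -τ = -1 := by rcases hτ with rfl | rfl <;> norm_num
    have hσ' : -σ = 1 ∨ -σ = -1 := by rcases hσ with rfl | rfl <;> norm_num
    have hnP : ∀ y ∈ P, ‖y‖ ≤ 1 := fun y hy => norm_le_one hL h (hPK hy)
    have hnQ : ∀ y ∈ Q, ‖y‖ ≤ 1 := fun y hy => norm_le_one hL h (hQK hy)
    have hnP' : ∀ y ∈ P', ‖y‖ ≤ 1 := fun y hy => norm_le_one hL h' (hPK' hy)
    have hnQ' : ∀ y ∈ Q', ‖y‖ ≤ 1 := fun y hy => norm_le_one hL h' (hQK' hy)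
    refine alt_of_joinedIn (hL.norm_eq _) (hL.norm_eq _) ha hb
      (S := P ∪ seg τ σ ∪ P') (T := Q ∪ seg (-τ) (-σ) ∪ Q') ?_ ?_ ?_ ?_ ?_
    · rintro y ((hy | hy) | hy)
      · exact hnP y hy
      · exact hsegn τ σ hτ hσ y hy
      · exact hnP' y hy
    · rintro y ((hy | hy) | hy)
      · exact hnQ y hy
      · exact hsegn (-τ) (-σ) hτ' hσ' y hy
      · exact hnQ' y hy
    · rw [Set.disjoint_left]
      rintro y ((hy | hy) | hy) ((hy' | hy') | hy')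
      · exact Set.disjoint_left.mp hPQ hy hy'
      · have h5 := hsege (-τ) (-σ) hτ' hσ' y hy' (hPK hy)
        exact Set.disjoint_left.mp hPQ hy (h5 ▸ hτQ)
      · exact hzP (honly y (hPK hy) (hQK' hy') ▸ hy)
      · have h5 := hsege τ σ hτ hσ y hy (hQK hy')
        exact Set.disjoint_left.mp hPQ (h5 ▸ hτP) hy'
      · exact hsegd τ σ hτ hσ y hy hy'
      · have h5 := hsegf τ σ hτ hσ y hy (hQK' hy')
        exact Set.disjoint_left.mp hPQ' (h5 ▸ hσP) hy'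
      · exact hzQ (honly y (hQK hy') (hPK' hy) ▸ hy')
      · have h5 := hsegf (-τ) (-σ) hτ' hσ' y hy' (hPK' hy)
        exact Set.disjoint_left.mp hPQ' hy (h5 ▸ hσQ)
      · exact Set.disjoint_left.mp hPQ' hy hy'
    · have j1 : JoinedIn P (x u) (φ (1, 1 - τ)) := hPc.joinedIn _ huP _ hτP
      have j2 : JoinedIn (seg τ σ) (φ (1, 1 - τ)) (φ (1 - σ, 1)) :=
        (hsegc τ σ hτ hσ).joinedIn _ (hseg0 τ σ) _ (hseg1 τ σ)
      have j3 : JoinedIn P' (φ (1 - σ, 1)) a := hPc'.joinedIn _ hσP _ haP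
      exact ((j1.mono (by intro y hy; exact Or.inl (Or.inl hy))).trans
        (j2.mono (by intro y hy; exact Or.inl (Or.inr hy)))).trans
        (j3.mono (by intro y hy; exact Or.inr hy))
    · have j1 : JoinedIn Q (x w) (φ (1, 1 - -τ)) := hQc.joinedIn _ hwQ _ hτQ
      have j2 : JoinedIn (seg (-τ) (-σ)) (φ (1, 1 - -τ)) (φ (1 - -σ, 1)) :=
        (hsegc (-τ) (-σ) hτ' hσ').joinedIn _ (hseg0 (-τ) (-σ)) _ (hseg1 (-τ) (-σ))
      have j3 : JoinedIn Q' (φ (1 - -σ, 1)) b := hQc'.joinedIn _ hσQ _ hbQ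
      exact ((j1.mono (by intro y hy; exact Or.inl (Or.inl hy))).trans
        (j2.mono (by intro y hy; exact Or.inl (Or.inr hy)))).trans
        (j3.mono (by intro y hy; exact Or.inr hy))
  constructor
  · exact hgen τ σ _ _ P' Q' hτ hσ (hL.norm_eq _) (hL.norm_eq _) hPK' hQK' hzP' hzQ' hPQ' hPc' hQc'
      huP' hwQ' hτP hτQ' hσP hσQ'
  · exact hgen τ (-σ) _ _ Q' P' hτ hσ' (hL.norm_eq _) (hL.norm_eq _) hQK' hPK' hzQ' hzP' hPQ'.symm
      hQc' hPc' hwQ' huP' hτP hτQ' hσQ' (by rwa [neg_neg])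

/-- Two edges which cross. -/
theorem alt_of_cross (hL : IsLayout G x K) (hS : IsSimple G K) {u w u' w' : V} (h : G.Adj u w)
    (h' : G.Adj u' w') (h1 : u ≠ u') (h2 : u ≠ w') (h3 : w ≠ u') (h4 : w ≠ w')
    (hc : (K s(u, w) ∩ K s(u', w')).Nonempty) :
    alt (x u) (x w) (x u') (x w') = 0 ∧ alt (x u) (x w) (x w') (x u') = 0 :=
  alt_of_cross_aux hL hS h h' h1 h2 h3 h4 hc

end Pool.Agent.H77.BC
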