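import Pool.Agent.H77.BC.Defs

/-!
Module U, part 1: chords in the projective model, chart lemma.
-/

set_option autoImplicit false

namespace Pool.Agent.H77.BC

namespace UX

open Set Filter Topology

/-- the projective parametrisation of the disk by the region `z.1 ^ 2 ≤ z.2` -/
noncomputable def Psi (z : ℝ × ℝ) : ℂ :=
  (((1 - z.2) / (1 + z.2) : ℝ) : ℂ) + ((2 * z.1 / (1 + z.2) : ℝ) : ℂ) * Complex.I

lemma Psi_re (z : ℝ × ℝ) : (Psi z).re = (1 - z.2) / (1 + z.2) := by
  unfold Psi; simp [-Complex.ofReal_div, -Complex.ofReal_add, -Complex.ofReal_mul,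
    -Complex.ofReal_sub]

lemma Psi_im (z : ℝ × ℝ) : (Psi z).im = 2 * z.1 / (1 + z.2) := by
  unfold Psi; simp [-Complex.ofReal_div, -Complex.ofReal_add, -Complex.ofReal_mul,
    -Complex.ofReal_sub]

lemma Psi_inj {z w : ℝ × ℝ} (hz : 0 ≤ z.2) (hw : 0 ≤ w.2) (h : Psi z = Psi w) : z = w := by
  have h1 : (1 - z.2) / (1 + z.2) = (1 - w.2) / (1 + w.2) := by
    rw [← Psi_re, ← Psi_re, h]
  have h2 : 2 * z.1 / (1 + z.2) = 2 * w.1 / (1 + w.2) := by
    rw [← Psi_im, ← Psi_im, h]
  have hz' : (1 + z.2) ≠ 0 := by positivity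
  have hw' : (1 + w.2) ≠ 0 := by positivity
  rw [div_eq_div_iff hz' hw'] at h1 h2
  have h3 : z.2 = w.2 := by linarith
  rw [h3] at h2
  have h4 : z.1 = w.1 := by
    have := mul_right_cancel₀ hw' h2
    linarith
  exact Prod.ext h4 h3

lemma Psi_normSq {z : ℝ × ℝ} (hz : 0 ≤ z.2) :
    ‖Psi z‖ ^ 2 = 1 - 4 * (z.2 - z.1 ^ 2) / (1 + z.2) ^ 2 := by
  rw [Complex.sq_norm, Complex.normSq_apply, Psi_re, Psi_im]
  have hz' : (1 + z.2) ≠ 0 := by positivity
  field_simp
  ring

lemma Psi_norm_lt {z : ℝ × ℝ} (hz : 0 ≤ z.2) : ‖Psi z‖ < 1 ↔ z.1 ^ 2 < z.2 := by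
  have h1 := Psi_normSq hz
  have h2 : 0 < (1 + z.2) ^ 2 := by positivity
  have h3 : ‖Psi z‖ < 1 ↔ ‖Psi z‖ ^ 2 < 1 := by
    constructor
    · intro h
      nlinarith [norm_nonneg (Psi z)]
    · intro h
      nlinarith [norm_nonneg (Psi z)]
  rw [h3, h1]
  constructor
  · intro h
    have h4 : 0 < 4 * (z.2 - z.1 ^ 2) / (1 + z.2) ^ 2 := by linarith
    rw [div_pos_iff_of_pos_right h2] at h4
    linarith
  · intro h
    have h4 : 0 < 4 * (z.2 - z.1 ^ 2) / (1 + z.2) ^ 2 := by
      apply div_pos _ h2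
      linarith
    linarith

lemma Psi_norm_eq (s : ℝ) : ‖Psi (s, s ^ 2)‖ = 1 := by
  have h1 := Psi_normSq (z := (s, s ^ 2)) (by positivity)
  simp only [sub_self, mul_zero, zero_div, sub_zero] at h1
  have h2 := norm_nonneg (Psi (s, s ^ 2))
  nlinarith

lemma Psi_cont : ContinuousOn Psi {z : ℝ × ℝ | 0 ≤ z.2} := by
  have h0 : ∀ z ∈ {z : ℝ × ℝ | 0 ≤ z.2}, (1 + z.2) ≠ 0 := by
    intro z hz
    have hz' : 0 ≤ z.2 := hz
    positivity
  unfold Psi
  apply ContinuousOn.add
  · apply Complex.continuous_ofReal.comp_continuousOn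
    apply ContinuousOn.div _ _ h0
    · fun_prop
    · fun_prop
  · apply ContinuousOn.mul _ continuousOn_const
    apply Complex.continuous_ofReal.comp_continuousOn
    apply ContinuousOn.div _ _ h0
    · fun_prop
    · fun_prop

/-- the chord with the parameters `a`, `b` -/
def chord (a b : ℝ) : Set (ℝ × ℝ) := {z | a ≤ z.1 ∧ z.1 ≤ b ∧ z.2 = (a + b) * z.1 - a * b}

lemma chord_sub {a b : ℝ} {z : ℝ × ℝ} (h : z ∈ chord a b) :
    z.2 - z.1 ^ 2 = (z.1 - a) * (b - z.1) := by
  rw [h.2.2]; ring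

lemma chord_nonneg {a b : ℝ} {z : ℝ × ℝ} (h : z ∈ chord a b) : 0 ≤ z.2 := by
  have h1 := chord_sub h
  have h2 : 0 ≤ (z.1 - a) * (b - z.1) := mul_nonneg (by linarith [h.1]) (by linarith [h.2.1])
  nlinarith [sq_nonneg z.1]

lemma Psi_mem {a b : ℝ} {z : ℝ × ℝ} (hz : 0 ≤ z.2) : Psi z ∈ Psi '' chord a b ↔ z ∈ chord a b := by
  constructor
  · rintro ⟨w, hw, hwz⟩
    have := Psi_inj (chord_nonneg hw) hz hwz
    rw [← this]
    exact hw
  · intro h
    exact ⟨z, h, rfl⟩

lemma chord_closed (a b : ℝ) : IsClosed (chord a b) := by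
  have h : chord a b = {z : ℝ × ℝ | a ≤ z.1} ∩ ({z | z.1 ≤ b} ∩
      {z | z.2 = (a + b) * z.1 - a * b}) := rfl
  rw [h]
  refine (isClosed_le ?_ ?_).inter ((isClosed_le ?_ ?_).inter (isClosed_eq ?_ ?_)) <;> fun_prop

/-- clamping to `[0, 1]` -/
noncomputable def clamp (u : ℝ) : ℝ := max 0 (min 1 u)

lemma clamp_cont : Continuous clamp := by unfold clamp; fun_prop

lemma clamp_mono : Monotone clamp := by
  intro x y h
  unfold clamp
  exact max_le_max le_rfl (min_le_min le_rfl h)

lemma clamp_of_nonpos {u : ℝ} (h : u ≤ 0) : clamp u = 0 := by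
  unfold clamp
  rw [min_eq_right (h.trans zero_le_one), max_eq_left h]

lemma clamp_of_one_le {u : ℝ} (h : 1 ≤ u) : clamp u = 1 := by
  unfold clamp
  rw [min_eq_left h, max_eq_right zero_le_one]

lemma clamp_of_mem {u : ℝ} (h0 : 0 ≤ u) (h1 : u ≤ 1) : clamp u = u := by
  unfold clamp
  rw [min_eq_right h1, max_eq_right h0]

/-- piecewise linear interpolation of the values `v 0, …, v (p + 1)` -/
noncomputable def interp (p : ℕ) (v : ℕ → ℝ) (x : ℝ) : ℝ :=
  v 0 + ∑ j ∈ Finset.range (p + 1), (v (j + 1) - v j) * clamp (x - j)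

lemma interp_nat (p : ℕ) (v : ℕ → ℝ) (i : ℕ) (hi : i ≤ p + 1) : interp p v i = v i := by
  unfold interp
  have h1 : ∑ j ∈ Finset.range (p + 1), (v (j + 1) - v j) * clamp ((i : ℝ) - j) =
      ∑ j ∈ Finset.range i, (v (j + 1) - v j) := by
    rw [← Finset.sum_subset (Finset.range_subset_range.mpr hi) (f := fun j =>
      (v (j + 1) - v j) * clamp ((i : ℝ) - j))]
    · apply Finset.sum_congr rfl
      intro j hj
      rw [Finset.mem_range] at hj
      have : (j : ℝ) + 1 ≤ i := by exact_mod_cast hj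
      rw [clamp_of_one_le (by linarith), mul_one]
    · intro j _ hj
      rw [Finset.mem_range, not_lt] at hj
      have : (i : ℝ) ≤ j := by exact_mod_cast hj
      rw [clamp_of_nonpos (by linarith), mul_zero]
  rw [h1, Finset.sum_range_sub]
  ring

lemma interp_strictMono (p : ℕ) (v : ℕ → ℝ) (hv : ∀ j ≤ p, v j < v (j + 1)) {x y : ℝ}
    (hx : 0 ≤ x) (hxy : x < y) (hy : y ≤ p + 1) : interp p v x < interp p v y := by
  unfold interp
  have h1 : ∑ j ∈ Finset.range (p + 1), (v (j + 1) - v j) * clamp (x - j) <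
      ∑ j ∈ Finset.range (p + 1), (v (j + 1) - v j) * clamp (y - j) := by
    apply Finset.sum_lt_sum
    · intro j hj
      rw [Finset.mem_range] at hj
      apply mul_le_mul_of_nonneg_left
      · apply clamp_mono
        linarith
      · have := hv j (by omega)
        linarith
    · have hf1 : (⌊x⌋₊ : ℝ) ≤ x := Nat.floor_le hx
      have hf2 : x < (⌊x⌋₊ : ℝ) + 1 := Nat.lt_floor_add_one x
      have hf3 : ⌊x⌋₊ < p + 1 := by
        have : (⌊x⌋₊ : ℝ) < p + 1 := by linarith
        exact_mod_cast this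
      refine ⟨⌊x⌋₊, Finset.mem_range.mpr hf3, ?_⟩
      apply mul_lt_mul_of_pos_left
      · rw [clamp_of_mem (u := x - ⌊x⌋₊) (by linarith) (by linarith)]
        unfold clamp
        apply lt_max_of_lt_right
        apply lt_min
        · linarith
        · linarith
      · have := hv ⌊x⌋₊ (by omega)
        linarith
  linarith

lemma interp_mem (p : ℕ) (v : ℕ → ℝ) (hv : ∀ j ≤ p, v j < v (j + 1)) {x : ℝ}
    (hx : 0 ≤ x) (hy : x ≤ p + 1) : interp p v x ∈ Icc (v 0) (v (p + 1)) := by
  have h0 := interp_nat p v 0 (by omega)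
  have h1 := interp_nat p v (p + 1) le_rfl
  push_cast at h0 h1
  constructor
  · rcases hx.eq_or_lt with h | h
    · rw [← h, h0]
    · rw [← h0]
      exact (interp_strictMono p v hv le_rfl h hy).le
  · rcases hy.eq_or_lt with h | h
    · rw [h, h1]
    · rw [← h1]
      exact (interp_strictMono p v hv hx h le_rfl).le

lemma tube {Φ : ℝ × ℝ → ℝ × ℝ} (hΦ : Continuous Φ) {O : Set (ℝ × ℝ)} (hO : IsOpen O) {c : ℝ}
    (h : ∀ x ∈ Icc 0 c, Φ (x, 0) ∈ O) : ∀ᶠ η in 𝓝 (0 : ℝ), ∀ x ∈ Icc 0 c, Φ (x, η) ∈ O := by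
  apply IsCompact.eventually_forall_of_forall_eventually (isCompact_Icc (a := (0 : ℝ)) (b := c))
    (P := fun η x => Φ (x, η) ∈ O)
  intro x hx
  have hc : Continuous fun z : ℝ × ℝ => Φ (z.2, z.1) := hΦ.comp (by fun_prop)
  exact hc.continuousAt.preimage_mem_nhds (hO.mem_nhds (h x hx))

lemma interp_inj (p : ℕ) (v : ℕ → ℝ) (hv : ∀ j ≤ p, v j < v (j + 1)) {x y : ℝ}
    (hx : x ∈ Icc (0 : ℝ) (p + 1)) (hy : y ∈ Icc (0 : ℝ) (p + 1))
    (h : interp p v x = interp p v y) : x = y := by
  rcases lt_trichotomy x y with h1 | h1 | h1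
  · exact absurd h (interp_strictMono p v hv hx.1 h1 hy.2).ne
  · exact h1
  · exact absurd h (interp_strictMono p v hv hy.1 h1 hx.2).ne'

variable {V : Type}

/-- The chart lemma: a grid chart around a piece of the edge `f`. -/
theorem exists_chart [Finite V] (G : SimpleGraph V) (K : Sym2 V → Set ℂ) (A B : Sym2 V → ℝ)
    (hK : ∀ e ∈ G.edgeSet, K e = Psi '' chord (A e) (B e))
    (f : Sym2 V) (hf : f ∈ G.edgeSet) (p : ℕ) (a : Fin p → Sym2 V) (ha : ∀ i, a i ∈ G.edgeSet)
    (haf : ∀ i, a i ≠ f) (hslope : ∀ i, A (a i) + B (a i) ≠ A f + B f)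
    (σ : ℕ → ℝ) (hσ : ∀ j ≤ p, σ j < σ (j + 1)) (h0 : A f < σ 0) (h1 : σ (p + 1) < B f)
    (hx : ∀ i : Fin p, (σ (i + 1), (A f + B f) * σ (i + 1) - A f * B f) ∈
      chord (A (a i)) (B (a i)))
    (hno : ∀ g ∈ G.edgeSet, g ≠ f → (∀ i, a i ≠ g) → ∀ s ∈ Icc (σ 0) (σ (p + 1)),
      (s, (A f + B f) * s - A f * B f) ∉ chord (A g) (B g)) :
    ∃ φ : ℝ × ℝ → ℂ, IsGrid G K a ![f] φ ∧
      ∀ i : Fin p, φ ((i : ℝ) + 1, 1) =
        Psi (σ (i + 1), (A f + B f) * σ (i + 1) - A f * B f) := by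
  classical
  set m : ℝ := A f + B f with hm
  set k : ℝ := A f * B f with hk
  let κ : ℕ → ℝ := fun j => if h : j - 1 < p ∧ 1 ≤ j then
    1 / ((A (a ⟨j - 1, h.1⟩) + B (a ⟨j - 1, h.1⟩)) - m) else 0
  have hκ : ∀ i : Fin p, κ (i + 1) = 1 / ((A (a i) + B (a i)) - m) := by
    intro i
    have h : (i : ℕ) + 1 - 1 < p ∧ 1 ≤ (i : ℕ) + 1 := ⟨by have := i.2; omega, by omega⟩
    simp only [κ, dif_pos h]
    congr
  let v : ℝ → ℕ → ℝ := fun η j => σ j + κ j * η
  have hv0 : v 0 = σ := by funext j; simp [v]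
  let S : ℝ × ℝ → ℝ := fun z => interp p (v z.2) z.1
  let Φ : ℝ × ℝ → ℝ × ℝ := fun z => (S z, m * S z - k + z.2)
  have hvc : ∀ j, Continuous fun z : ℝ × ℝ => v z.2 j := by
    intro j; simp only [v]; fun_prop
  have hSc : Continuous S := by
    simp only [S, interp]
    apply (hvc 0).add
    apply continuous_finsetSum
    intro j _
    apply ((hvc (j + 1)).sub (hvc j)).mul
    exact clamp_cont.comp (by fun_prop)
  have hΦc : Continuous Φ := by
    simp only [Φ]
    fun_prop
  have hSI : ∀ x ∈ Icc (0 : ℝ) (p + 1), S (x, 0) ∈ Icc (σ 0) (σ (p + 1)) := by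
    intro x hx'
    simp only [S, hv0]
    exact interp_mem p σ hσ hx'.1 hx'.2
  -- the four eventual conditions
  have E1 : ∀ᶠ η in 𝓝 (0 : ℝ), ∀ x ∈ Icc (0 : ℝ) (p + 1), Φ (x, η) ∈
      {z : ℝ × ℝ | z.1 ^ 2 < z.2} ∩ ({z | A f < z.1} ∩ {z | z.1 < B f}) := by
    apply tube hΦc
    · refine (isOpen_lt ?_ ?_).inter ((isOpen_lt ?_ ?_).inter (isOpen_lt ?_ ?_)) <;> fun_prop
    · intro x hx'
      have h2 := hSI x hx'
      have h3 : A f < S (x, 0) := lt_of_lt_of_le h0 h2.1
      have h4 : S (x, 0) < B f := lt_of_le_of_lt h2.2 h1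
      refine ⟨?_, h3, h4⟩
      show S (x, 0) ^ 2 < m * S (x, 0) - k + 0
      have h5 := mul_pos (sub_pos.mpr h3) (sub_pos.mpr h4)
      rw [hm, hk]
      nlinarith
  have E2 : ∀ᶠ η in 𝓝 (0 : ℝ), ∀ g : Sym2 V, g ∈ G.edgeSet → g ≠ f → (∀ i, a i ≠ g) →
      ∀ x ∈ Icc (0 : ℝ) (p + 1), Φ (x, η) ∈ (chord (A g) (B g))ᶜ := by
    rw [Filter.eventually_all]
    intro g
    by_cases hg : g ∈ G.edgeSet ∧ g ≠ f ∧ ∀ i, a i ≠ g
    · have h2 : ∀ᶠ η in 𝓝 (0 : ℝ), ∀ x ∈ Icc (0 : ℝ) (p + 1),
          Φ (x, η) ∈ (chord (A g) (B g))ᶜ := by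
        apply tube hΦc (chord_closed _ _).isOpen_compl
        intro x hx'
        have h3 := hno g hg.1 hg.2.1 hg.2.2 (S (x, 0)) (hSI x hx')
        have h4 : Φ (x, 0) = (S (x, 0), m * S (x, 0) - k) := by
          simp only [Φ, add_zero]
        rw [h4]
        exact h3
      filter_upwards [h2] with η h3 _ _ _
      exact h3
    · filter_upwards with η h3 h4 h5
      exact absurd ⟨h3, h4, h5⟩ hg
  have E3 : ∀ᶠ η in 𝓝 (0 : ℝ), ∀ j : Fin (p + 1), v η j < v η (j + 1) := by
    rw [Filter.eventually_all]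
    intro j
    apply ContinuousAt.eventually_lt
    · exact (by simp only [v]; fun_prop : Continuous fun η => v η j).continuousAt
    · exact (by simp only [v]; fun_prop : Continuous fun η => v η (j + 1)).continuousAt
    · rw [hv0]
      exact hσ j (by have := j.2; omega)
  have E4 : ∀ᶠ η in 𝓝 (0 : ℝ), ∀ i : Fin p, A (a i) < v η (i + 1) ∧ v η (i + 1) < B (a i) := by
    rw [Filter.eventually_all]
    intro i
    have h2 := hx i
    have h3 := chord_sub h2
    have h4 : σ 0 ≤ σ (i + 1) ∧ σ (i + 1) ≤ σ (p + 1) := by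
      have h5 := interp_mem p σ hσ (x := ((i + 1 : ℕ) : ℝ)) (by positivity)
        (by have := i.2; push_cast; norm_cast; omega)
      rw [interp_nat p σ (i + 1) (by have := i.2; omega)] at h5
      exact h5
    have h5 : 0 < (σ (i + 1) - A f) * (B f - σ (i + 1)) :=
      mul_pos (by linarith) (by linarith)
    have h6 : 0 < (σ (i + 1) - A (a i)) * (B (a i) - σ (i + 1)) := by
      simp only at h3
      rw [← h3, hm, hk]
      nlinarith
    have h7 : A (a i) < σ (i + 1) := by
      rcases h2.1.lt_or_eq with h | h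
      · exact h
      · exfalso
        simp only at h
        rw [h] at h6
        simp at h6
    have h8 : σ (i + 1) < B (a i) := by
      rcases h2.2.1.lt_or_eq with h | h
      · exact h
      · exfalso
        simp only at h
        rw [h] at h6
        simp at h6
    apply Filter.Eventually.and
    · apply ContinuousAt.eventually_lt
      · exact continuousAt_const
      · exact (by simp only [v]; fun_prop : Continuous fun η => v η (i + 1)).continuousAt
      · rw [hv0]; exact h7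
    · apply ContinuousAt.eventually_lt
      · exact (by simp only [v]; fun_prop : Continuous fun η => v η (i + 1)).continuousAt
      · exact continuousAt_const
      · rw [hv0]; exact h8
  obtain ⟨δ, hδ, hall⟩ := Metric.eventually_nhds_iff.mp (E1.and (E2.and (E3.and E4)))
  set ε : ℝ := δ / 2 with hε
  have hε0 : 0 < ε := by positivity
  have hrect : ∀ z ∈ rect p 1, z.1 ∈ Icc (0 : ℝ) (p + 1) ∧ dist (ε * (z.2 - 1)) 0 < δ := by
    intro z hz
    obtain ⟨hz1, hz2⟩ := hz
    refine ⟨hz1, ?_⟩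
    have h3 := hz2.1
    have h4 := hz2.2
    push_cast at h4
    rw [Real.dist_eq, sub_zero, abs_lt]
    constructor <;> nlinarith
  have hpos : ∀ z ∈ rect p 1, 0 ≤ (Φ (z.1, ε * (z.2 - 1))).2 := by
    intro z hz
    obtain ⟨hz1, hz2⟩ := hrect z hz
    have h3 := ((hall hz2).1 z.1 hz1).1
    have h4 : (Φ (z.1, ε * (z.2 - 1))).1 ^ 2 < (Φ (z.1, ε * (z.2 - 1))).2 := h3
    nlinarith [sq_nonneg (Φ (z.1, ε * (z.2 - 1))).1]
  have hE3' : ∀ z ∈ rect p 1, ∀ j ≤ p, v (ε * (z.2 - 1)) j < v (ε * (z.2 - 1)) (j + 1) := by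
    intro z hz j hj
    exact (hall (hrect z hz).2).2.2.1 ⟨j, by omega⟩
  -- membership in the chord of `f`
  have hmf : ∀ z ∈ rect p 1, Φ (z.1, ε * (z.2 - 1)) ∈ chord (A f) (B f) ↔ z.2 = 1 := by
    intro z hz
    obtain ⟨hz1, hz2⟩ := hrect z hz
    have h3 := ((hall hz2).1 z.1 hz1).2
    constructor
    · intro h
      have h4 := h.2.2
      simp only [Φ] at h4
      have h5 : ε * (z.2 - 1) = 0 := by rw [hm, hk] at h4; linarith
      rcases mul_eq_zero.mp h5 with h6 | h6
      · exact absurd h6 hε0.ne'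
      · linarith
    · intro h
      refine ⟨h3.1.le, h3.2.le, ?_⟩
      simp only [Φ, h]
      rw [hm, hk]
      ring
  -- membership in the chord of `a i`
  have hma : ∀ z ∈ rect p 1, ∀ i : Fin p,
      Φ (z.1, ε * (z.2 - 1)) ∈ chord (A (a i)) (B (a i)) ↔ z.1 = (i : ℝ) + 1 := by
    intro z hz i
    obtain ⟨hz1, hz2⟩ := hrect z hz
    set η : ℝ := ε * (z.2 - 1) with hη
    have hD : (A (a i) + B (a i)) - m ≠ 0 := sub_ne_zero.mpr (hslope i)
    have h3 : v η (i + 1) = σ (i + 1) + η / ((A (a i) + B (a i)) - m) := by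
      simp only [v, hκ i]
      ring
    have h4 : m * σ (i + 1) - k = (A (a i) + B (a i)) * σ (i + 1) - A (a i) * B (a i) :=
      (hx i).2.2
    have h5 : interp p (v η) ((i : ℝ) + 1) = v η (i + 1) := by
      have := interp_nat p (v η) (i + 1) (by have := i.2; omega)
      push_cast at this
      exact this
    have hi1 : (i : ℝ) + 1 ∈ Icc (0 : ℝ) (p + 1) := by
      constructor
      · positivity
      · have : (i : ℕ) < p := i.2
        have : ((i : ℕ) : ℝ) < p := by exact_mod_cast this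
        linarith
    constructor
    · intro h
      have h6 := h.2.2
      simp only [Φ] at h6
      have h7 : S (z.1, η) = v η (i + 1) := by
        rw [h3]
        have h8 : ((A (a i) + B (a i)) - m) * (S (z.1, η) - σ (i + 1)) = η := by linarith
        have h9 : S (z.1, η) - σ (i + 1) = η / ((A (a i) + B (a i)) - m) := by
          rw [eq_div_iff hD]; linarith
        linarith
      have h8 : interp p (v η) z.1 = interp p (v η) ((i : ℝ) + 1) := by
        rw [h5]; exact h7
      exact interp_inj p (v η) (hE3' z hz) hz1 hi1 h8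
    · intro h
      have h6 : S (z.1, η) = v η (i + 1) := by
        simp only [S]
        rw [h, h5]
      have h7 := (hall hz2).2.2.2 i
      refine ⟨?_, ?_, ?_⟩
      · show A (a i) ≤ S (z.1, η)
        rw [h6]; exact h7.1.le
      · show S (z.1, η) ≤ B (a i)
        rw [h6]; exact h7.2.le
      · show m * S (z.1, η) - k + η = (A (a i) + B (a i)) * S (z.1, η) - A (a i) * B (a i)
        rw [h6]
        have h8 : ((A (a i) + B (a i)) - m) * (v η (i + 1) - σ (i + 1)) = η := by
          rw [h3]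
          field_simp
          ring
        linarith
  refine ⟨fun z => Psi (Φ (z.1, ε * (z.2 - 1))), ?_, ?_⟩
  · refine ⟨?_, ?_, ?_, ha, ?_, ?_, ?_⟩
    · have h3 : ContinuousOn (fun z : ℝ × ℝ => Φ (z.1, ε * (z.2 - 1))) (rect p 1) :=
        (hΦc.comp (by fun_prop : Continuous fun z : ℝ × ℝ => (z.1, ε * (z.2 - 1)))).continuousOn
      exact Psi_cont.comp h3 (fun z hz => hpos z hz)
    · intro z hz w hw hzw
      have h3 := Psi_inj (hpos z hz) (hpos w hw) hzw
      have h4 : S (z.1, ε * (z.2 - 1)) = S (w.1, ε * (w.2 - 1)) := congrArg Prod.fst h3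
      have h5 : m * S (z.1, ε * (z.2 - 1)) - k + ε * (z.2 - 1) =
        m * S (w.1, ε * (w.2 - 1)) - k + ε * (w.2 - 1) := congrArg Prod.snd h3
      rw [h4] at h5
      have h6 : ε * (z.2 - 1) = ε * (w.2 - 1) := by linarith
      have h7 : z.2 = w.2 := by
        have := mul_left_cancel₀ hε0.ne' h6
        linarith
      have h8 : z.1 = w.1 := by
        simp only [S] at h4
        rw [h7] at h4
        exact interp_inj p _ (hE3' w hw) (hrect z hz).1 (hrect w hw).1 h4
      exact Prod.ext h8 h7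
    · intro z hz
      rw [Psi_norm_lt (hpos z hz)]
      exact ((hall (hrect z hz).2).1 z.1 (hrect z hz).1).1
    · intro j
      simpa using hf
    · intro i j
      simpa using haf i
    · intro z hz e he
      rw [hK e he, Psi_mem (hpos z hz)]
      by_cases hef : e = f
      · subst hef
        rw [hmf z hz]
        constructor
        · intro h
          exact Or.inr ⟨0, by simp, by simp [h]⟩
        · rintro (⟨i, hi, _⟩ | ⟨j, _, hj⟩)
          · exact absurd hi (haf i)
          · have : j = 0 := Subsingleton.elim _ _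
            subst this
            simpa using hj
      · by_cases hei : ∃ i, a i = e
        · constructor
          · intro h
            obtain ⟨i, hi⟩ := hei
            refine Or.inl ⟨i, hi, ?_⟩
            rw [← hi] at h
            exact (hma z hz i).mp h
          · rintro (⟨i, hi, hi2⟩ | ⟨j, hj, _⟩)
            · rw [← hi]
              exact (hma z hz i).mpr hi2
            · exfalso
              have : j = 0 := Subsingleton.elim _ _
              subst this
              exact hef (by simpa using hj.symm)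
        · push Not at hei
          have h3 := (hall (hrect z hz).2).2.1 e he hef hei z.1 (hrect z hz).1
          constructor
          · intro h
            exact absurd h h3
          · rintro (⟨i, hi, _⟩ | ⟨j, hj, _⟩)
            · exact absurd hi (hei i)
            · exfalso
              have : j = 0 := Subsingleton.elim _ _
              subst this
              exact hef (by simpa using hj.symm)
  · intro i
    have h5 : interp p (v 0) ((i : ℝ) + 1) = v 0 (i + 1) := by
      have := interp_nat p (v 0) (i + 1) (by have := i.2; omega)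
      push_cast at this
      exact this
    simp only [Φ, S, sub_self, mul_zero, add_zero]
    rw [h5, hv0]

end UX

end Pool.Agent.H77.BC
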